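import Pool.Agent.VX.Defs

set_option autoImplicit false

/-! VY-Cen. Centralisers of finite-index subgroups are trivial: an element `z` moving a word `y` does not commute
with an element `p` of `P` all of whose sections are trivial, except the section at `y`. -/

namespace Pool.Agent.VY

open Pool.Agent.VW Pool.Agent.VX
open scoped commutatorElement

private theorem card_wd' {X : Type} [Finite X] (n : ℕ) : Nat.card (Wd X n) = Nat.card X ^ n := by
  induction n with
  | zero =>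
    change Nat.card Unit = _
    simp
  | succ n ih =>
    change Nat.card (X × Wd X n) = _
    rw [Nat.card_prod, ih, pow_succ, mul_comm]

private theorem inf_quot {F X S : Type} [Group F] [Finite X] [Nontrivial X] (ψ : S → F →* Wr F X)
    (htr : ∀ (ω : ℕ → S) (n : ℕ) (v w : Wd X n), ∃ f, (iter ψ n ω f).perm v = w) (ω : ℕ → S) :
    Infinite (F ⧸ NN ψ ω) := by
  by_contra hcon
  rw [not_infinite_iff_finite] at hcon
  have h1 : ∀ n, Nat.card X ^ n ≤ Nat.card (F ⧸ NN ψ ω) := by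
    intro n
    obtain ⟨v⟩ := Wd.nonempty X n
    have hw : ∀ a b : F, (QuotientGroup.leftRel (NN ψ ω)) a b → (iter ψ n ω a).perm v = (iter ψ n ω b).perm v := by
      intro a b hab
      rw [QuotientGroup.leftRel_apply] at hab
      have h2 : (iter ψ n ω (a⁻¹ * b)).perm = 1 := hab n
      rw [map_mul, map_inv, Wr.mul_perm, Wr.inv_perm, inv_mul_eq_one] at h2
      rw [h2]
    have hs : Function.Surjective (fun q : F ⧸ NN ψ ω => Quotient.liftOn' q (fun a => (iter ψ n ω a).perm v) hw) := by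
      intro w
      obtain ⟨f, hf⟩ := htr ω n v w
      exact ⟨(f : F ⧸ NN ψ ω), hf⟩
    rw [← card_wd']
    exact Nat.card_le_card_of_surjective _ hs
  have h2 : 2 ≤ Nat.card X := by
    have := Finite.one_lt_card (α := X)
    omega
  have h3 := h1 (Nat.card (F ⧸ NN ψ ω))
  have h4 : Nat.card (F ⧸ NN ψ ω) < 2 ^ Nat.card (F ⧸ NN ψ ω) := Nat.lt_two_pow_self
  have h5 := Nat.pow_le_pow_left h2 (Nat.card (F ⧸ NN ψ ω))
  omega

theorem exists_incongruent {F X S : Type} [Group F] [Finite X] [Nontrivial X]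
    (ψ : S → F →* Wr F X) (K : Subgroup F) [K.FiniteIndex]
    (htr : ∀ (ω : ℕ → S) (n : ℕ) (v w : Wd X n), ∃ f, (iter ψ n ω f).perm v = w) (ω : ℕ → S)
    (n : ℕ) : ∃ κ : Fin n → F, (∀ i, κ i ∈ K) ∧ ∀ i j, i ≠ j → (κ i)⁻¹ * κ j ∉ NN ψ ω := by
  have h0 := inf_quot ψ htr ω
  have h1 : Infinite (K.map (QuotientGroup.mk' (NN ψ ω))) := by
    by_contra hcon
    rw [not_infinite_iff_finite] at hcon
    have h2 : (K.map (QuotientGroup.mk' (NN ψ ω))).index ≠ 0 := by
      intro h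
      have h3 := K.index_map_dvd (f := QuotientGroup.mk' (NN ψ ω)) (QuotientGroup.mk'_surjective _)
      rw [h, zero_dvd_iff] at h3
      exact Subgroup.FiniteIndex.index_ne_zero h3
    have h3 := (K.map (QuotientGroup.mk' (NN ψ ω))).card_mul_index
    have h4 : Nat.card (F ⧸ NN ψ ω) ≠ 0 := by
      rw [← h3]
      exact Nat.mul_ne_zero Nat.card_pos.ne' h2
    have h5 : Finite (F ⧸ NN ψ ω) := Nat.finite_of_card_ne_zero h4
    exact not_finite (F ⧸ NN ψ ω)
  have e := Infinite.natEmbedding (K.map (QuotientGroup.mk' (NN ψ ω)))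
  have h2 : ∀ i : ℕ, ∃ k ∈ K, QuotientGroup.mk' (NN ψ ω) k = (e i : F ⧸ NN ψ ω) := fun i => Subgroup.mem_map.1 (e i).2
  choose k hk hk1 using h2
  refine ⟨fun i => k i, fun i => hk i, fun i j hij hmem => hij ?_⟩
  have h3 : QuotientGroup.mk' (NN ψ ω) (k i) = QuotientGroup.mk' (NN ψ ω) (k j) := QuotientGroup.eq.2 hmem
  rw [hk1, hk1] at h3
  exact Fin.ext (e.injective (Subtype.ext h3))

private theorem br_all {F X S : Type} [Group F] (ψ : S → F →* Wr F X) (K : Subgroup F)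
    (hbr : ∀ s, ∀ κ : X → F, (∀ x, κ x ∈ K) → ∃ f ∈ K, (ψ s f).perm = 1 ∧ ∀ x, (ψ s f).sec x = κ x)
    (ω : ℕ → S) (n : ℕ) (κ : Wd X n → F) (hκ : ∀ y, κ y ∈ K) : ∃ f ∈ K, iter ψ n ω f = base κ := by
  cases n with
  | zero =>
    refine ⟨κ (), hκ (), ?_⟩
    apply Wr.ext
    · rfl
    · funext y
      rfl
  | succ n =>
    obtain ⟨f, hf, hf1, hf2⟩ := branch_all ψ (fun _ => K) (fun s _ κ hκ => hbr s κ hκ) n ω κ
      hκ (ω 0)
    refine ⟨f, hf, ?_⟩
    apply Wr.ext
    · exact hf1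
    · funext y
      exact hf2 y

theorem cen_trivial {F X S : Type} [Group F] [Finite X] [Nontrivial X]
    (ψ : S → F →* Wr F X) (K : Subgroup F) [K.Normal] [K.FiniteIndex]
    (hbr : ∀ s, ∀ κ : X → F, (∀ x, κ x ∈ K) → ∃ f ∈ K, (ψ s f).perm = 1 ∧ ∀ x, (ψ s f).sec x = κ x)
    (htr : ∀ (ω : ℕ → S) (n : ℕ) (v w : Wd X n), ∃ f, (iter ψ n ω f).perm v = w) (ω : ℕ → S)
    (P : Subgroup F) [P.FiniteIndex] (z : F) (hz : ∀ p ∈ P, ⁅z, p⁆ ∈ NN ψ ω) : z ∈ NN ψ ω := by
  classical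
  intro n
  by_contra hn
  have h1 : ∃ y, (iter ψ n ω z).perm y ≠ y := by
    by_contra hcon
    push Not at hcon
    exact hn (Equiv.ext hcon)
  obtain ⟨y, hy⟩ := h1
  obtain ⟨κ, hκ, hκ1⟩ := exists_incongruent ψ K htr (shn n ω) (P.index + 1)
  have h2 : ∀ i, ∃ b ∈ K, iter ψ n ω b = base (fun y' => if y' = y then κ i else 1) := fun i =>
    br_all ψ K hbr ω n _ (fun y' => by
      split_ifs
      · exact hκ i
      · exact K.one_mem)
  choose b hb hb1 using h2
  have hfq : Fintype (F ⧸ P) := Fintype.ofFinite _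
  obtain ⟨i, j, hij, he⟩ := Fintype.exists_ne_map_eq_of_card_lt (fun i : Fin (P.index + 1) => (b i : F ⧸ P)) (by
    rw [Fintype.card_fin, ← Nat.card_eq_fintype_card]
    exact Nat.lt_succ_self _)
  have hp : (b i)⁻¹ * b j ∈ P := QuotientGroup.eq.1 he
  have h3 := hz _ hp
  rw [mem_NN_level ψ n] at h3
  have h4 := h3.2 y
  set μ : Wd X n → F := fun y' => (if y' = y then κ i else 1)⁻¹ * (if y' = y then κ j else 1) with hμ
  have h5 : iter ψ n ω ((b i)⁻¹ * b j) = base μ := by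
    rw [map_mul, map_inv, hb1, hb1, base_inv, base_mul]
  have h6 : iter ψ n ω ⁅z, (b i)⁻¹ * b j⁆ = iter ψ n ω z * base μ * (iter ψ n ω z)⁻¹ * (base μ)⁻¹ := by
    rw [commutatorElement_def, map_mul, map_mul, map_mul, map_inv, map_inv, h5]
  rw [h6, conj_base, base_inv, base_mul, base_sec] at h4
  have h7 : (iter ψ n ω z).perm⁻¹ y ≠ y := by
    intro h
    rw [Equiv.Perm.inv_eq_iff_eq] at h
    exact hy h.symm
  have h8 : μ ((iter ψ n ω z).perm⁻¹ y) = 1 := by
    rw [hμ]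
    simp only [if_neg h7]
    group
  have h9 : μ y = (κ i)⁻¹ * κ j := by
    rw [hμ]
    simp
  rw [h8, h9, mul_one, mul_inv_cancel, one_mul, inv_mem_iff] at h4
  exact hκ1 i j hij h4

end Pool.Agent.VY
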