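import Pool.Agent.VX.Reps

set_option autoImplicit false

/-! Job VY-Cos. Coset representatives of `[K,K]` modulo `{f : trivial permutation, sections in K}` (compare
`exists_cosets` in `Pool/Agent/VX/Reps.lean`: use `F ⧸ K` instead of `F ⧸ ⁅K, K⁆`), and representatives of finitely many
families. -/

namespace Pool.Agent.VY

open Pool.Agent.VW Pool.Agent.VX
open scoped commutatorElement

theorem exists_cosets' {F Y : Type} [Group F] [Finite Y] (Ψ : F →* Wr F Y)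
    (K : Subgroup F) [K.Normal] [K.FiniteIndex] {T : Set F} (hTs : ∀ t ∈ T, t⁻¹ ∈ T)
    (hT : Subgroup.closure T = ⊤) :
    ∃ C, ∀ g ∈ ⁅K, K⁆, ∃ t, CL K C t ∧ (∀ y, Len T C ((Ψ t⁻¹).sec y)) ∧ (Ψ (t⁻¹ * g)).perm = 1 ∧
      ∀ y, (Ψ (t⁻¹ * g)).sec y ∈ K := by
  classical
  have hQ : Finite (F ⧸ K) := Subgroup.finite_quotient_of_finiteIndex
  let Φ : F →* Wr (F ⧸ K) Y := (Wr.map (QuotientGroup.mk' K)).comp Ψ
  have h1 : ∀ w : Wr (F ⧸ K) Y, ∃ t : F, t ∈ ⁅K, K⁆ ∧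
      ((∃ g ∈ ⁅K, K⁆, Φ g = w) → Φ t = w) := by
    intro w
    by_cases h : ∃ g ∈ ⁅K, K⁆, Φ g = w
    · obtain ⟨g, hg, hw⟩ := h
      exact ⟨g, hg, fun _ => hw⟩
    · exact ⟨1, Subgroup.one_mem _, fun h' => absurd h' h⟩
  choose t ht1 ht2 using h1
  have h2 : ∀ w, ∃ c, CL K c (t w) := fun w => CL.exists_of_mem (ht1 w)
  choose c hc using h2
  have h3 : ∀ w y, ∃ m, Len T m ((Ψ (t w)⁻¹).sec y) := fun w y =>
    Len.exists_of_mem_closure hTs (by rw [hT]; trivial)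
  choose m hm using h3
  have i1 := Fintype.ofFinite (Wr (F ⧸ K) Y)
  have i2 := Fintype.ofFinite Y
  refine ⟨(∑ w, c w) + ∑ w, ∑ y, m w y, fun g hg => ⟨t (Φ g), ?_, ?_, ?_, ?_⟩⟩
  · refine (hc (Φ g)).mono ?_
    have := Finset.single_le_sum (f := c) (fun _ _ => Nat.zero_le _) (Finset.mem_univ (Φ g))
    omega
  · intro y
    refine (hm (Φ g) y).mono ?_
    have e1 := Finset.single_le_sum (f := fun y => m (Φ g) y) (fun _ _ => Nat.zero_le _)
      (Finset.mem_univ y)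
    have e2 := Finset.single_le_sum (f := fun w => ∑ y, m w y) (fun _ _ => Nat.zero_le _)
      (Finset.mem_univ (Φ g))
    exact le_trans (le_trans e1 e2) (Nat.le_add_left _ _)
  · have h4 : Φ ((t (Φ g))⁻¹ * g) = 1 := by
      rw [map_mul, map_inv, ht2 (Φ g) ⟨g, hg, rfl⟩, inv_mul_cancel]
    have h5 := congrArg Wr.perm h4
    exact h5
  · intro y
    have h4 : Φ ((t (Φ g))⁻¹ * g) = 1 := by
      rw [map_mul, map_inv, ht2 (Φ g) ⟨g, hg, rfl⟩, inv_mul_cancel]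
    have h5 := congrFun (congrArg Wr.sec h4) y
    exact (QuotientGroup.eq_one_iff _).1 h5

/-- There are finitely many families `t' : Y → R`; for each one which occurs choose `τ₀ ∈ [K,K]`. -/
theorem exists_tors {F Y : Type} [Group F] [Finite Y] (Ψ : F →* Wr F Y) (K : Subgroup F)
    {R : Set F} (hR : R.Finite) :
    ∃ C, ∀ τ ∈ ⁅K, K⁆, ∀ t' : Y → F, (∀ y, t' y ∈ R) → Ψ τ = base t' →
      ∃ τ₀, CL K C τ₀ ∧ Ψ τ₀ = base t' := by
  classical
  have hfin : (Set.pi Set.univ (fun _ : Y => R)).Finite := Set.Finite.pi' (fun _ => hR) |>.subset (by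
    intro t' ht'
    exact fun y => ht' y trivial)
  have h1 : ∀ t' : Y → F, ∃ τ₀ C, CL K C τ₀ ∧ ((∃ τ ∈ ⁅K, K⁆, Ψ τ = base t') → Ψ τ₀ = base t') := by
    intro t'
    by_cases h : ∃ τ ∈ ⁅K, K⁆, Ψ τ = base t'
    · obtain ⟨τ, hτ, he⟩ := h
      obtain ⟨C, hC⟩ := CL.exists_of_mem hτ
      exact ⟨τ, C, hC, fun _ => he⟩
    · obtain ⟨C, hC⟩ := CL.exists_of_mem (K := K) (Subgroup.one_mem _)
      exact ⟨1, C, hC, fun h' => absurd h' h⟩
  choose τ₀ C hC h2 using h1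
  refine ⟨∑ t' ∈ hfin.toFinset, C t', fun τ hτ t' ht' he => ⟨τ₀ t', (hC t').mono ?_, h2 t' ⟨τ, hτ, he⟩⟩⟩
  exact Finset.single_le_sum (f := C) (fun _ _ => Nat.zero_le _) (hfin.mem_toFinset.2 (fun y _ => ht' y))

end Pool.Agent.VY
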