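import Pool.Agent.VX.Basic
import Pool.Agent.VW.Over

set_option autoImplicit false

/-! Job VY-Disp. Displacement.

(Close to `finiteWidths_quot` in `Pool/Agent/VX/Fin.lean`.) Some `w ∈ W` acts nontrivially on some level `n` (`mem_NN`). By transitivity and
invariance every vertex of level `n` is moved by an element of `W`. Let `Θ : F ⧸ N →* Wr (F ⧸ NN ψ (shn n ω)) (Wd X n)`, induced by
`iter ψ n ω`, injective by `mem_NN_level` (compare `Tower.Θ` in `Pool/Agent/VW/Tower.lean`, `Tower.hb`, `Tower.displace`). By `CL_len`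
(`Pool/Agent/VW/Disp.lean`, `π = id`) elements with `Θ g = base κ`, `CL K_A B (κ y)` for all `y`, are products of boundedly many
elements of `W` (`K_A` the image of `K`; `hB` and `CL.map` give `CL K_A B` for the images of elements of `⁅K, K⁆`). -/

namespace Pool.Agent.VY

open Pool.Agent.VW Pool.Agent.VX
open scoped commutatorElement

/-- the embedding of `F ⧸ N` in a wreath product at level `n` -/
private noncomputable def finΘ {F X S : Type} [Group F] [Nonempty X] (ψ : S → F →* Wr F X)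
    (n : ℕ) (ω : ℕ → S) : F ⧸ NN ψ ω →* Wr (F ⧸ NN ψ (shn n ω)) (Wd X n) :=
  QuotientGroup.lift (NN ψ ω)
    ((Wr.map (QuotientGroup.mk' (NN ψ (shn n ω)))).comp (iter ψ n ω)) (by
      intro f hf
      obtain ⟨h1, h2⟩ := (mem_NN_level ψ n ω f).1 hf
      apply Wr.ext
      · exact h1
      · funext y
        exact (QuotientGroup.eq_one_iff _).2 (h2 y))

private theorem finΘ_mk {F X S : Type} [Group F] [Nonempty X] (ψ : S → F →* Wr F X)
    (n : ℕ) (ω : ℕ → S) (f : F) :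
    finΘ ψ n ω (f : F ⧸ NN ψ ω)
      = Wr.map (QuotientGroup.mk' (NN ψ (shn n ω))) (iter ψ n ω f) := rfl

private theorem finΘ_inj {F X S : Type} [Group F] [Nonempty X] (ψ : S → F →* Wr F X)
    (n : ℕ) (ω : ℕ → S) : Function.Injective (finΘ ψ n ω) := by
  rw [injective_iff_map_eq_one]
  intro x
  induction x using QuotientGroup.induction_on with
  | H f =>
    intro h
    rw [finΘ_mk] at h
    have h1 : (iter ψ n ω f).perm = 1 := congrArg Wr.perm h
    have h2 : ∀ y, (iter ψ n ω f).sec y ∈ NN ψ (shn n ω) := by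
      intro y
      have := congrFun (congrArg Wr.sec h) y
      exact (QuotientGroup.eq_one_iff _).1 this
    exact (QuotientGroup.eq_one_iff _).2 ((mem_NN_level ψ n ω f).2 ⟨h1, h2⟩)

private theorem fin_branch {F X S : Type} [Group F] (ψ : S → F →* Wr F X) (K : Subgroup F)
    (hbr : ∀ s, ∀ κ : X → F, (∀ x, κ x ∈ K) → ∃ f ∈ K, (ψ s f).perm = 1 ∧ ∀ x, (ψ s f).sec x = κ x)
    (n : ℕ) (ω : ℕ → S) (κ : Wd X n → F) (hκ : ∀ y, κ y ∈ K) :
    ∃ f, (iter ψ n ω f).perm = 1 ∧ ∀ y, (iter ψ n ω f).sec y = κ y := by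
  cases n with
  | zero => exact ⟨κ (), rfl, fun _ => rfl⟩
  | succ n =>
    obtain ⟨f, -, h1, h2⟩ := branch_all ψ (fun _ => K) (fun s _ κ hκ => hbr s κ hκ) n ω κ hκ (ω 0)
    exact ⟨f, h1, h2⟩

theorem disp {F X S : Type} [Group F] [Finite X] [Nonempty X]
    (ψ : S → F →* Wr F X) (K : Subgroup F) [K.Normal]
    (hbr : ∀ s, ∀ κ : X → F, (∀ x, κ x ∈ K) → ∃ f ∈ K, (ψ s f).perm = 1 ∧ ∀ x, (ψ s f).sec x = κ x)
    (htr : ∀ (ω : ℕ → S) (n : ℕ) (v w : Wd X n), ∃ f, (iter ψ n ω f).perm v = w)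
    {B : ℕ} (hB : ∀ ω, ∀ g ∈ ⁅K, K⁆, CM (NN ψ ω) K B g) (ω : ℕ → S) (W : Set (F ⧸ NN ψ ω))
    (hs : ∀ x ∈ W, x⁻¹ ∈ W) (hc : ∀ x ∈ W, ∀ g, g * x * g⁻¹ ∈ W) (h1 : ∃ w ∈ W, w ≠ 1) :
    ∃ n m, ∀ g : F, (iter ψ n ω g).perm = 1 → (∀ y, (iter ψ n ω g).sec y ∈ ⁅K, K⁆) →
      Len W m (QuotientGroup.mk g : F ⧸ NN ψ ω) := by
  classical
  obtain ⟨x, hx, hx1⟩ := h1
  obtain ⟨f, rfl⟩ := QuotientGroup.mk_surjective x
  have hf : f ∉ NN ψ ω := fun hf => hx1 ((QuotientGroup.eq_one_iff _).2 hf)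
  rw [mem_NN] at hf
  push Not at hf
  obtain ⟨n, hn⟩ := hf
  obtain ⟨y₀, hy₀⟩ : ∃ y₀, (iter ψ n ω f).perm y₀ ≠ y₀ := by
    by_contra hcon
    push Not at hcon
    exact hn (Equiv.ext hcon)
  set M : Subgroup F := NN ψ (shn n ω) with hM
  set KA : Subgroup (F ⧸ M) := K.map (QuotientGroup.mk' M) with hKA
  have hb : ∀ κ : Wd X n → F ⧸ M, (∀ y, κ y ∈ KA) → ∃ g, finΘ ψ n ω g = base κ := by
    intro κ hκ
    choose κ' hκ' he using hκ
    obtain ⟨f, hf1, hf2⟩ := fin_branch ψ K hbr n ω κ' hκ'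
    refine ⟨(f : F ⧸ NN ψ ω), ?_⟩
    rw [finΘ_mk]
    apply Wr.ext
    · exact hf1
    · funext y
      change (((iter ψ n ω f).sec y : F) : F ⧸ M) = κ y
      rw [hf2 y]
      exact he y
  have hd : ∀ z : Wd X n, ∃ h ∈ W, ∀ y, id y = z → id ((finΘ ψ n ω h).perm y) ≠ z := by
    intro z
    obtain ⟨g, hg⟩ := htr ω n y₀ z
    refine ⟨((g * f * g⁻¹ : F) : F ⧸ NN ψ ω), ?_, ?_⟩
    · have := hc _ hx (g : F ⧸ NN ψ ω)
      simpa using this
    · intro y hy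
      change y = z at hy
      rw [finΘ_mk, hy]
      change (iter ψ n ω (g * f * g⁻¹)).perm z ≠ z
      simp only [map_mul, map_inv, Wr.mul_perm, Wr.inv_perm, Equiv.Perm.mul_apply]
      have h3 : (iter ψ n ω g).perm⁻¹ z = y₀ := by
        rw [← hg]; simp
      rw [h3]
      intro h4
      apply hy₀
      have h5 : (iter ψ n ω g).perm ((iter ψ n ω f).perm y₀) = (iter ψ n ω g).perm y₀ := by
        rw [h4, hg]
      exact (iter ψ n ω g).perm.injective h5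
  have := Fintype.ofFinite (Wd X n)
  refine ⟨n, 4 * Fintype.card (Wd X n) * B, ?_⟩
  intro g hg1 hg2
  have hp : (finΘ ψ n ω (g : F ⧸ NN ψ ω)).perm = 1 := by
    rw [finΘ_mk]
    exact hg1
  have hsec : ∀ y, CL KA B ((finΘ ψ n ω (g : F ⧸ NN ψ ω)).sec y) := by
    intro y
    obtain ⟨u, hu, huM⟩ := hB (shn n ω) _ (hg2 y)
    have h3 : ((u : F) : F ⧸ M) = (((iter ψ n ω g).sec y : F) : F ⧸ M) := QuotientGroup.eq.2 huM
    have h4 := hu.map (QuotientGroup.mk' M)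
    have h5 : QuotientGroup.mk' M u = (finΘ ψ n ω (g : F ⧸ NN ψ ω)).sec y := by
      rw [finΘ_mk]
      exact h3
    rw [h5] at h4
    exact h4
  exact CL_len (finΘ ψ n ω) (finΘ_inj ψ n ω) KA hb id hs hc hd B _ hsec _ (eq_base _ hp)

end Pool.Agent.VY
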