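import Pool.Agent.VY.Lin
import Pool.Agent.VX.Perm

set_option autoImplicit false

/-! Job VY-LBd. Commutator length is linearly bounded by the word length (no condition on the index of
`[K,K]`).

Enumerate `Q` as `q : Fin s → F`. For `x : Fin s → ℤ` put `π x = (List.ofFn (fun i => q i ^ x i)).prod`.
Then `π x * π y = u * π (x + y)` with `CL K (2 * s) u` (`CL.perm`: reorder the list of the `2 s` factors
`q i ^ x i`, `q i ^ y i`; then merge). Hence an element `g` which is a product of `m` elements of `Q` is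
`u * π x` with `CL K (2 * s * m) u`, `∑ |x i| ≤ m`. If `g ∈ [K,K]` then `π x ∈ [K,K]`, so `x` is in the kernel `Λ`
of `ℤ^s → Abelianization K`; `Λ` is finitely generated, by `M j`, `j : Fin t` (noetherian); `lin`:
`x = ∑ n j • M j`, `∑ |n j| ≤ C * m`; so `π x` is a product of at most `C * m` elements `π (± M j)`, which are in
`[K,K]` (finitely many: commutator lengths bounded by `CL.exists_of_mem`), up to `2 * s * C * m`
commutators. -/

namespace Pool.Agent.VY

open Pool.Agent.VW Pool.Agent.VX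
open scoped commutatorElement

section aux

variable {F : Type} [Group F] {K : Subgroup F} {ι : Type}

/-- the ordered product of the powers -/
private def pp (q : ι → F) (L : List ι) (x : ι → ℤ) : F := (L.map fun i => q i ^ x i).prod

private theorem pp_mem (q : ι → F) (hq : ∀ i, q i ∈ K) (L : List ι) (x : ι → ℤ) : pp q L x ∈ K := by
  unfold pp
  refine Subgroup.list_prod_mem _ ?_
  intro y hy
  obtain ⟨i, -, rfl⟩ := List.mem_map.1 hy
  exact K.zpow_mem (hq i) _

private theorem pp_zero (q : ι → F) (L : List ι) : pp q L 0 = 1 := by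
  unfold pp
  induction L with
  | nil => rfl
  | cons i t ih => simp

private theorem pp_mul (q : ι → F) (hq : ∀ i, q i ∈ K) (x y : ι → ℤ) (L : List ι) :
    ∃ u, CL K L.length u ∧ pp q L x * pp q L y = u * pp q L (x + y) := by
  induction L with
  | nil => exact ⟨1, rfl, by simp [pp]⟩
  | cons i t ih =>
    obtain ⟨u, hu, h⟩ := ih
    have hA : pp q t x ∈ K := pp_mem q hq t x
    have h1 : CL K 1 ⁅pp q t x, q i ^ y i⁆ := CL.of_comm hA (K.zpow_mem (hq i) _)
    have h2 := CL.conj_mem h1 (K.zpow_mem (hq i) (x i))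
    have h3 := CL.conj_mem hu (K.mul_mem (K.zpow_mem (hq i) (x i)) (K.zpow_mem (hq i) (y i)))
    refine ⟨(q i ^ x i * ⁅pp q t x, q i ^ y i⁆ * (q i ^ x i)⁻¹) *
      (q i ^ x i * q i ^ y i * u * (q i ^ x i * q i ^ y i)⁻¹), ?_, ?_⟩
    · have h4 := h2.mul h3
      rwa [Nat.add_comm] at h4
    have e1 : ∀ z : ι → ℤ, pp q (i :: t) z = q i ^ z i * pp q t z := fun z => by
      simp [pp]
    rw [e1, e1, e1, commutatorElement_def]
    have e2 : q i ^ (x + y) i = q i ^ x i * q i ^ y i := by rw [Pi.add_apply, zpow_add]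
    have e3 : pp q t (x + y) = u⁻¹ * (pp q t x * pp q t y) := by rw [h]; group
    rw [e2, e3]
    generalize pp q t x = A
    generalize pp q t y = B
    generalize q i ^ x i = a
    generalize q i ^ y i = b
    group

/-- `pp x` costs at most `N` commutators -/
private def PB (K : Subgroup F) (q : ι → F) (L : List ι) (x : ι → ℤ) (N : ℕ) : Prop :=
  CL K N (pp q L x)

private theorem PB.add {q : ι → F} (hq : ∀ i, q i ∈ K) {L : List ι} {x y : ι → ℤ} {a b : ℕ}
    (hx : PB K q L x a) (hy : PB K q L y b) : PB K q L (x + y) (L.length + (a + b)) := by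
  obtain ⟨u, hu, h⟩ := pp_mul (K := K) q hq x y L
  have h1 := (CL.inv hu).mul (VW.CL.mul hx hy)
  have h2 : pp q L (x + y) = u⁻¹ * (pp q L x * pp q L y) := by rw [h]; group
  unfold PB
  rw [h2]
  exact h1

private theorem PB.zero (q : ι → F) (L : List ι) (N : ℕ) : PB K q L 0 N := by
  unfold PB
  rw [pp_zero]
  exact CL.one N

private theorem PB.nsmul {q : ι → F} (hq : ∀ i, q i ∈ K) {L : List ι} {x : ι → ℤ} {a : ℕ}
    (hx : PB K q L x a) : ∀ n : ℕ, PB K q L ((n : ℤ) • x) (n * (L.length + a))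
  | 0 => by
      have : ((0 : ℕ) : ℤ) • x = 0 := by simp
      rw [this]
      exact PB.zero q L _
  | n + 1 => by
      have h := PB.add hq (PB.nsmul hq hx n) hx
      have e : ((n + 1 : ℕ) : ℤ) • x = ((n : ℕ) : ℤ) • x + x := by
        push_cast
        rw [add_smul, one_smul]
      rw [e]
      have e2 : (n + 1) * (L.length + a) = L.length + (n * (L.length + a) + a) := by ring
      rw [e2]
      exact h

private theorem PB.zsmul {q : ι → F} (hq : ∀ i, q i ∈ K) {L : List ι} {x : ι → ℤ} {a : ℕ}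
    (hx : PB K q L x a) (hx' : PB K q L (-x) a) (n : ℤ) :
    PB K q L (n • x) (n.natAbs * (L.length + a)) := by
  rcases Int.natAbs_eq n with h | h
  · have := PB.nsmul hq hx n.natAbs
    rwa [← h] at this
  · have h1 := PB.nsmul hq hx' n.natAbs
    have e : n • x = ((n.natAbs : ℕ) : ℤ) • (-x) := by
      conv_lhs => rw [h]
      rw [neg_smul, smul_neg]
    rw [e]
    exact h1

private theorem PB.sum {κ : Type} {q : ι → F} (hq : ∀ i, q i ∈ K) {L : List ι} (M : κ → ι → ℤ)
    {a : ℕ} (h1 : ∀ j, PB K q L (M j) a) (h2 : ∀ j, PB K q L (-M j) a) (n : κ → ℤ) (T : Finset κ) :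
    PB K q L (∑ j ∈ T, n j • M j) ((∑ j ∈ T, (n j).natAbs) * (L.length + a) + T.card * L.length) := by
  classical
  induction T using Finset.induction_on with
  | empty => simpa using PB.zero q L _
  | insert j T hj ih =>
    rw [Finset.sum_insert hj, Finset.sum_insert hj, Finset.card_insert_of_notMem hj]
    have h := PB.add hq (PB.zsmul hq (h1 j) (h2 j) (n j)) ih
    have e : ((n j).natAbs + ∑ j ∈ T, (n j).natAbs) * (L.length + a) + (T.card + 1) * L.length =
        L.length + ((n j).natAbs * (L.length + a) +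
          ((∑ j ∈ T, (n j).natAbs) * (L.length + a) + T.card * L.length)) := by ring
    rw [e]
    exact h

private theorem pp_single [DecidableEq ι] (q : ι → F) (i : ι) (L : List ι) (hL : L.Nodup) :
    pp q L (Pi.single i 1) = if i ∈ L then q i else 1 := by
  induction L with
  | nil => simp [pp]
  | cons j t ih =>
    rw [List.nodup_cons] at hL
    have e1 : pp q (j :: t) (Pi.single i 1) =
        q j ^ (Pi.single i 1 : ι → ℤ) j * pp q t (Pi.single i 1) := by simp [pp]
    rw [e1, ih hL.2]
    by_cases hij : i = j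
    · subst hij
      simp [hL.1]
    · have hji : j ≠ i := fun h => hij h.symm
      simp [hij, hji]

/-- words -/
private theorem word [Fintype ι] [DecidableEq ι] (q : ι → F) (hq : ∀ i, q i ∈ K) (L : List ι)
    (hL : L.Nodup) (hLm : ∀ i, i ∈ L) : ∀ l : List ι, ∃ (x : ι → ℤ) (u : F),
      CL K (L.length * l.length) u ∧ (l.map q).prod = u * pp q L x ∧
        ∑ i, (x i).natAbs ≤ l.length := by
  intro l
  induction l with
  | nil => exact ⟨0, 1, by simpa using CL.one 0, by simp [pp_zero], by simp⟩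
  | cons i t ih =>
    obtain ⟨x, u, hu, h, hx⟩ := ih
    obtain ⟨v, hv, h'⟩ := pp_mul (K := K) q hq (Pi.single i 1) x L
    rw [pp_single q i L hL, if_pos (hLm i)] at h'
    refine ⟨Pi.single i 1 + x, q i * u * (q i)⁻¹ * v, ?_, ?_, ?_⟩
    · have h1 := (CL.conj_mem hu (hq i)).mul hv
      rw [List.length_cons, Nat.mul_succ]
      exact h1
    · rw [List.map_cons, List.prod_cons, h]
      calc q i * (u * pp q L x) = q i * u * (q i)⁻¹ * (q i * pp q L x) := by group
        _ = q i * u * (q i)⁻¹ * v * pp q L (Pi.single i 1 + x) := by rw [h']; group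
    · calc ∑ j, ((Pi.single i 1 + x : ι → ℤ) j).natAbs
          ≤ ∑ j, (((Pi.single i 1 : ι → ℤ) j).natAbs + (x j).natAbs) := by
            refine Finset.sum_le_sum fun j _ => ?_
            rw [Pi.add_apply]
            exact Int.natAbs_add_le _ _
        _ = 1 + ∑ j, (x j).natAbs := by
            rw [Finset.sum_add_distrib]
            congr 1
            rw [Finset.sum_eq_single i]
            · simp
            · intro j _ hj
              simp [hj]
            · intro h; exact absurd (Finset.mem_univ i) h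
        _ ≤ (i :: t).length := by rw [List.length_cons]; omega

/-- the kernel -/
private def Lam (K : Subgroup F) (q : ι → F) (hq : ∀ i, q i ∈ K) (L : List ι) : AddSubgroup (ι → ℤ) where
  carrier := {x | pp q L x ∈ ⁅K, K⁆}
  zero_mem' := by
    show pp q L 0 ∈ ⁅K, K⁆
    rw [pp_zero]
    exact Subgroup.one_mem _
  add_mem' := by
    intro x y hx hy
    obtain ⟨u, hu, h⟩ := pp_mul (K := K) q hq x y L
    show pp q L (x + y) ∈ ⁅K, K⁆
    have h2 : pp q L (x + y) = u⁻¹ * (pp q L x * pp q L y) := by rw [h]; group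
    rw [h2]
    exact Subgroup.mul_mem _ (Subgroup.inv_mem _ (CL.mem hu)) (Subgroup.mul_mem _ hx hy)
  neg_mem' := by
    intro x hx
    obtain ⟨u, hu, h⟩ := pp_mul (K := K) q hq x (-x) L
    show pp q L (-x) ∈ ⁅K, K⁆
    have h2 : pp q L (-x) = (pp q L x)⁻¹ * u := by
      rw [add_neg_cancel, pp_zero, mul_one] at h
      rw [← h]; group
    rw [h2]
    exact Subgroup.mul_mem _ (Subgroup.inv_mem _ hx) (CL.mem hu)

end aux

theorem lbd {F : Type} [Group F] (K : Subgroup F) {Q : Set F} (hQ : Q.Finite) (hQK : Q ⊆ K) :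
    ∃ C : ℕ, ∀ m g, g ∈ ⁅K, K⁆ → Len Q m g → CL K (C * m) g := by
  classical
  have := hQ.fintype
  let q : Q → F := fun i => (i : F)
  have hq : ∀ i, q i ∈ K := fun i => hQK i.2
  let L : List Q := (Finset.univ : Finset Q).toList
  have hL : L.Nodup := Finset.nodup_toList _
  have hLm : ∀ i, i ∈ L := fun i => Finset.mem_toList.2 (Finset.mem_univ i)
  set s := L.length with hs
  -- generators of the kernel
  have hfg : (Lam K q hq L).FG := by
    have h1 : (AddSubgroup.toIntSubmodule (Lam K q hq L)).FG := IsNoetherian.noetherian _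
    exact (Submodule.fg_iff_addSubgroup_fg _).1 h1
  obtain ⟨S, hS⟩ := hfg
  let M : S → Q → ℤ := fun j => (j : Q → ℤ)
  have hM : Set.range M = (S : Set (Q → ℤ)) := by
    ext x
    constructor
    · rintro ⟨j, rfl⟩
      exact j.2
    · intro hx
      exact ⟨⟨x, hx⟩, rfl⟩
  obtain ⟨C1, hC1⟩ := lin M
  have hML : ∀ j, M j ∈ Lam K q hq L := by
    intro j
    rw [← hS]
    exact AddSubgroup.subset_closure j.2
  have hc : ∀ j : S, ∃ c, PB K q L (M j) c ∧ PB K q L (-M j) c := by
    intro j
    obtain ⟨a, ha⟩ := VW.CL.exists_of_mem (hML j)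
    obtain ⟨b, hb⟩ := VW.CL.exists_of_mem ((Lam K q hq L).neg_mem (hML j))
    exact ⟨a + b, ha.mono (Nat.le_add_right a b), hb.mono (Nat.le_add_left b a)⟩
  choose c hc1 hc2 using hc
  obtain ⟨c0, hc0⟩ : ∃ c0, ∀ j, c j ≤ c0 :=
    ⟨∑ j, c j, fun j => Finset.single_le_sum (f := c) (fun i _ => Nat.zero_le _) (Finset.mem_univ j)⟩
  refine ⟨s + (C1 * (s + c0) + Fintype.card S * s), ?_⟩
  intro m g hg hlen
  obtain ⟨l, hl, hlQ, rfl⟩ := hlen
  -- the case of the empty word
  rcases Nat.eq_zero_or_pos l.length with h0 | hpos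
  · have h0' : l = [] := List.length_eq_zero_iff.1 h0
    rw [h0', List.prod_nil]
    exact CL.one _
  have hl2 : ∃ l' : List Q, l'.map q = l := by
    refine ⟨l.attach.map fun y => ⟨y.1, hlQ y.1 y.2⟩, ?_⟩
    rw [List.map_map]
    show (l.attach.map fun y => (y.1 : F)) = l
    exact List.attach_map_subtype_val l
  obtain ⟨l', rfl⟩ := hl2
  rw [List.length_map] at hl hpos
  obtain ⟨x, u, hu, hx, hxs⟩ := word (K := K) q hq L hL hLm l'
  have hxL : x ∈ Lam K q hq L := by
    show pp q L x ∈ ⁅K, K⁆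
    have h2 : pp q L x = u⁻¹ * (l'.map q).prod := by rw [hx]; group
    rw [h2]
    exact Subgroup.mul_mem _ (Subgroup.inv_mem _ (CL.mem hu)) hg
  rw [← hS, ← hM] at hxL
  obtain ⟨n, hn, hn2⟩ := hC1 x hxL
  have hP := PB.sum hq M (a := c0) (fun j => (hc1 j).mono (hc0 j)) (fun j => (hc2 j).mono (hc0 j)) n
    Finset.univ
  rw [← hn] at hP
  have hfin := hu.mul hP
  rw [← hx] at hfin
  refine hfin.mono ?_
  have h1 : ∑ j, (n j).natAbs ≤ C1 * m := by
    refine hn2.trans (Nat.mul_le_mul_left _ (hxs.trans hl))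
  have h2 : s * l'.length ≤ s * m := Nat.mul_le_mul_left _ hl
  have h3 : (∑ j, (n j).natAbs) * (s + c0) ≤ C1 * m * (s + c0) := Nat.mul_le_mul_right _ h1
  have h4 : Fintype.card S * s ≤ Fintype.card S * s * m :=
    Nat.le_mul_of_pos_right _ (lt_of_lt_of_le hpos hl)
  rw [Finset.card_univ]
  calc s * l'.length + ((∑ j, (n j).natAbs) * (s + c0) + Fintype.card S * s)
      ≤ s * m + (C1 * m * (s + c0) + Fintype.card S * s * m) :=
        Nat.add_le_add h2 (Nat.add_le_add h3 h4)
    _ = (s + (C1 * (s + c0) + Fintype.card S * s)) * m := by ring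

end Pool.Agent.VY
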