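import Pool.Agent.VW.Over

set_option autoImplicit false

/-! Job VY-Join. The normal closure of `R₀` is a product of finitely many conjugates. -/

namespace Pool.Agent.VY

open Pool.Agent.VW

private lemma join_sup {E : Type} [Group E] (A B : Subgroup E)
    (h : ∀ b ∈ B, ∀ a ∈ A, b * a * b⁻¹ ∈ A) {x : E} (hx : x ∈ A ⊔ B) :
    ∃ a ∈ A, ∃ b ∈ B, x = a * b := by
  rw [Subgroup.sup_eq_closure] at hx
  refine Subgroup.closure_induction (p := fun x _ => ∃ a ∈ A, ∃ b ∈ B, x = a * b)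
    ?_ ?_ ?_ ?_ hx
  · rintro x (hx | hx)
    · exact ⟨x, hx, 1, B.one_mem, (mul_one x).symm⟩
    · exact ⟨1, A.one_mem, x, hx, (one_mul x).symm⟩
  · exact ⟨1, A.one_mem, 1, B.one_mem, (mul_one 1).symm⟩
  · rintro x y - - ⟨a, ha, b, hb, rfl⟩ ⟨a', ha', b', hb', rfl⟩
    refine ⟨a * (b * a' * b⁻¹), A.mul_mem ha (h b hb a' ha'), b * b', B.mul_mem hb hb', ?_⟩
    group
  · rintro x - ⟨a, ha, b, hb, rfl⟩
    refine ⟨b⁻¹ * a⁻¹ * b⁻¹⁻¹, h _ (B.inv_mem hb) _ (A.inv_mem ha), b⁻¹, B.inv_mem hb, ?_⟩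
    group

theorem conj_join {E : Type} [Group E] (H P R₀ : Subgroup E) [H.FiniteIndex] [P.Normal]
    (hP : P ≤ H) (hR : R₀ ≤ P) (hRH : ∀ h ∈ H, ∀ x ∈ R₀, h * x * h⁻¹ ∈ R₀) {W : Set E}
    (hW : ∀ x ∈ W, ∀ e : E, e * x * e⁻¹ ∈ W) {m : ℕ} (hm : ∀ x ∈ R₀, Len W m x) :
    ∃ m', ∀ x ∈ Subgroup.normalClosure (R₀ : Set E), Len W m' x := by
  classical
  have hfin : Finite (E ⧸ H) := Subgroup.finite_quotient_of_finiteIndex
  let _ : Fintype (E ⧸ H) := Fintype.ofFinite _
  let A : E ⧸ H → Subgroup E := fun c => R₀.comap (MulAut.conj (Quotient.out c)⁻¹).toMonoidHom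
  have hA : ∀ c x, x ∈ A c ↔ (Quotient.out c)⁻¹ * x * (Quotient.out c) ∈ R₀ := by
    intro c x
    change (Quotient.out c)⁻¹ * x * (Quotient.out c)⁻¹⁻¹ ∈ R₀ ↔ _
    rw [inv_inv]
  have hAP : ∀ c, A c ≤ P := by
    intro c x hx
    have h1 := hR ((hA c x).1 hx)
    have h2 := Subgroup.Normal.conj_mem (inferInstance : P.Normal) _ h1 (Quotient.out c)
    have h3 : Quotient.out c * ((Quotient.out c)⁻¹ * x * Quotient.out c) * (Quotient.out c)⁻¹ = x := by
      group
    rwa [h3] at h2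
  have hPA : ∀ c, ∀ b ∈ P, ∀ a ∈ A c, b * a * b⁻¹ ∈ A c := by
    intro c b hb a ha
    rw [hA] at ha ⊢
    have h1 := Subgroup.Normal.conj_mem (inferInstance : P.Normal) b hb (Quotient.out c)⁻¹
    rw [inv_inv] at h1
    have h2 := hRH _ (hP h1) _ ha
    have h3 : (Quotient.out c)⁻¹ * b * Quotient.out c * ((Quotient.out c)⁻¹ * a * Quotient.out c) *
        ((Quotient.out c)⁻¹ * b * Quotient.out c)⁻¹ =
        (Quotient.out c)⁻¹ * (b * a * b⁻¹) * Quotient.out c := by group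
    rwa [h3] at h2
  have hconj : ∀ (g : E) (c : E ⧸ H), ∀ a ∈ A c,
      g * a * g⁻¹ ∈ A (QuotientGroup.mk (g * Quotient.out c)) := by
    intro g c a ha
    rw [hA] at ha ⊢
    have h1 : (Quotient.out (QuotientGroup.mk (g * Quotient.out c) : E ⧸ H))⁻¹ *
        (g * Quotient.out c) ∈ H := by
      rw [← QuotientGroup.eq]
      exact QuotientGroup.out_eq' _
    have h2 := hRH _ h1 _ ha
    have h3 : (Quotient.out (QuotientGroup.mk (g * Quotient.out c) : E ⧸ H))⁻¹ *
        (g * Quotient.out c) * ((Quotient.out c)⁻¹ * a * Quotient.out c) *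
        ((Quotient.out (QuotientGroup.mk (g * Quotient.out c) : E ⧸ H))⁻¹ *
          (g * Quotient.out c))⁻¹ =
        (Quotient.out (QuotientGroup.mk (g * Quotient.out c) : E ⧸ H))⁻¹ * (g * a * g⁻¹) *
          Quotient.out (QuotientGroup.mk (g * Quotient.out c) : E ⧸ H) := by group
    rwa [h3] at h2
  have hlenA : ∀ c, ∀ x ∈ A c, Len W m x := by
    intro c x hx
    have h1 := Len.conj hW (hm _ ((hA c x).1 hx)) (Quotient.out c)
    have h3 : Quotient.out c * ((Quotient.out c)⁻¹ * x * Quotient.out c) * (Quotient.out c)⁻¹ = x := by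
      group
    rwa [h3] at h1
  have hlen : ∀ s : Finset (E ⧸ H), ∀ x ∈ s.sup A, Len W (s.card * m) x := by
    intro s
    induction s using Finset.induction_on with
    | empty =>
      intro x hx
      rw [Finset.sup_empty, Subgroup.mem_bot] at hx
      rw [hx]
      exact (Len.one 0).mono (Nat.zero_le _)
    | insert c s hc ih =>
      intro x hx
      rw [Finset.sup_insert] at hx
      have hsP : s.sup A ≤ P := Finset.sup_le (fun c _ => hAP c)
      obtain ⟨a, ha, b, hb, rfl⟩ := join_sup (A c) (s.sup A)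
        (fun b hb a ha => hPA c b (hsP hb) a ha) hx
      rw [Finset.card_insert_of_notMem hc]
      refine ((hlenA c a ha).mul (ih b hb)).mono ?_
      rw [Nat.add_mul, Nat.one_mul, add_comm]
  have hnorm : (⨆ c, A c).Normal := by
    refine ⟨fun x hx g => ?_⟩
    refine Subgroup.iSup_induction A (C := fun x => g * x * g⁻¹ ∈ ⨆ c, A c) hx ?_ ?_ ?_
    · intro c x hx
      exact (le_iSup A _) (hconj g c x hx)
    · have h1 : g * 1 * g⁻¹ = 1 := by group
      rw [h1]
      exact Subgroup.one_mem _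
    · intro x y hx hy
      have h1 : g * (x * y) * g⁻¹ = (g * x * g⁻¹) * (g * y * g⁻¹) := by group
      rw [h1]
      exact Subgroup.mul_mem _ hx hy
  have hle : Subgroup.normalClosure (R₀ : Set E) ≤ ⨆ c, A c := by
    refine Subgroup.normalClosure_le_normal ?_
    intro y hy
    refine (le_iSup A (QuotientGroup.mk 1)) ?_
    rw [hA]
    have h1 : (Quotient.out (QuotientGroup.mk 1 : E ⧸ H))⁻¹ * 1 ∈ H := by
      rw [← QuotientGroup.eq]
      exact QuotientGroup.out_eq' _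
    rw [mul_one] at h1
    have h2 := hRH _ h1 y hy
    rwa [inv_inv] at h2
  refine ⟨(Finset.univ : Finset (E ⧸ H)).card * m, fun x hx => hlen Finset.univ x ?_⟩
  rw [Finset.sup_univ_eq_iSup]
  exact hle hx

end Pool.Agent.VY
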