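import Mathlib

set_option autoImplicit false

/-! Job VY-Eta. An endomorphism of a virtually abelian group.

Let `s : Q ⧸ A → Q` be a section (`Quotient.out`), `N = A.index`. For `q ∈ Q` put
`ν q = ∏_{y ∈ Q ⧸ A} q * s y * (s (q • y))⁻¹`, a product of elements of the commutative group `A`
(`q * s y` and `s (q • y)` are in the same coset, `A` is normal; define the factors as elements of `↥A`, which is a
commutative group by `hA`, and use `∏`). Then `ν (q q') = (q * ν q' * q⁻¹) * ν q`: each factor is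
`q * (q' s y (s (q' y))⁻¹) * q⁻¹ * (q s (q' y) (s (q q' y))⁻¹)`; reindex `y ↦ q' y` in the second product. So
`η q = ν q * q` is a homomorphism: `ν(q q') q q' = ν q * (q * ν q' * q⁻¹) * q q' = (ν q * q) * (ν q' * q')`. For `a ∈ A`: `a • y = y`
(`A` normal), so `ν a = a ^ N`. -/

namespace Pool.Agent.VY

private theorem smul_eq {Q : Type} [Group Q] (A : Subgroup Q) [A.Normal] (q : Q) (y : Q ⧸ A) :
    q • y = (q : Q ⧸ A) * y := by
  induction y using QuotientGroup.induction_on with
  | H z => rfl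

private theorem fac_mem {Q : Type} [Group Q] (A : Subgroup Q) [A.Normal] (q : Q) (y : Q ⧸ A) :
    q * Quotient.out y * (Quotient.out (q • y))⁻¹ ∈ A := by
  rw [← QuotientGroup.eq_one_iff]
  have h1 : ∀ z : Q ⧸ A, ((Quotient.out z : Q) : Q ⧸ A) = z := fun z => Quotient.out_eq z
  rw [QuotientGroup.mk_mul, QuotientGroup.mk_mul, QuotientGroup.mk_inv, h1, h1, smul_eq]
  exact mul_inv_cancel _

theorem exists_eta {Q : Type} [Group Q] (A : Subgroup Q) [A.Normal] [A.FiniteIndex]
    (hA : ∀ a ∈ A, ∀ b ∈ A, a * b = b * a) :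
    ∃ η : Q →* Q, (∀ q, η q * q⁻¹ ∈ A) ∧ ∀ a ∈ A, η a = a ^ (A.index + 1) := by
  classical
  letI : CommGroup A :=
    { (inferInstance : Group A) with
      mul_comm := fun a b => Subtype.ext (hA a a.2 b b.2) }
  have : Finite (Q ⧸ A) := Subgroup.finite_quotient_of_finiteIndex
  letI : Fintype (Q ⧸ A) := Fintype.ofFinite _
  let φ : Q → Q ⧸ A → A := fun q y => ⟨q * Quotient.out y * (Quotient.out (q • y))⁻¹, fac_mem A q y⟩
  let ν : Q → A := fun q => ∏ y, φ q y
  have hφ : ∀ q q' y, φ (q * q') y = MulAut.conjNormal q (φ q' y) * φ q (q' • y) := by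
    intro q q' y
    apply Subtype.ext
    rw [Subgroup.coe_mul, MulAut.conjNormal_apply]
    change q * q' * Quotient.out y * (Quotient.out ((q * q') • y))⁻¹ =
      q * (q' * Quotient.out y * (Quotient.out (q' • y))⁻¹) * q⁻¹ *
        (q * Quotient.out (q' • y) * (Quotient.out (q • q' • y))⁻¹)
    rw [mul_smul]
    group
  have hν : ∀ q q', ν (q * q') = MulAut.conjNormal q (ν q') * ν q := by
    intro q q'
    change ∏ y, φ (q * q') y = _
    rw [Finset.prod_congr rfl (fun y _ => hφ q q' y), Finset.prod_mul_distrib, ← map_prod]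
    congr 1
    exact Fintype.prod_equiv (MulAction.toPerm q') _ _ (fun y => rfl)
  have hν1 : ∀ a ∈ A, (ν a : Q) = a ^ A.index := by
    intro a ha
    have h1 : ∀ y : Q ⧸ A, φ a y = ⟨a, ha⟩ := by
      intro y
      apply Subtype.ext
      change a * Quotient.out y * (Quotient.out (a • y))⁻¹ = a
      have h2 : a • y = y := by
        rw [smul_eq, (QuotientGroup.eq_one_iff a).2 ha, one_mul]
      rw [h2, mul_inv_cancel_right]
    change ((∏ y, φ a y : A) : Q) = _
    rw [Finset.prod_congr rfl (fun y _ => h1 y), Finset.prod_const, Subgroup.coe_pow]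
    rw [Finset.card_univ, Subgroup.index_eq_card, Nat.card_eq_fintype_card]
  refine ⟨MonoidHom.mk' (fun q => (ν q : Q) * q) ?_, ?_, ?_⟩
  · intro q q'
    change (ν (q * q') : Q) * (q * q') = (ν q : Q) * q * ((ν q' : Q) * q')
    rw [hν, Subgroup.coe_mul, hA _ (MulAut.conjNormal q (ν q')).2 _ (ν q).2,
      MulAut.conjNormal_apply]
    group
  · intro q
    change (ν q : Q) * q * q⁻¹ ∈ A
    rw [mul_inv_cancel_right]
    exact (ν q).2
  · intro a ha
    change (ν a : Q) * a = _
    rw [hν1 a ha, pow_succ]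

end Pool.Agent.VY
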