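import Mathlib

set_option autoImplicit false

/-! Job VY-Fox. Word maps on cosets of an abelian normal subgroup.

For a tuple `g` fixed and `a` with all `a i ∈ A` put `Φ a w = FreeGroup.lift (fun i => a i * g i) w`,
`δ a w = Φ a w * (Φ 1 w)⁻¹`. `Φ a w` and `Φ 1 w = lift g w` are congruent modulo `A`
(`FreeGroup.induction_on`). `δ a (w w') = Φ a w * δ a w' * (Φ a w)⁻¹ * δ a w`, and
`Φ a w * x * (Φ a w)⁻¹ = lift g w * x * (lift g w)⁻¹` for `x ∈ A` (`A` abelian). So `δ (a b) (w w') = δ a (w w') * δ b (w w')` follows from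
the formulas for `w` and `w'`. For generators: `δ a (of i) = a i`, for inverses
`δ a (w⁻¹) = (lift g w)⁻¹ * (δ a w)⁻¹ * lift g w` (same argument). -/

namespace Pool.Agent.VY

theorem fox_mem {Q : Type} [Group Q] (A : Subgroup Q) [A.Normal] (w : FreeGroup ℕ) (g a : ℕ → Q)
    (ha : ∀ i, a i ∈ A) :
    FreeGroup.lift (fun i => a i * g i) w * (FreeGroup.lift g w)⁻¹ ∈ A := by
  have h1 : ∀ v : FreeGroup ℕ, QuotientGroup.mk' A (FreeGroup.lift (fun i => a i * g i) v) =
      QuotientGroup.mk' A (FreeGroup.lift g v) := by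
    intro v
    have h2 : (QuotientGroup.mk' A).comp (FreeGroup.lift (fun i => a i * g i)) =
        (QuotientGroup.mk' A).comp (FreeGroup.lift g) := by
      ext i
      simp only [MonoidHom.comp_apply, FreeGroup.lift_apply_of, map_mul]
      have h3 : QuotientGroup.mk' A (a i) = 1 := by
        rw [QuotientGroup.mk'_apply, QuotientGroup.eq_one_iff]
        exact ha i
      rw [h3, one_mul]
    exact DFunLike.congr_fun h2 v
  rw [← QuotientGroup.ker_mk' A, MonoidHom.mem_ker, map_mul, map_inv, h1 w, mul_inv_cancel]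

theorem fox_mul {Q : Type} [Group Q] (A : Subgroup Q) [A.Normal]
    (hA : ∀ a ∈ A, ∀ b ∈ A, a * b = b * a) (w : FreeGroup ℕ) (g a b : ℕ → Q)
    (ha : ∀ i, a i ∈ A) (hb : ∀ i, b i ∈ A) :
    FreeGroup.lift (fun i => a i * b i * g i) w * (FreeGroup.lift g w)⁻¹ =
      (FreeGroup.lift (fun i => a i * g i) w * (FreeGroup.lift g w)⁻¹) *
        (FreeGroup.lift (fun i => b i * g i) w * (FreeGroup.lift g w)⁻¹) := by
  have hm : ∀ (c : ℕ → Q) (v v' : FreeGroup ℕ),
      FreeGroup.lift (fun i => c i * g i) (v * v') * (FreeGroup.lift g (v * v'))⁻¹ =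
      (FreeGroup.lift (fun i => c i * g i) v * (FreeGroup.lift g v)⁻¹) *
        (FreeGroup.lift g v *
          (FreeGroup.lift (fun i => c i * g i) v' * (FreeGroup.lift g v')⁻¹) *
          (FreeGroup.lift g v)⁻¹) := by
    intro c v v'
    rw [map_mul, map_mul]
    group
  induction w using FreeGroup.induction_on with
  | C1 => simp
  | of i => simp
  | inv_of i _ =>
    simp only [map_inv, FreeGroup.lift_apply_of]
    have h := hA _ (ha i) _ (hb i)
    rw [h]
    group
  | mul v v' hv hv' =>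
    rw [hm (fun i => a i * b i) v v', hm a v v', hm b v v', hv, hv']
    have m1 := fox_mem A v g b hb
    have m2 : FreeGroup.lift g v *
          (FreeGroup.lift (fun i => a i * g i) v' * (FreeGroup.lift g v')⁻¹) *
          (FreeGroup.lift g v)⁻¹ ∈ A :=
      Subgroup.Normal.conj_mem inferInstance _ (fox_mem A v' g a ha) _
    have h := hA _ m1 _ m2
    generalize FreeGroup.lift (fun i => b i * g i) v * (FreeGroup.lift g v)⁻¹ = B at *
    generalize FreeGroup.lift (fun i => a i * g i) v * (FreeGroup.lift g v)⁻¹ = X at *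
    generalize FreeGroup.lift (fun i => a i * g i) v' * (FreeGroup.lift g v')⁻¹ = X' at *
    generalize FreeGroup.lift (fun i => b i * g i) v' * (FreeGroup.lift g v')⁻¹ = B' at *
    generalize FreeGroup.lift g v = G at *
    calc X * B * (G * (X' * B') * G⁻¹) = X * (B * (G * X' * G⁻¹)) * (G * B' * G⁻¹) := by group
      _ = X * ((G * X' * G⁻¹) * B) * (G * B' * G⁻¹) := by rw [h]
      _ = _ := by group

end Pool.Agent.VY
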