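import Pool.Agent.VY.Noe
import Pool.Agent.VY.Eta
import Pool.Agent.VY.Fox
import Pool.Agent.VW.Bounded

set_option autoImplicit false

/-! Job VY-VA. Finitely generated virtually abelian groups are verbally elliptic.

`W` = set of all values of words `w ∈ V` and of their inverses: symmetric, invariant. For `w ∈ V` and a
tuple `g` let `B (w,g) ≤ A` be the subgroup of all `lift (a g) w * (lift g w)⁻¹`, `a ∈ A^ℕ` (`fox_mem`, `fox_mul`; the inverse of the element
for `a` is the element for `a⁻¹`). Each of its elements is a product of two elements of `W`. Let `M₁ = ⨆ B (w,g)`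
(over `w ∈ V` and all `g`). `A` is finitely generated (finite index in a finitely generated group: instance), so by
`finite_join` (in the commutative group `↥A`) there is `n` such that all elements of `M₁` are products of `2 n` elements
of `W`. `M₁` is normal in `Q` (`q B(w,g) q⁻¹ = B(w, q g q⁻¹)`). `η` from `exists_eta`, `N = A.index`: for `w ∈ V`,
`η (lift g w) * (lift g w)⁻¹ = lift (η ∘ g) w * (lift g w)⁻¹ ∈ B (w,g)` with `a i = η (g i) * (g i)⁻¹`. The set
`{q | η q * q⁻¹ ∈ M₁}` is a subgroup (`M₁` normal), so it contains the verbal subgroup `VQ`; for `u ∈ VQ ∩ A`: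
`u ^ N = η u * u⁻¹ ∈ M₁`. So `(VQ ∩ A) / M₁` is a finitely generated abelian group of finite exponent, hence finite: `M₁` has
finite index in `VQ ∩ A`, and in `VQ`. (Or: by noetherianity `VQ ∩ A` is generated by `u_1,…,u_t`, every element is
`∏ u_i ^ e_i`, and modulo `M₁` one can take `0 ≤ e_i < N`.) As in `len_of_finiteIndex` (`Pool/Agent/VW/Bounded.lean`): finitely many
coset representatives in `VQ` of `M₁`. -/

namespace Pool.Agent.VY

open Pool.Agent.VW

/-- a bound for a finite product -/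
private theorem len_prod {Q : Type} [Group Q] {A' : Type} [CommGroup A'] (φ : A' →* Q) (W : Set Q) (c : ℕ) :
    ∀ (n : ℕ) (y : Fin n → A'), (∀ k, Len W c (φ (y k))) → Len W (n * c) (φ (∏ k, y k)) := by
  intro n
  induction n with
  | zero =>
    intro y _
    rw [Fin.prod_univ_zero, map_one]
    exact Len.one _
  | succ n ih =>
    intro y hy
    rw [Fin.prod_univ_succ, map_mul]
    have h := (hy 0).mul (ih (fun k => y k.succ) fun k => hy k.succ)
    refine h.mono ?_
    rw [Nat.succ_mul, Nat.add_comm]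

private theorem join_len {Q : Type} [Group Q] {A' : Type} [CommGroup A'] [Group.FG A'] (φ : A' →* Q) {I : Type}
    (P : I → Subgroup A') (W : Set Q) (c : ℕ) (h : ∀ i, ∀ x ∈ P i, Len W c (φ x)) :
    ∃ m : ℕ, ∀ x ∈ ⨆ i, P i, Len W m (φ x) := by
  obtain ⟨n, j, hj⟩ := finite_join P
  refine ⟨n * c, fun x hx => ?_⟩
  obtain ⟨y, hy, rfl⟩ := hj x hx
  exact len_prod φ W c n y fun k => h (j k) (y k) (hy k)

private theorem len_pow {Q : Type} [Group Q] {W : Set Q} {c : ℕ} {x : Q} (h : Len W c x) (r : ℕ) :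
    Len W (r * c) (x ^ r) := by
  induction r with
  | zero =>
    rw [pow_zero]
    exact Len.one _
  | succ r ih =>
    rw [pow_succ]
    refine (ih.mul h).mono ?_
    rw [Nat.succ_mul]

/-- a subgroup of bounded torsion modulo `M` -/
private theorem torsion_len {Q : Type} [Group Q] {A' : Type} [CommGroup A'] [Group.FG A'] (φ : A' →* Q)
    {W : Set Q} (hs : ∀ x ∈ W, x⁻¹ ∈ W) (N m : ℕ) (hN : 0 < N) (U M : Subgroup A')
    (hU : ∀ x ∈ U, φ x ∈ Subgroup.closure W) (hM : ∀ x ∈ M, Len W m (φ x))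
    (hp : ∀ x ∈ U, x ^ N ∈ M) : ∃ m' : ℕ, ∀ x ∈ U, Len W m' (φ x) := by
  obtain ⟨n, j, hj⟩ := finite_join (fun u : U => Subgroup.zpowers (u : A'))
  obtain ⟨c, hc⟩ := uniform_len hs (fun k : Fin n => φ ((j k : U) : A')) fun k => hU _ (j k).2
  refine ⟨n * (m + N * c), fun x hx => ?_⟩
  have hx' : x ∈ ⨆ u : U, Subgroup.zpowers (u : A') :=
    Subgroup.mem_iSup_of_mem (⟨x, hx⟩ : U) (Subgroup.mem_zpowers x)
  obtain ⟨y, hy, rfl⟩ := hj x hx'
  refine len_prod φ W _ n y fun k => ?_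
  obtain ⟨e, he⟩ := Subgroup.mem_zpowers_iff.1 (hy k)
  set u : A' := ((j k : U) : A') with hu
  have h1 : y k = (u ^ N) ^ (e / (N : ℤ)) * u ^ ((e % (N : ℤ)).toNat) := by
    rw [← he]
    have h2 : (u : A') ^ ((e % (N : ℤ)).toNat) = u ^ (e % (N : ℤ)) := by
      rw [← zpow_natCast, Int.toNat_of_nonneg (Int.emod_nonneg _ (by omega))]
    rw [h2, ← zpow_natCast u N, ← zpow_mul, ← zpow_add, Int.mul_ediv_add_emod]
  rw [h1, map_mul]
  refine (hM _ (M.zpow_mem (hp u (j k).2) _)).mul ?_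
  rw [map_pow]
  refine (len_pow (hc k) _).mono (Nat.mul_le_mul_right c ?_)
  have h3 : e % (N : ℤ) < N := Int.emod_lt_of_pos _ (by exact_mod_cast hN)
  omega

/-- passing from the intersection with a finite-index subgroup to the whole -/
private theorem len_up {G : Type} [Group G] {W : Set G} (hs : ∀ x ∈ W, x⁻¹ ∈ W)
    (H' : Subgroup G) [H'.FiniteIndex] (m' : ℕ)
    (hm' : ∀ g ∈ H', g ∈ Subgroup.closure W → Len W m' g) :
    ∃ m : ℕ, ∀ g ∈ Subgroup.closure W, Len W m g := by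
  classical
  have hfin : Finite (G ⧸ H') := Subgroup.finite_quotient_of_finiteIndex
  let f : G ⧸ H' → G := fun c =>
    if h : ∃ g ∈ Subgroup.closure W, (g : G ⧸ H') = c then h.choose else 1
  have hf : ∀ c, f c ∈ Subgroup.closure W := by
    intro c
    by_cases h : ∃ g ∈ Subgroup.closure W, (g : G ⧸ H') = c
    · simp only [f, dif_pos h]
      exact h.choose_spec.1
    · simp only [f, dif_neg h]
      exact (Subgroup.closure W).one_mem
  obtain ⟨m, hm⟩ := uniform_len hs f hf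
  refine ⟨m + m', fun g hg => ?_⟩
  have h : ∃ g' ∈ Subgroup.closure W, (g' : G ⧸ H') = (g : G ⧸ H') := ⟨g, hg, rfl⟩
  have h1 : ((f g : G) : G ⧸ H') = (g : G ⧸ H') := by
    simp only [f, dif_pos h]
    exact h.choose_spec.2
  have h2 : (f g)⁻¹ * g ∈ H' := QuotientGroup.eq.1 h1
  have h3 := (hm g).mul (hm' _ h2 (Subgroup.mul_mem _ (Subgroup.inv_mem _ (hf _)) hg))
  rwa [show f g * ((f g)⁻¹ * g) = g by group] at h3

/-- the group of all `lift (a g) w * (lift g w)⁻¹`, `a` with values in `A`, as a subgroup of `A` -/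
private def BB {Q : Type} [Group Q] (A : Subgroup Q) [A.Normal] (hA : ∀ a ∈ A, ∀ b ∈ A, a * b = b * a)
    (w : FreeGroup ℕ) (g : ℕ → Q) : Subgroup A where
  carrier := {x | ∃ a : ℕ → Q, (∀ i, a i ∈ A) ∧
    (x : Q) = FreeGroup.lift (fun i => a i * g i) w * (FreeGroup.lift g w)⁻¹}
  one_mem' := ⟨fun _ => 1, fun _ => A.one_mem, by simp⟩
  mul_mem' := by
    rintro x y ⟨a, ha, hx⟩ ⟨b, hb, hy⟩
    refine ⟨fun i => a i * b i, fun i => A.mul_mem (ha i) (hb i), ?_⟩
    rw [Subgroup.coe_mul, hx, hy, fox_mul A hA w g a b ha hb]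
  inv_mem' := by
    rintro x ⟨a, ha, hx⟩
    refine ⟨fun i => (a i)⁻¹, fun i => A.inv_mem (ha i), ?_⟩
    have h := fox_mul A hA w g a (fun i => (a i)⁻¹) ha fun i => A.inv_mem (ha i)
    rw [← hx] at h
    have h1 : FreeGroup.lift (fun i => a i * (a i)⁻¹ * g i) w = FreeGroup.lift g w := by
      congr 2
      funext i
      rw [mul_inv_cancel, one_mul]
    rw [h1, mul_inv_cancel] at h
    rw [Subgroup.coe_inv]
    exact inv_eq_of_mul_eq_one_right h.symm

private theorem lift_conj {G : Type} [Group G] (f : ℕ → G) (w : FreeGroup ℕ) (g : G) :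
    FreeGroup.lift (fun i => g * f i * g⁻¹) w = g * FreeGroup.lift f w * g⁻¹ := by
  have : FreeGroup.lift (fun i => g * f i * g⁻¹)
      = (MulAut.conj g).toMonoidHom.comp (FreeGroup.lift f) := by
    ext i; simp
  rw [this]; simp

theorem va_elliptic {Q : Type} [Group Q] [Group.FG Q] (A : Subgroup Q) [A.Normal] [A.FiniteIndex]
    (hA : ∀ a ∈ A, ∀ b ∈ A, a * b = b * a) : VerballyElliptic Q := by
  classical
  intro V
  let W : Set Q := {x | (∃ w ∈ V, ∃ f : ℕ → Q, FreeGroup.lift f w = x) ∨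
    (∃ w ∈ V, ∃ f : ℕ → Q, FreeGroup.lift f w = x⁻¹)}
  have hs : ∀ x ∈ W, x⁻¹ ∈ W := by
    rintro x (h | h)
    · right; simpa using h
    · left; exact h
  have hval : ∀ w ∈ V, ∀ f : ℕ → Q, FreeGroup.lift f w ∈ W := fun w hw f => Or.inl ⟨w, hw, f, rfl⟩
  suffices h : ∃ m : ℕ, ∀ g ∈ Subgroup.closure W, Len W m g by
    obtain ⟨m, hm⟩ := h
    refine ⟨m, fun g hg => ?_⟩
    exact hm g (Subgroup.closure_mono (fun x hx => Or.inl hx) hg)
  obtain ⟨η, hη1, hη2⟩ := exists_eta A hA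
  -- the normal subgroup `M`
  let S₀ : Set Q := {x | ∃ w ∈ V, ∃ g a : ℕ → Q, (∀ i, a i ∈ A) ∧
    x = FreeGroup.lift (fun i => a i * g i) w * (FreeGroup.lift g w)⁻¹}
  have hS₀c : ∀ x ∈ S₀, ∀ g : Q, g * x * g⁻¹ ∈ S₀ := by
    rintro x ⟨w, hw, g, a, ha, rfl⟩ q
    refine ⟨w, hw, fun i => q * g i * q⁻¹, fun i => q * a i * q⁻¹,
      fun i => (inferInstance : A.Normal).conj_mem _ (ha i) q, ?_⟩
    have h1 : (fun i => q * a i * q⁻¹ * (q * g i * q⁻¹)) = fun i => q * (a i * g i) * q⁻¹ := by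
      funext i
      group
    rw [h1, lift_conj, lift_conj]
    group
  have hMn : (Subgroup.closure S₀).Normal := closure_normal hS₀c
  have hS₀A : ∀ x ∈ S₀, x ∈ A := by
    rintro x ⟨w, hw, g, a, ha, rfl⟩
    exact fox_mem A w g a ha
  have hMA : Subgroup.closure S₀ ≤ A := by
    rw [Subgroup.closure_le]
    exact hS₀A
  -- the endomorphism
  have hη : ∀ x ∈ Subgroup.closure W, η x * x⁻¹ ∈ Subgroup.closure S₀ := by
    have h1 : Set.EqOn ((QuotientGroup.mk' (Subgroup.closure S₀)).comp η)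
        (QuotientGroup.mk' (Subgroup.closure S₀)) W := by
      have h2 : ∀ w ∈ V, ∀ f : ℕ → Q, (QuotientGroup.mk' (Subgroup.closure S₀)) (η (FreeGroup.lift f w)) =
          (QuotientGroup.mk' (Subgroup.closure S₀)) (FreeGroup.lift f w) := by
        intro w hw f
        have h3 : η (FreeGroup.lift f w) * (FreeGroup.lift f w)⁻¹ ∈ Subgroup.closure S₀ := by
          refine Subgroup.subset_closure ⟨w, hw, f, fun i => η (f i) * (f i)⁻¹, fun i => hη1 (f i), ?_⟩
          have h4 : (fun i => η (f i) * (f i)⁻¹ * f i) = fun i => η (f i) := by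
            funext i
            rw [inv_mul_cancel_right]
          rw [h4]
          have h5 : FreeGroup.lift (fun i => η (f i)) = η.comp (FreeGroup.lift f) := by
            ext i; simp
          rw [h5]
          rfl
        have h6 := (QuotientGroup.eq_one_iff (N := Subgroup.closure S₀) _).2 h3
        rw [QuotientGroup.mk_mul, QuotientGroup.mk_inv, mul_inv_eq_one] at h6
        exact h6
      rintro x (⟨w, hw, f, rfl⟩ | ⟨w, hw, f, hf⟩)
      · exact h2 w hw f
      · have h7 := h2 w hw f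
        rw [hf, map_inv, map_inv, map_inv, inv_inj] at h7
        exact h7
    intro x hx
    have h8 := MonoidHom.eqOn_closure h1 hx
    have h9 : ((η x : Q) : Q ⧸ Subgroup.closure S₀) = (x : Q ⧸ Subgroup.closure S₀) := h8
    rw [← QuotientGroup.eq_one_iff (N := Subgroup.closure S₀), QuotientGroup.mk_mul, QuotientGroup.mk_inv, h9,
      mul_inv_cancel]
  -- the commutative group `A`
  have hFG : Group.FG A := Subgroup.fg_of_index_ne_zero A
  letI : CommGroup A := { (inferInstance : Group A) with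
    mul_comm := fun a b => Subtype.ext (hA a a.2 b b.2) }
  let I : Type := {w : FreeGroup ℕ // w ∈ V} × (ℕ → Q)
  let P : I → Subgroup A := fun i => BB A hA i.1.1 i.2
  have hP : ∀ i : I, ∀ x ∈ P i, Len W 2 (A.subtype x) := by
    rintro ⟨⟨w, hw⟩, g⟩ x ⟨a, ha, hx⟩
    have h1 : A.subtype x = FreeGroup.lift (fun i => a i * g i) w * (FreeGroup.lift g w)⁻¹ := hx
    rw [h1]
    exact (Len.of_mem (hval w hw _)).mul (Len.of_mem (hs _ (hval w hw _)))
  obtain ⟨m, hm⟩ := join_len (Q := Q) (A' := A) A.subtype P W 2 hP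
  let M : Subgroup A := ⨆ i, P i
  have hMS : ∀ x : Q, ∀ hx : x ∈ A, x ∈ Subgroup.closure S₀ → (⟨x, hx⟩ : A) ∈ M := by
    have h1 : Subgroup.closure S₀ ≤ M.map A.subtype := by
      rw [Subgroup.closure_le]
      rintro x ⟨w, hw, g, a, ha, rfl⟩
      refine ⟨⟨_, fox_mem A w g a ha⟩, ?_, rfl⟩
      exact Subgroup.mem_iSup_of_mem (⟨⟨w, hw⟩, g⟩ : I) ⟨a, ha, rfl⟩
    intro x hx hx'
    obtain ⟨y, hy, hyx⟩ := h1 hx'
    have : y = ⟨x, hx⟩ := Subtype.ext hyx
    rw [← this]
    exact hy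
  have hidx : 0 < A.index := Nat.pos_of_ne_zero Subgroup.FiniteIndex.index_ne_zero
  obtain ⟨m', hm'⟩ := torsion_len (Q := Q) (A' := A) A.subtype hs A.index m hidx
    ((Subgroup.closure W).comap A.subtype) M (fun x hx => hx) hm (by
      intro x hx
      have h1 : η (x : Q) * (x : Q)⁻¹ ∈ Subgroup.closure S₀ := hη x hx
      rw [hη2 x x.2, pow_succ, mul_inv_cancel_right] at h1
      have h2 := hMS ((x : Q) ^ A.index) (A.pow_mem x.2 _) h1
      have h3 : x ^ A.index = (⟨(x : Q) ^ A.index, A.pow_mem x.2 _⟩ : A) := Subtype.ext rfl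
      rw [h3]
      exact h2)
  exact len_up hs A m' fun g hg hgW => hm' ⟨g, hg⟩ hgW

end Pool.Agent.VY
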