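import Pool.Agent.VY.Val
import Pool.Agent.VY.Join
import Pool.Agent.VY.VA
import Pool.Agent.VW.Split

set_option autoImplicit false

/-! Job VY-Ovr. Verbal widths in finite-index overgroups.

`V` a set of words, `W = Val V E` (`Val.inv`, `Val.conj`, `elliptic_iff`), `P = H.normalCore` (finite index in `E`).
Case 1: every `w ∈ W` commutes with every element of `P`. Then `closure W` commutes with `P`, and `closure W ⊓ P` is trivial by
`h2` (elements of `P ≤ H` commuting with `P`). So `closure W` embeds in the finite group `E ⧸ P`; it is finite: `uniform_len`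
(index type `↥(closure W)`).
Case 2: `w ∈ W`, `p ∈ P`, `u = ⁅w, p⁆ ≠ 1`. `u = w * (p * w⁻¹ * p⁻¹) ∈ P` is a product of two elements of `W`. `W₁` = the set of all
`h u h⁻¹` and `h u⁻¹ h⁻¹`, `h ∈ H`. `h1` gives `A, R, m`; elements of `R` are `Len W (2 * m)` (`Len.trans`). Put
`R₀ = R ⊓ P`; `conj_join` gives `m'` for the normal closure `R'` of `R₀` in `E`. `A' = (A ⊓ P).normalCore` is normal of finite index in `E`,
`⁅A', A'⁆ ≤ R ⊓ P ≤ R'`, so the image of `A'` in `E ⧸ R'` is an abelian normal subgroup of finite index and `va_elliptic` gives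
`n` for `V` in `E ⧸ R'`. Values in `E ⧸ R'` lift to values in `E` (choose lifts of the tuple), so every element of `closure W` is
a product of `n` elements of `W` and an element of `R'`: width at most `n + m'`. -/

namespace Pool.Agent.VY

open Pool.Agent.VW
open scoped commutatorElement

private theorem val_lift {E F : Type} [Group E] [Group F] {V : Set (FreeGroup ℕ)} (φ : E →* F)
    (hφ : Function.Surjective φ) : ∀ y ∈ Val V F, ∃ x ∈ Val V E, φ x = y := by
  have key : ∀ (w : FreeGroup ℕ) (f : ℕ → F), ∃ f' : ℕ → E,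
      φ (FreeGroup.lift f' w) = FreeGroup.lift f w := by
    intro w f
    choose f' hf' using fun i => hφ (f i)
    refine ⟨f', ?_⟩
    have h : φ.comp (FreeGroup.lift f') = FreeGroup.lift f := by
      ext i
      simp [hf']
    rw [← h]
    rfl
  rintro y (⟨w, hw, f, rfl⟩ | ⟨w, hw, f, hf⟩)
  · obtain ⟨f', h⟩ := key w f
    exact ⟨_, Or.inl ⟨w, hw, f', rfl⟩, h⟩
  · obtain ⟨f', h⟩ := key w f
    refine ⟨(FreeGroup.lift f' w)⁻¹, Or.inr ⟨w, hw, f', by simp⟩, ?_⟩
    rw [map_inv, h, hf, inv_inv]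

private theorem val_map {E F : Type} [Group E] [Group F] {V : Set (FreeGroup ℕ)} (φ : E →* F) :
    ∀ x ∈ Val V E, φ x ∈ Val V F := by
  have key : ∀ (w : FreeGroup ℕ) (f : ℕ → E),
      FreeGroup.lift (fun i => φ (f i)) w = φ (FreeGroup.lift f w) := by
    intro w f
    have h : φ.comp (FreeGroup.lift f) = FreeGroup.lift (fun i => φ (f i)) := by
      ext i
      simp
    rw [← h]
    rfl
  rintro x (⟨w, hw, f, rfl⟩ | ⟨w, hw, f, hf⟩)
  · exact Or.inl ⟨w, hw, fun i => φ (f i), key w f⟩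
  · refine Or.inr ⟨w, hw, fun i => φ (f i), ?_⟩
    rw [key, hf, map_inv]

theorem over_elliptic {E : Type} [Group E] [Group.FG E] (H : Subgroup E) [H.FiniteIndex]
    (h1 : ∀ W : Set E, W ⊆ H → (∀ x ∈ W, x⁻¹ ∈ W) → (∀ x ∈ W, ∀ h ∈ H, h * x * h⁻¹ ∈ W) →
      (∃ w ∈ W, w ≠ 1) → ∃ (A R : Subgroup E) (m : ℕ), R ≤ H ∧ A.FiniteIndex ∧ ⁅A, A⁆ ≤ R ∧
        (∀ h ∈ H, ∀ x ∈ R, h * x * h⁻¹ ∈ R) ∧ ∀ x ∈ R, Len W m x)
    (h2 : ∀ P : Subgroup E, P ≤ H → P.FiniteIndex → ∀ z ∈ H, (∀ p ∈ P, z * p = p * z) → z = 1) :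
    VerballyElliptic E := by
  classical
  rw [elliptic_iff]
  intro V
  have hs : ∀ x ∈ Val V E, x⁻¹ ∈ Val V E := Val.inv
  have hc : ∀ x ∈ Val V E, ∀ g : E, g * x * g⁻¹ ∈ Val V E := Val.conj
  obtain ⟨P, hPn, hPf, hPH⟩ : ∃ P : Subgroup E, P.Normal ∧ P.FiniteIndex ∧ P ≤ H :=
    ⟨H.normalCore, inferInstance, inferInstance, H.normalCore_le⟩
  by_cases hcase : ∀ w ∈ Val V E, ∀ p ∈ P, w * p = p * w
  · have hcl : ∀ z ∈ Subgroup.closure (Val V E), ∀ p ∈ P, z * p = p * z := by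
      intro z hz p hp
      have h3 : Subgroup.closure (Val V E) ≤ Subgroup.centralizer (P : Set E) := by
        rw [Subgroup.closure_le]
        intro w hw
        rw [SetLike.mem_coe, Subgroup.mem_centralizer_iff]
        intro q hq
        exact (hcase w hw q hq).symm
      exact ((Subgroup.mem_centralizer_iff.1 (h3 hz)) p hp).symm
    have hfin : Finite (Subgroup.closure (Val V E)) := by
      have hfq : Finite (E ⧸ P) := Subgroup.finite_quotient_of_finiteIndex
      refine Finite.of_injective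
        (fun z : Subgroup.closure (Val V E) => ((z : E) : E ⧸ P)) ?_
      intro z z' h
      have h3 : (z : E)⁻¹ * z' ∈ P := QuotientGroup.eq.1 h
      have h4 : (z : E)⁻¹ * z' ∈ Subgroup.closure (Val V E) :=
        Subgroup.mul_mem _ (Subgroup.inv_mem _ z.2) z'.2
      have h5 := h2 P hPH hPf _ (hPH h3) (hcl _ h4)
      apply Subtype.ext
      exact inv_mul_eq_one.1 h5
    obtain ⟨m, hm⟩ := uniform_len hs (fun x : Subgroup.closure (Val V E) => (x : E))
      (fun x => x.2)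
    exact ⟨m, fun g hg => hm ⟨g, hg⟩⟩
  · push Not at hcase
    obtain ⟨w, hw, p, hp, hne⟩ := hcase
    obtain ⟨u, hu⟩ : ∃ u : E, u = w * (p * w⁻¹ * p⁻¹) := ⟨_, rfl⟩
    have hu1 : u ≠ 1 := by
      intro h
      apply hne
      have h' : w * (p * w⁻¹ * p⁻¹) = 1 := hu.symm.trans h
      calc w * p = (w * (p * w⁻¹ * p⁻¹)) * (p * w) := by group
        _ = p * w := by rw [h', one_mul]
    have huP : u ∈ P := by
      have h3 : u = (w * p * w⁻¹) * p⁻¹ := by rw [hu]; group
      rw [h3]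
      exact Subgroup.mul_mem _ (hPn.conj_mem p hp w) (Subgroup.inv_mem _ hp)
    have hul : Len (Val V E) 2 u := by
      rw [hu]
      exact (Len.of_mem hw).mul (Len.of_mem (hc _ (hs _ hw) p))
    have hW1 : ∃ W₁ : Set E, W₁ = {x | ∃ h ∈ H, x = h * u * h⁻¹ ∨ x = h * u⁻¹ * h⁻¹} := ⟨_, rfl⟩
    obtain ⟨W₁, hW₁⟩ := hW1
    have hmW : ∀ x, x ∈ W₁ ↔ ∃ h ∈ H, x = h * u * h⁻¹ ∨ x = h * u⁻¹ * h⁻¹ := by
      intro x; rw [hW₁]; rfl
    obtain ⟨A, R, m, hRH, hAf, hAR, hRc, hRm⟩ := h1 W₁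
      (by
        intro x hx
        obtain ⟨h, hh, rfl | rfl⟩ := (hmW x).1 hx
        · exact H.mul_mem (H.mul_mem hh (hPH huP)) (H.inv_mem hh)
        · exact H.mul_mem (H.mul_mem hh (H.inv_mem (hPH huP))) (H.inv_mem hh))
      (by
        intro x hx
        obtain ⟨h, hh, rfl | rfl⟩ := (hmW x).1 hx
        · exact (hmW _).2 ⟨h, hh, Or.inr (by group)⟩
        · exact (hmW _).2 ⟨h, hh, Or.inl (by group)⟩)
      (by
        intro x hx k hk
        obtain ⟨h, hh, rfl | rfl⟩ := (hmW x).1 hx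
        · exact (hmW _).2 ⟨k * h, H.mul_mem hk hh, Or.inl (by group)⟩
        · exact (hmW _).2 ⟨k * h, H.mul_mem hk hh, Or.inr (by group)⟩)
      ⟨u, (hmW u).2 ⟨1, H.one_mem, Or.inl (by group)⟩, hu1⟩
    have hR2 : ∀ x ∈ R, Len (Val V E) (m * 2) x := by
      intro x hx
      refine Len.trans (W' := W₁) ?_ (hRm x hx)
      intro y hy
      obtain ⟨h, hh, rfl | rfl⟩ := (hmW y).1 hy
      · exact hul.conj hc h
      · exact (hul.inv hs).conj hc h
    obtain ⟨m', hm'⟩ := conj_join H P (R ⊓ P) hPH inf_le_right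
      (by
        intro h hh x hx
        exact ⟨hRc h hh x hx.1, hPn.conj_mem x hx.2 h⟩) hc (fun x hx => hR2 x hx.1)
    obtain ⟨R', hR'⟩ : ∃ R' : Subgroup E,
        R' = Subgroup.normalClosure ((R ⊓ P : Subgroup E) : Set E) := ⟨_, rfl⟩
    rw [← hR'] at hm'
    have hR'n : R'.Normal := by rw [hR']; infer_instance
    have hR'le : R ⊓ P ≤ R' := by rw [hR']; exact Subgroup.subset_normalClosure
    have hAP : (A ⊓ P).FiniteIndex := inferInstance
    obtain ⟨A', hA'n, hA'f, hA'le⟩ : ∃ A' : Subgroup E, A'.Normal ∧ A'.FiniteIndex ∧ A' ≤ A ⊓ P :=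
      ⟨(A ⊓ P).normalCore, inferInstance, inferInstance, Subgroup.normalCore_le _⟩
    have hcomm : ∀ a ∈ A', ∀ b ∈ A', ⁅a, b⁆ ∈ R' := by
      intro a ha b hb
      apply hR'le
      refine ⟨hAR (Subgroup.commutator_mem_commutator (hA'le ha).1 (hA'le hb).1), ?_⟩
      have h3 : a * b * a⁻¹ * b⁻¹ ∈ P :=
        P.mul_mem (P.mul_mem (P.mul_mem (hA'le ha).2 (hA'le hb).2) (P.inv_mem (hA'le ha).2))
          (P.inv_mem (hA'le hb).2)
      exact h3
    have hfgQ : Group.FG (E ⧸ R') := inferInstance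
    have hBn : (A'.map (QuotientGroup.mk' R')).Normal :=
      Subgroup.Normal.map hA'n _ (QuotientGroup.mk'_surjective _)
    have hBf : (A'.map (QuotientGroup.mk' R')).FiniteIndex := by
      constructor
      intro h0
      have h3 := Subgroup.index_map_dvd A' (QuotientGroup.mk'_surjective R')
      rw [h0, zero_dvd_iff] at h3
      exact hA'f.index_ne_zero h3
    have hBa : ∀ a ∈ A'.map (QuotientGroup.mk' R'), ∀ b ∈ A'.map (QuotientGroup.mk' R'),
        a * b = b * a := by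
      rintro _ ⟨a, ha, rfl⟩ _ ⟨b, hb, rfl⟩
      rw [← map_mul, ← map_mul]
      refine QuotientGroup.eq.2 ?_
      have h3 := hcomm b⁻¹ (A'.inv_mem hb) a⁻¹ (A'.inv_mem ha)
      have h4 : (a * b)⁻¹ * (b * a) = ⁅b⁻¹, a⁻¹⁆ := by
        rw [commutatorElement_def]
        group
      rw [h4]
      exact h3
    obtain ⟨n, hn⟩ := (elliptic_iff _).1 (va_elliptic _ hBa) V
    refine ⟨n + m', fun g hg => ?_⟩
    have hg' : QuotientGroup.mk' R' g ∈ Subgroup.closure (Val V (E ⧸ R')) := by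
      have h3 : (Subgroup.closure (Val V E)).map (QuotientGroup.mk' R') ≤
          Subgroup.closure (Val V (E ⧸ R')) := by
        rw [MonoidHom.map_closure, Subgroup.closure_le]
        rintro _ ⟨x, hx, rfl⟩
        exact Subgroup.subset_closure (val_map _ x hx)
      exact h3 ⟨g, hg, rfl⟩
    obtain ⟨g', h3, h4⟩ := Len.lift_hom (QuotientGroup.mk' R')
      (val_lift _ (QuotientGroup.mk'_surjective _)) (hn _ hg')
    have h5 : g'⁻¹ * g ∈ R' := QuotientGroup.eq.1 h4
    have h6 := h3.mul (hm' _ h5)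
    rwa [show g' * (g'⁻¹ * g) = g by group] at h6

end Pool.Agent.VY
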