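import Mathlib

set_option autoImplicit false

/-! Job VY-Ovs. A normal subgroup of finite index is contained in finitely many subgroups. -/

namespace Pool.Agent.VY

theorem finite_over {F : Type} [Group F] (K : Subgroup F) [K.Normal] [K.FiniteIndex] :
    {S : Subgroup F | K ≤ S}.Finite := by
  have hfin : Finite (F ⧸ K) := Subgroup.finite_quotient_of_finiteIndex
  refine Set.Finite.of_injOn (f := fun S : Subgroup F => S.map (QuotientGroup.mk' K)) (t := Set.univ)
    (fun _ _ => Set.mem_univ _) ?_ Set.finite_univ
  intro S hS T hT h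
  have h1 : K ≤ S := hS
  have h2 : K ≤ T := hT
  have h3 : S.map (QuotientGroup.mk' K) = T.map (QuotientGroup.mk' K) := h
  have e1 := Subgroup.comap_map_eq (QuotientGroup.mk' K) S
  have e2 := Subgroup.comap_map_eq (QuotientGroup.mk' K) T
  rw [QuotientGroup.ker_mk', sup_eq_left.2 h1] at e1
  rw [QuotientGroup.ker_mk', sup_eq_left.2 h2] at e2
  rw [← e1, h3, e2]

end Pool.Agent.VY
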