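import Mathlib

set_option autoImplicit false

/-! Job VY-Schur. `[S,S] / [S,K]` is finite if `K ≤ S` has finite index.

In the group `S / [S,K]` (`⁅(⊤ : Subgroup S), K.subgroupOf S⁆` is normal in `S`; its image in `F` is `⁅S, K⁆`) the image of `K` is central of
finite index, so the centre has finite index, the set of commutators is finite (a commutator
depends only on the classes modulo the centre) and so the commutator subgroup is finite (Schur;
Mathlib, `GroupTheory/Schreier.lean`: instance `Finite (commutator G)` from `Finite (commutatorSet G)`). Choose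
representatives `t ∈ K` for the classes which meet `[S,S] ∩ K`. -/

namespace Pool.Agent.VY

open scoped commutatorElement

private theorem finite_commutatorSet_of_center {G : Type} [Group G]
    [(Subgroup.center G).FiniteIndex] : Finite (commutatorSet G) := by
  refine Set.Finite.subset (Set.finite_range
    (fun q : (G ⧸ Subgroup.center G) × (G ⧸ Subgroup.center G) => ⁅q.1.out, q.2.out⁆)) ?_
  rintro g ⟨a, b, rfl⟩
  refine ⟨((a : G ⧸ Subgroup.center G), (b : G ⧸ Subgroup.center G)), ?_⟩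
  obtain ⟨z, hz⟩ := QuotientGroup.mk_out_eq_mul (Subgroup.center G) a
  obtain ⟨w, hw⟩ := QuotientGroup.mk_out_eq_mul (Subgroup.center G) b
  have hzc := Subgroup.mem_center_iff.mp z.2
  have hwc := Subgroup.mem_center_iff.mp w.2
  simp only
  rw [hz, hw, commutatorElement_def, commutatorElement_def, mul_inv_rev, mul_inv_rev]
  have h1 : a * (z : G) * (b * (w : G)) = a * b * ((z : G) * (w : G)) := by
    calc a * (z : G) * (b * (w : G)) = a * ((z : G) * b) * (w : G) := by group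
      _ = a * (b * (z : G)) * (w : G) := by rw [hzc b]
      _ = _ := by group
  have h2 : (z : G) * (w : G) * ((z : G)⁻¹ * a⁻¹) * ((w : G)⁻¹ * b⁻¹) = a⁻¹ * b⁻¹ := by
    have e1 : (z : G) * (w : G) = (w : G) * (z : G) := (hzc (w : G)).symm
    have e2 : a⁻¹ * (w : G)⁻¹ = (w : G)⁻¹ * a⁻¹ := by
      have := hwc a
      calc a⁻¹ * (w : G)⁻¹ = ((w : G) * a)⁻¹ := by group
        _ = (a * (w : G))⁻¹ := by rw [this]
        _ = _ := by group
    calc (z : G) * (w : G) * ((z : G)⁻¹ * a⁻¹) * ((w : G)⁻¹ * b⁻¹)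
        = ((z : G) * (w : G)) * (z : G)⁻¹ * (a⁻¹ * (w : G)⁻¹) * b⁻¹ := by group
      _ = ((w : G) * (z : G)) * (z : G)⁻¹ * ((w : G)⁻¹ * a⁻¹) * b⁻¹ := by rw [e1, e2]
      _ = _ := by group
  calc a * (z : G) * (b * (w : G)) * ((z : G)⁻¹ * a⁻¹) * ((w : G)⁻¹ * b⁻¹)
      = a * b * ((z : G) * (w : G)) * ((z : G)⁻¹ * a⁻¹) * ((w : G)⁻¹ * b⁻¹) := by rw [h1]
    _ = a * b * ((z : G) * (w : G) * ((z : G)⁻¹ * a⁻¹) * ((w : G)⁻¹ * b⁻¹)) := by group
    _ = a * b * (a⁻¹ * b⁻¹) := by rw [h2]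
    _ = _ := by group

theorem schur_reps {F : Type} [Group F] (K : Subgroup F) [K.Normal] [K.FiniteIndex]
    (S : Subgroup F) (hS : K ≤ S) :
    ∃ R : Finset F, ∀ μ ∈ ⁅S, S⁆, μ ∈ K → ∃ t ∈ R, t ∈ K ∧ t⁻¹ * μ ∈ ⁅S, K⁆ := by
  classical
  obtain ⟨N, hN⟩ : ∃ N : Subgroup S, N = ⁅(⊤ : Subgroup S), K.subgroupOf S⁆ := ⟨_, rfl⟩
  have hNn : N.Normal := by rw [hN]; infer_instance
  have hmapN : N.map S.subtype = ⁅S, K⁆ := by
    rw [hN, Subgroup.map_commutator, ← MonoidHom.range_eq_map, Subgroup.range_subtype,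
      Subgroup.subgroupOf_map_subtype, inf_eq_left.mpr hS]
  have hmapT : (⁅(⊤ : Subgroup S), (⊤ : Subgroup S)⁆).map S.subtype = ⁅S, S⁆ := by
    rw [Subgroup.map_commutator, ← MonoidHom.range_eq_map, Subgroup.range_subtype]
  have hcen : (K.subgroupOf S).map (QuotientGroup.mk' N) ≤ Subgroup.center (S ⧸ N) := by
    rintro _ ⟨k, hk, rfl⟩
    rw [Subgroup.mem_center_iff]
    intro q
    obtain ⟨s, rfl⟩ := QuotientGroup.mk'_surjective N q
    rw [← map_mul, ← map_mul, QuotientGroup.mk'_apply, QuotientGroup.mk'_apply,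
      QuotientGroup.eq]
    have h1 : ⁅k⁻¹, s⁻¹⁆ ∈ N := by
      rw [hN, Subgroup.commutator_comm]
      exact Subgroup.commutator_mem_commutator (inv_mem hk) (Subgroup.mem_top _)
    have h2 : (s * k)⁻¹ * (k * s) = ⁅k⁻¹, s⁻¹⁆ := by
      rw [commutatorElement_def]
      group
    rw [h2]
    exact h1
  have hfi : (Subgroup.center (S ⧸ N)).FiniteIndex := by
    have h1 : ((K.subgroupOf S).map (QuotientGroup.mk' N)).index ∣ (K.subgroupOf S).index :=
      Subgroup.index_map_dvd _ (QuotientGroup.mk'_surjective N)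
    have h2 : (K.subgroupOf S).index ≠ 0 := Subgroup.FiniteIndex.index_ne_zero
    have h3 : ((K.subgroupOf S).map (QuotientGroup.mk' N)).FiniteIndex :=
      ⟨fun h => h2 (by rw [h] at h1; exact zero_dvd_iff.mp h1)⟩
    exact Subgroup.finiteIndex_of_le hcen
  have hfc : Finite (commutatorSet (S ⧸ N)) := finite_commutatorSet_of_center
  have hfin : Finite (commutator (S ⧸ N)) := inferInstance
  have hfinset : ((commutator (S ⧸ N) : Subgroup (S ⧸ N)) : Set (S ⧸ N)).Finite := hfin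
  let ch : (S ⧸ N) → F := fun q =>
    if h : ∃ t : S, (t : F) ∈ K ∧ QuotientGroup.mk' N t = q then ((Classical.choose h : S) : F)
    else 1
  refine ⟨hfinset.toFinset.image ch, ?_⟩
  intro μ hμ hμK
  have hμS : μ ∈ S := hS hμK
  rw [← hmapT] at hμ
  obtain ⟨m, hm, hmμ⟩ := hμ
  have hmμ' : (m : F) = μ := hmμ
  have hq : QuotientGroup.mk' N m ∈ commutator (S ⧸ N) := by
    have h1 : QuotientGroup.mk' N m ∈
        (⁅(⊤ : Subgroup S), (⊤ : Subgroup S)⁆).map (QuotientGroup.mk' N) :=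
      Subgroup.mem_map_of_mem _ hm
    rw [Subgroup.map_commutator] at h1
    exact Subgroup.commutator_mono le_top le_top h1
  have hex : ∃ t : S, (t : F) ∈ K ∧ QuotientGroup.mk' N t = QuotientGroup.mk' N m :=
    ⟨m, by rw [hmμ']; exact hμK, rfl⟩
  have hch : ch (QuotientGroup.mk' N m) = ((Classical.choose hex : S) : F) := by
    simp only [ch]
    rw [dif_pos hex]
  obtain ⟨ht1, ht2⟩ := Classical.choose_spec hex
  refine ⟨ch (QuotientGroup.mk' N m), ?_, ?_, ?_⟩
  · exact Finset.mem_image_of_mem _ (hfinset.mem_toFinset.mpr hq)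
  · rw [hch]
    exact ht1
  · rw [hch]
    have ht3 : (Classical.choose hex)⁻¹ * m ∈ N := QuotientGroup.eq.mp ht2
    have h3 : S.subtype ((Classical.choose hex)⁻¹ * m) ∈ N.map S.subtype :=
      Subgroup.mem_map_of_mem _ ht3
    rw [hmapN] at h3
    have h4 : S.subtype ((Classical.choose hex)⁻¹ * m) =
        ((Classical.choose hex : S) : F)⁻¹ * μ := by
      rw [map_mul, map_inv, ← hmμ']
      rfl
    rw [h4] at h3
    exact h3

end Pool.Agent.VY
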