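import Pool.Agent.VY.Lift
import Pool.Agent.VY.Schur
import Pool.Agent.VY.Over

set_option autoImplicit false

/-! Uniform decomposition of the elements of `[S,S] ∩ K`, for all `S ≥ K`. -/

namespace Pool.Agent.VY

open Pool.Agent.VW Pool.Agent.VX
open scoped commutatorElement

/-- elements of `[S,S] ∩ K` of length `m` are products of an element of the finite set `R`, an element of
`[K,K]` of length at most `C * (m + 1)`, and `C` commutators `[α, β]`, `α ∈ S`, `β ∈ K` -/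
def Glob {F : Type} [Group F] (K : Subgroup F) (T R : Set F) (C : ℕ) : Prop :=
  ∀ S : Subgroup F, K ≤ S → ∀ m, ∀ ν ∈ ⁅S, S⁆, ν ∈ K → Len T m ν → ∃ t ∈ R, t ∈ K ∧
    ∃ (l : List (F × F)) (d : F), l.length ≤ C ∧ (∀ p ∈ l, p.1 ∈ S ∧ p.2 ∈ K) ∧ d ∈ ⁅K, K⁆ ∧
      Len T (C * (m + 1)) d ∧ ν = t * (d * cprod l)

private theorem glob_one {F : Type} [Group F] (K : Subgroup F) [K.Normal] [K.FiniteIndex]
    {T : Set F} (hTf : T.Finite) (hTs : ∀ t ∈ T, t⁻¹ ∈ T) (hT : Subgroup.closure T = ⊤)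
    (S : Subgroup F) :
    ∃ (R : Finset F) (C : ℕ), K ≤ S → ∀ m, ∀ ν ∈ ⁅S, S⁆, ν ∈ K → Len T m ν → ∃ t ∈ R, t ∈ K ∧
    ∃ (l : List (F × F)) (d : F), l.length ≤ C ∧ (∀ p ∈ l, p.1 ∈ S ∧ p.2 ∈ K) ∧ d ∈ ⁅K, K⁆ ∧
      Len T (C * (m + 1)) d ∧ ν = t * (d * cprod l) := by
  classical
  by_cases hS : K ≤ S
  · obtain ⟨R, hR⟩ := schur_reps K S hS
    obtain ⟨C, hC⟩ := lift_comm K hTf hTs hT S hS
    obtain ⟨c, hc⟩ := uniform_len hTs (fun t : R => (t : F)) (fun t => by rw [hT]; trivial)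
    refine ⟨R, C * (c + 1), fun _ m ν hν hνK hνl => ?_⟩
    obtain ⟨t, htR, htK, ht⟩ := hR ν hν hνK
    have h1 : Len T c t⁻¹ := (hc ⟨t, htR⟩).inv hTs
    obtain ⟨l, d, hl, hlp, hd, hdl, he⟩ := hC (c + m) (t⁻¹ * ν) ht (h1.mul hνl)
    refine ⟨t, htR, htK, l, d, hl.trans (Nat.le_mul_of_pos_right _ (Nat.succ_pos _)), hlp, hd,
      hdl.mono ?_, ?_⟩
    · rw [Nat.mul_assoc]
      refine Nat.mul_le_mul_left _ ?_
      have : (c + 1) * (m + 1) = c * m + c + m + 1 := by ring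
      omega
    · rw [← he]
      group
  · exact ⟨∅, 0, fun h => absurd h hS⟩

theorem exists_glob {F : Type} [Group F] (K : Subgroup F) [K.Normal] [K.FiniteIndex] {T : Set F}
    (hTf : T.Finite) (hTs : ∀ t ∈ T, t⁻¹ ∈ T) (hT : Subgroup.closure T = ⊤) :
    ∃ (R : Set F) (C : ℕ), R.Finite ∧ (1 : F) ∈ R ∧ Glob K T R C := by
  classical
  choose R C hRC using glob_one K hTf hTs hT
  have hfin := finite_over K
  refine ⟨insert 1 (⋃ S ∈ {S : Subgroup F | K ≤ S}, (R S : Set F)), ∑ S ∈ hfin.toFinset, C S,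
    ?_, Set.mem_insert _ _, ?_⟩
  · exact (hfin.biUnion fun S _ => (R S).finite_toSet).insert 1
  · intro S hS m ν hν hνK hνl
    obtain ⟨t, htR, htK, l, d, hl, hlp, hd, hdl, he⟩ := hRC S hS m ν hν hνK hνl
    have hle : C S ≤ ∑ S ∈ hfin.toFinset, C S :=
      Finset.single_le_sum (f := C) (fun _ _ => Nat.zero_le _) (hfin.mem_toFinset.2 hS)
    refine ⟨t, Set.mem_insert_of_mem _ ?_, htK, l, d, hl.trans hle, hlp, hd,
      hdl.mono (Nat.mul_le_mul_right _ hle), he⟩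
    rw [Set.mem_iUnion₂]
    exact ⟨S, hS, htR⟩

end Pool.Agent.VY
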