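import Pool.Agent.VY.Defs

set_option autoImplicit false

/-! Job VY-Plc. Placing commutators at vertices.
-/

namespace Pool.Agent.VY

open Pool.Agent.VW Pool.Agent.VX
open scoped commutatorElement

private theorem plc_one {F Y : Type} [Group F] {K N M : Subgroup F} [DecidableEq Y]
    (Λ : Lvl F Y K N M) (y : Y) (α β : F) (hα : α ∈ Sg Λ.Ψ K y) (hβ : β ∈ K) :
    ∃ g, CL K 1 g ∧ Λ.Ψ g = base (fun z => if z = y then ⁅α, β⁆ else 1) := by
  obtain ⟨a, ha, ha1, rfl⟩ := mem_Sg.1 hα
  obtain ⟨b, hb, hb1⟩ := Λ.br (fun z => if z = y then β else 1) (fun z => by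
    by_cases h : z = y
    · rw [if_pos h]
      exact hβ
    · rw [if_neg h]
      exact K.one_mem)
  refine ⟨⁅a, b⁆, CL.of_comm ha hb, ?_⟩
  rw [commutatorElement_def, map_mul, map_mul, map_mul, map_inv, map_inv, hb1, conj_base, base_inv, base_mul]
  congr 1
  funext z
  by_cases h : z = y
  · have h1 : (Λ.Ψ a).perm⁻¹ z = y := by
      rw [Equiv.Perm.inv_eq_iff_eq, ha1]
      exact h
    rw [h1, if_pos rfl, if_pos h, if_pos h, commutatorElement_def]
  · have h1 : ¬ (Λ.Ψ a).perm⁻¹ z = y := by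
      intro h2
      rw [Equiv.Perm.inv_eq_iff_eq, ha1] at h2
      exact h h2
    rw [if_neg h1, if_neg h, if_neg h, mul_one, mul_inv_cancel, inv_one, mul_one]

private theorem plc_list {F Y : Type} [Group F] {K N M : Subgroup F} [DecidableEq Y]
    (Λ : Lvl F Y K N M) (y : Y) (l : List (F × F)) (hl : ∀ p ∈ l, p.1 ∈ Sg Λ.Ψ K y ∧ p.2 ∈ K) :
    ∃ g, CL K l.length g ∧ Λ.Ψ g = base (fun z => if z = y then cprod l else 1) := by
  induction l with
  | nil =>
    refine ⟨1, CL.one _, ?_⟩
    rw [map_one, cprod_nil]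
    apply Wr.ext
    · rfl
    · funext z
      show (1 : F) = if z = y then 1 else 1
      rw [ite_self]
  | cons p t ih =>
    obtain ⟨g, hg, hg1⟩ := ih fun q hq => hl q (List.mem_cons_of_mem _ hq)
    have hp := hl p List.mem_cons_self
    obtain ⟨g', hg', hg1'⟩ := plc_one Λ y p.1 p.2 hp.1 hp.2
    refine ⟨g' * g, ?_, ?_⟩
    · have h1 := hg'.mul hg
      rw [List.length_cons, Nat.add_comm]
      exact h1
    · rw [map_mul, hg1, hg1', base_mul]
      congr 1
      funext z
      by_cases h : z = y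
      · rw [if_pos h, if_pos h, if_pos h, cprod_cons]
      · rw [if_neg h, if_neg h, if_neg h, mul_one]

theorem places {F Y : Type} [Group F] {K N M : Subgroup F} [Fintype Y] [DecidableEq Y]
    (Λ : Lvl F Y K N M) (J : Finset Y) (l : Y → List (F × F)) (C : ℕ)
    (hlen : ∀ y ∈ J, (l y).length ≤ C) (hl : ∀ y ∈ J, ∀ p ∈ l y, p.1 ∈ Sg Λ.Ψ K y ∧ p.2 ∈ K) :
    ∃ g, CL K (J.card * C) g ∧ Λ.Ψ g = base (fun y => if y ∈ J then cprod (l y) else 1) := by
  induction J using Finset.induction_on with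
  | empty =>
    refine ⟨1, CL.one _, ?_⟩
    rw [map_one]
    apply Wr.ext
    · rfl
    · funext z
      show (1 : F) = if z ∈ (∅ : Finset Y) then cprod (l z) else 1
      rw [if_neg (Finset.notMem_empty z)]
  | insert y J hy ih =>
    obtain ⟨g, hg, hg1⟩ := ih (fun z hz => hlen z (Finset.mem_insert_of_mem hz))
      (fun z hz => hl z (Finset.mem_insert_of_mem hz))
    obtain ⟨g', hg', hg1'⟩ := plc_list Λ y (l y) (hl y (Finset.mem_insert_self _ _))
    refine ⟨g * g', ?_, ?_⟩
    · have h1 := hg.mul hg'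
      refine h1.mono ?_
      have h2 := hlen y (Finset.mem_insert_self _ _)
      rw [Finset.card_insert_of_notMem hy, Nat.add_mul, Nat.one_mul]
      omega
    · rw [map_mul, hg1, hg1', base_mul]
      congr 1
      funext z
      by_cases h : z = y
      · rw [if_pos h, if_neg (by rw [h]; exact hy), if_pos (by rw [h]; exact Finset.mem_insert_self _ _), one_mul, h]
      · rw [if_neg h, mul_one]
        by_cases h2 : z ∈ J
        · rw [if_pos h2, if_pos (Finset.mem_insert_of_mem h2)]
        · rw [if_neg h2, if_neg (by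
            rw [Finset.mem_insert]
            exact fun h3 => h3.elim h h2)]

end Pool.Agent.VY
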