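import Pool.Agent.VY.Trf
import Pool.Agent.VY.Plc
import Pool.Agent.VY.Glob
import Pool.Agent.VX.Split

set_option autoImplicit false

/-! The recursion step. -/

namespace Pool.Agent.VY

open Pool.Agent.VW Pool.Agent.VX
open scoped commutatorElement

/-- local data of one level: orbits, coset representatives, representatives of finitely many families -/
def GoodK {F Y : Type} [Group F] [Fintype Y] [DecidableEq Y] (Ψ : F →* Wr F Y) (K : Subgroup F)
    (T R : Set F) (k C : ℕ) : Prop :=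
  ∃ (r : Y → Y) (s : Y → F), (∀ y, r (r y) = r y) ∧ (∀ y, s y ∈ K) ∧
    (∀ y, (Ψ (s y)).perm y = r y) ∧ (∀ f ∈ K, ∀ y, r ((Ψ f).perm y) = r y) ∧
    (∀ y, (Finset.univ.filter (fun z => r z = r y)).card = k) ∧
    (∀ y, Len T C ((Ψ (s y)).sec y)) ∧
    (∀ g ∈ ⁅K, K⁆, ∃ t, CL K C t ∧ (∀ y, Len T C ((Ψ t⁻¹).sec y)) ∧ (Ψ (t⁻¹ * g)).perm = 1 ∧
      ∀ y, (Ψ (t⁻¹ * g)).sec y ∈ K) ∧
    ∀ τ ∈ ⁅K, K⁆, ∀ t' : Y → F, (∀ y, t' y ∈ R) → Ψ τ = base t' →
      ∃ τ₀, CL K C τ₀ ∧ Ψ τ₀ = base t'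

private theorem step_len {F Y : Type} [Group F] {T : Set F} (x : Y → F) (a : Y → ℕ) :
    ∀ l : List Y, (∀ z ∈ l, Len T (a z) (x z)) → Len T ((l.map a).sum) (l.map x).prod
  | [], _ => by
      simpa using (Len.one 0 : Len T 0 (1 : F))
  | z :: l, h => by
      rw [List.map_cons, List.map_cons, List.sum_cons, List.prod_cons]
      exact (h z List.mem_cons_self).mul (step_len x a l fun y hy => h y (List.mem_cons_of_mem _ hy))

private theorem K_le_Sg {F Y : Type} [Group F] [DecidableEq Y] {K N M : Subgroup F}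
    (Λ : Lvl F Y K N M) (y : Y) : K ≤ Sg Λ.Ψ K y := by
  intro x hx
  obtain ⟨a, ha, h⟩ := Λ.br (fun z => if z = y then x else 1) (fun z => by
    split_ifs
    · exact hx
    · exact K.one_mem)
  refine ⟨a, ha, ?_, ?_⟩
  · rw [h]
    rfl
  · rw [h, base_sec, if_pos rfl]

theorem step' {F Y : Type} [Group F] {K N M : Subgroup F} [K.Normal] [N.Normal] [M.Normal]
    [Fintype Y] [DecidableEq Y] (Λ : Lvl F Y K N M) {T R : Set F} (hTs : ∀ t ∈ T, t⁻¹ ∈ T)
    (h1 : (1 : F) ∈ R) {C₃ : ℕ} (hR : Glob K T R C₃) {k C : ℕ} (hG : GoodK Λ.Ψ K T R k C)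
    {m m' c q : ℕ}
    (hℓ : ∀ g, Len T m g → ∃ ℓ : Y → ℕ, (∀ y, Len T (ℓ y) ((Λ.Ψ g).sec y)) ∧
      ∀ J : Finset Y, J.card = k → C₃ * (∑ z ∈ J, (ℓ z + 3 * C) + 1) ≤ m')
    (hP : PB M K T m' c) (hc : c ≤ k * q) :
    PB N K T m (2 * C + (2 + C₃) * Fintype.card Y + q) := by
  intro g hg hgm
  obtain ⟨r, s, hr, hs, hsr, hrK, hcard, hsl, hcos, htor⟩ := hG
  obtain ⟨t, htC, htl, htp, hts⟩ := hcos g hg
  obtain ⟨ℓ, hℓ1, hℓ2⟩ := hℓ g hgm
  have hκl : ∀ y, Len T (C + ℓ y) ((Λ.Ψ (t⁻¹ * g)).sec y) := by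
    intro y
    rw [map_mul, Wr.mul_sec]
    exact (htl _).mul (hℓ1 y)
  obtain ⟨E, hE, g', hg', hEg, hg'μ⟩ := Λ.transport Finset.univ.toList (Finset.nodup_toList _)
    (fun y => Finset.mem_toList.mpr (Finset.mem_univ y)) r s hs hsr (fun y => (Λ.Ψ (t⁻¹ * g)).sec y)
    hts
  have hbase : Λ.Ψ (t⁻¹ * g) = base (fun y => (Λ.Ψ (t⁻¹ * g)).sec y) := by
    apply Wr.ext
    · exact htp
    · rfl
  set μ : Y → F := fun y => ((Finset.univ.toList.filter (fun z => decide (r z = y))).map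
      (fun z => (Λ.Ψ (s z)).sec z * (Λ.Ψ (t⁻¹ * g)).sec z * ((Λ.Ψ (s z)).sec z)⁻¹)).prod with hμ
  have hμK : ∀ y, μ y ∈ K := by
    intro y
    refine Subgroup.list_prod_mem _ ?_
    intro x hx
    obtain ⟨z, _, rfl⟩ := List.mem_map.mp hx
    exact Subgroup.Normal.conj_mem inferInstance _ (hts z) _
  have hμ1 : ∀ y, r y ≠ y → μ y = 1 := by
    intro y hy
    have h3 : Finset.univ.toList.filter (fun z => decide (r z = y)) = [] := by
      rw [List.filter_eq_nil_iff]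
      intro z _ hz
      have hz' : r z = y := of_decide_eq_true hz
      apply hy
      rw [← hz', hr]
    rw [hμ]
    change ((Finset.univ.toList.filter (fun z => decide (r z = y))).map _).prod = 1
    rw [h3]
    rfl
  have hsum : ∀ y, ((Finset.univ.toList.filter (fun z => decide (r z = y))).map
      (fun z => ℓ z + 3 * C)).sum = ∑ z ∈ Finset.univ.filter (fun z => r z = y), (ℓ z + 3 * C) := by
    intro y
    rw [← List.sum_toFinset _ ((Finset.nodup_toList _).filter _)]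
    refine Finset.sum_congr ?_ fun _ _ => rfl
    ext z
    simp
  have hlen : ∀ y, Len T (∑ z ∈ Finset.univ.filter (fun z => r z = y), (ℓ z + 3 * C)) (μ y) := by
    intro y
    rw [← hsum y]
    refine step_len _ _ _ ?_
    intro z _
    have h3 := ((hsl z).mul (hκl z)).mul ((hsl z).inv hTs)
    exact h3.mono (by omega)
  -- the element of `[K,K]` with image `base μ`
  have hED : E ∈ ⁅K, K⁆ := CL.mem hE
  have htD : t ∈ ⁅K, K⁆ := CL.mem htC
  set h : F := E⁻¹ * (t⁻¹ * g) with hh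
  have hhD : h ∈ ⁅K, K⁆ :=
    Subgroup.mul_mem _ (Subgroup.inv_mem _ hED) (Subgroup.mul_mem _ (Subgroup.inv_mem _ htD) hg)
  have hhμ : Λ.Ψ h = base μ := by
    rw [hh, map_mul, hbase, ← hEg, ← map_mul, inv_mul_cancel_left, hg'μ]
  -- decomposition
  have hdec : ∀ y, ∃ (t' : F) (l : List (F × F)) (d : F), t' ∈ R ∧ t' ∈ K ∧ l.length ≤ C₃ ∧
      (∀ p ∈ l, p.1 ∈ Sg Λ.Ψ K y ∧ p.2 ∈ K) ∧ d ∈ ⁅K, K⁆ ∧ CM M K c d ∧ (r y ≠ y → d = 1) ∧
      μ y = t' * (d * cprod l) := by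
    intro y
    by_cases hy : r y = y
    · have hμS := transfer Λ.Ψ K r s hs hsr hrK hhD μ hμ1 hhμ y hy
      obtain ⟨t', ht'R, ht'K, l, d, hl, hlp, hd, hdl, he⟩ := hR _ (K_le_Sg Λ y) _ (μ y) hμS
        (hμK y) (hlen y)
      refine ⟨t', l, d, ht'R, ht'K, hl, hlp, hd, hP d hd (hdl.mono ?_), fun hcon => absurd hy hcon, he⟩
      have h3 := hcard y
      rw [hy] at h3
      exact hℓ2 _ h3
    · refine ⟨1, [], 1, h1, K.one_mem, Nat.zero_le _, fun p hp => absurd hp List.not_mem_nil,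
        Subgroup.one_mem _, CM.of_CL (CL.one c), fun _ => rfl, ?_⟩
      rw [hμ1 y hy]
      simp
  choose t' l d ht'R ht'K hl hlp hd hdc hd1 hdec using hdec
  -- the commutators
  obtain ⟨G, hG, hGb⟩ := places Λ Finset.univ l C₃ (fun y _ => hl y) (fun y _ => hlp y)
  have hGb' : Λ.Ψ G = base (fun y => cprod (l y)) := by
    rw [hGb]
    congr 1
    funext y
    rw [if_pos (Finset.mem_univ y)]
  -- the element with image `base d`
  have hdq : ∀ y, ∃ n, CL K n (d y) := fun y => CL.exists_of_mem (hd y)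
  choose n hn using hdq
  obtain ⟨e, he, heb⟩ := Λ.par (q := Finset.univ.sup n) d
    (fun y => (hn y).mono (Finset.le_sup (Finset.mem_univ y)))
  have heD : e ∈ ⁅K, K⁆ := CL.mem he
  have hGD : G ∈ ⁅K, K⁆ := CL.mem hG
  -- the element with image `base t'`
  obtain ⟨τ₀, hτ₀, hτ₀b⟩ := htor (h * G⁻¹ * e⁻¹)
    (Subgroup.mul_mem _ (Subgroup.mul_mem _ hhD (Subgroup.inv_mem _ hGD)) (Subgroup.inv_mem _ heD))
    t' ht'R (by
      rw [map_mul, map_mul, map_inv, map_inv, hhμ, hGb', heb, base_inv, base_inv, base_mul,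
        base_mul]
      congr 1
      funext y
      rw [hdec y]
      group)
  have hsplit := Λ.split r hr s hs hsr (k := k) (q := q) (c := c) (fun y => (hcard y).ge) hc d hd1
    hdc heb
  have h4 : CM N K (Fintype.card Y + (C + ((Fintype.card Y + q) + Fintype.card Y * C₃)))
      (t⁻¹ * g) := by
    refine CM.congr ((CM.of_CL (hE.mono ?_)).mul ((CM.of_CL hτ₀).mul (hsplit.mul (CM.of_CL hG)))) ?_
    · rw [Finset.length_toList, Finset.card_univ]
    · have h5 : Λ.Ψ (τ₀ * (e * G)) = Λ.Ψ h := by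
        rw [map_mul, map_mul, hτ₀b, heb, hGb', hhμ, base_mul, base_mul]
        congr 1
        funext y
        exact (hdec y).symm
      rw [Λ.mem, map_mul, map_inv, map_mul Λ.Ψ E, h5, ← map_mul, hh, mul_inv_cancel_left,
        inv_mul_cancel]
      exact ⟨rfl, fun y => M.one_mem⟩
  have h5 := (CM.of_CL (N := N) htC).mul h4
  rw [mul_inv_cancel_left] at h5
  refine h5.mono ?_
  have h6 : (2 + C₃) * Fintype.card Y = 2 * Fintype.card Y + Fintype.card Y * C₃ := by ring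
  omega

end Pool.Agent.VY
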