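import Pool.Agent.VY.Orb
import Pool.Agent.VY.Cos
import Pool.Agent.VY.Step
import Pool.Agent.VY.LBd
import Pool.Agent.VY.Disp
import Pool.Agent.VY.Cen
import Pool.Agent.VY.Ovr
import Pool.Agent.VX.Main

set_option autoImplicit false

/-! Assembly: uniformly bounded commutator width without finiteness of the index of `[K,K]`, and verbal
ellipticity. -/

namespace Pool.Agent.VY

open Pool.Agent.VW Pool.Agent.VX
open scoped commutatorElement

private theorem exists_goodK {F Y : Type} [Group F] [Fintype Y] [DecidableEq Y] (Ψ : F →* Wr F Y)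
    (K : Subgroup F) [K.Normal] [K.FiniteIndex] {T R : Set F} (hTs : ∀ t ∈ T, t⁻¹ ∈ T)
    (hT : Subgroup.closure T = ⊤) (hR : R.Finite) (htr : ∀ y y', ∃ f, (Ψ f).perm y = y') :
    ∃ k C, GoodK Ψ K T R k C ∧ Fintype.card Y ≤ K.index * k := by
  obtain ⟨r, s, k, hr, hs, hsr, hrK, hcard, hidx⟩ := exists_orbits' Ψ K htr
  obtain ⟨C, hC⟩ := exists_cosets' Ψ K hTs hT
  obtain ⟨C', hC'⟩ := exists_tors Ψ K hR
  obtain ⟨c, hc⟩ := uniform_len hTs (fun y => (Ψ (s y)).sec y) (fun y => by rw [hT]; trivial)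
  refine ⟨k, C + C' + c, ⟨r, s, hr, hs, hsr, hrK, hcard, fun y => (hc y).mono (by omega),
    fun g hg => ?_, fun τ hτ t' ht' hb => ?_⟩, hidx⟩
  · obtain ⟨t, ht1, ht2, ht3⟩ := hC g hg
    exact ⟨t, ht1.mono (by omega), fun y => (ht2 y).mono (by omega), ht3⟩
  · obtain ⟨τ₀, h1, h2⟩ := hC' τ hτ t' ht' hb
    exact ⟨τ₀, h1.mono (by omega), h2⟩

private theorem GoodK.mono {F Y : Type} [Group F] [Fintype Y] [DecidableEq Y] {Ψ : F →* Wr F Y}
    {K : Subgroup F} {T R : Set F} {k C C' : ℕ} (hC : C ≤ C') (h : GoodK Ψ K T R k C) :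
    GoodK Ψ K T R k C' := by
  obtain ⟨r, s, h1, h2, h3, h3', h4, h5, h6, h7⟩ := h
  refine ⟨r, s, h1, h2, h3, h3', h4, fun y => (h5 y).mono hC, fun g hg => ?_,
    fun τ hτ t' ht' hb => ?_⟩
  · obtain ⟨t, ht1, ht2, ht3⟩ := h6 g hg
    exact ⟨t, ht1.mono hC, fun y => (ht2 y).mono hC, ht3⟩
  · obtain ⟨τ₀, h1, h2⟩ := h7 τ hτ t' ht' hb
    exact ⟨τ₀, h1.mono hC, h2⟩

private theorem exists_goodK_all {F X S : Type} [Group F] [Finite X] [Finite S]
    (ψ : S → F →* Wr F X) (K : Subgroup F) [K.Normal] [K.FiniteIndex] {T R : Set F}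
    (hTs : ∀ t ∈ T, t⁻¹ ∈ T) (hT : Subgroup.closure T = ⊤) (hRf : R.Finite) (n : ℕ)
    [Fintype (Wd X n)] [DecidableEq (Wd X n)]
    (htr : ∀ (ω : ℕ → S) (y y' : Wd X n), ∃ f, (iter ψ n ω f).perm y = y') :
    ∃ C, ∀ ω : ℕ → S, ∃ k, GoodK (iter ψ n ω) K T R k C ∧
      Fintype.card (Wd X n) ≤ K.index * k := by
  classical
  have hR := iter_range_finite ψ n
  have h1 : ∀ Φ : F →* Wr F (Wd X n), ∃ C, Φ ∈ Set.range (fun ω : ℕ → S => iter ψ n ω) →
      ∃ k, GoodK Φ K T R k C ∧ Fintype.card (Wd X n) ≤ K.index * k := by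
    intro Φ
    by_cases h : Φ ∈ Set.range (fun ω : ℕ → S => iter ψ n ω)
    · obtain ⟨ω, hω⟩ := h
      obtain ⟨k, C, h2, h3⟩ := exists_goodK Φ K hTs hT hRf (by
        intro y y'
        rw [← hω]
        exact htr ω y y')
      exact ⟨C, fun _ => ⟨k, h2, h3⟩⟩
    · exact ⟨0, fun h' => absurd h' h⟩
  choose f hf using h1
  refine ⟨∑ Φ ∈ hR.toFinset, f Φ, fun ω => ?_⟩
  have hω : iter ψ n ω ∈ Set.range (fun ω : ℕ → S => iter ψ n ω) := ⟨ω, rfl⟩
  obtain ⟨k, h2, h3⟩ := hf (iter ψ n ω) hω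
  refine ⟨k, h2.mono ?_, h3⟩
  exact Finset.single_le_sum (f := f) (fun _ _ => Nat.zero_le _) (hR.mem_toFinset.2 hω)

private theorem linear_bound' {F : Type} [Group F] (K : Subgroup F) [K.Normal] [K.FiniteIndex]
    {T : Set F} (hT : T.Finite) : ∃ C, ∀ m g, g ∈ ⁅K, K⁆ → Len T m g → CL K (C * m) g := by
  obtain ⟨Q, hQ1, hQ2, hQ3⟩ := schreier K hT
  obtain ⟨C, hC⟩ := lbd K hQ1 hQ2
  refine ⟨C, fun m g hg hm => hC m g hg (hQ3 m g ?_ hm)⟩
  exact Subgroup.commutator_le_left K K hg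

/-- contracting on average -/
theorem bounded_of_shrinks' {F X S : Type} [Group F] [Finite X] [Nonempty X] [Finite S]
    (ψ : S → F →* Wr F X) (K : Subgroup F) [K.Normal] [K.FiniteIndex]
    (hbr : ∀ s, ∀ κ : X → F, (∀ x, κ x ∈ K) → ∃ f ∈ K, (ψ s f).perm = 1 ∧ ∀ x, (ψ s f).sec x = κ x)
    (htr : ∀ (ω : ℕ → S) (n : ℕ) (v w : Wd X n), ∃ f, (iter ψ n ω f).perm v = w)
    {T : Set F} (hTf : T.Finite) (hTs : ∀ t ∈ T, t⁻¹ ∈ T) (hT : Subgroup.closure T = ⊤)
    (hsh : Shrinks ψ T) :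
    ∃ B, ∀ ω, ∀ g ∈ ⁅K, K⁆, CM (NN ψ ω) K B g := by
  classical
  by_cases hX : Subsingleton X
  · refine ⟨0, fun ω g hg => ⟨1, rfl, ?_⟩⟩
    rw [NN_eq_top]
    trivial
  have hXn : Nontrivial X := not_subsingleton_iff_nontrivial.1 hX
  have hX2 : 2 ≤ Nat.card X := by
    have := Finite.one_lt_card (α := X)
    omega
  obtain ⟨R, C₃, hRf, hR1, hRG⟩ := exists_glob K hTf hTs hT
  set ι := K.index with hι
  have hι0 : 1 ≤ ι := Nat.one_le_iff_ne_zero.2 Subgroup.FiniteIndex.index_ne_zero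
  obtain ⟨N, hN, C₀, hC₀⟩ := hsh (ι * C₃) (2 * ι)
  have : Fintype (Wd X N) := Fintype.ofFinite _
  obtain ⟨C, hC⟩ := exists_goodK_all ψ K hTs hT hRf N (fun ω y y' => htr ω N y y')
  obtain ⟨a, ha⟩ := linear_bound' K hTf
  have hY : 2 * ι ≤ Nat.card (Wd X N) := by
    rw [card_wd]
    calc 2 * ι ≤ N := hN
      _ ≤ 2 ^ N := Nat.lt_two_pow_self.le
      _ ≤ Nat.card X ^ N := Nat.pow_le_pow_left hX2 N
  have hYc : Fintype.card (Wd X N) = Nat.card (Wd X N) := Nat.card_eq_fintype_card.symm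
  obtain ⟨B, hB⟩ := num_contr (fun m c => ∀ ω, PB (NN ψ ω) K T m c)
    (fun m c c' hcc h ω => (h ω).mono' hcc) a
    (fun m ω g hg hm => CM.of_CL (ha m g hg hm))
    (2 * C + (2 + C₃) * Fintype.card (Wd X N))
    (C₀ + 1 + C₃ * (Fintype.card (Wd X N) * (3 * C) + 1)) (by
      intro m Q hQ ω
      obtain ⟨k, hk, hcard⟩ := hC ω
      have hk2 : 2 ≤ k := by
        rw [← hYc] at hY
        by_contra hcon
        have hk1 : k ≤ 1 := by omega
        have h2 : Fintype.card (Wd X N) ≤ ι * 1 := hcard.trans (Nat.mul_le_mul_left _ hk1)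
        omega
      obtain ⟨c, hc, hP⟩ := hQ k hk2
      refine step' (lvl ψ K hbr ω N) hTs hR1 hRG hk ?_ (hP (shn N ω)) hc
      intro g hg
      obtain ⟨ℓ, hℓ1, hℓ2⟩ := hC₀ ω m g hg
      refine ⟨ℓ, hℓ1, fun J hJ => ?_⟩
      have h1 := hℓ2 J
      rw [← hYc] at h1
      have h2 : ι * (2 * (C₃ * ∑ y ∈ J, ℓ y)) ≤ ι * (k * m) + C₀ := by
        have h0 : Fintype.card (Wd X N) * m ≤ ι * k * m := Nat.mul_le_mul_right m hcard
        calc ι * (2 * (C₃ * ∑ y ∈ J, ℓ y)) = 2 * (ι * C₃) * ∑ y ∈ J, ℓ y := by ring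
          _ ≤ Fintype.card (Wd X N) * m + C₀ := h1
          _ ≤ ι * k * m + C₀ := Nat.add_le_add_right h0 _
          _ = ι * (k * m) + C₀ := by ring
      have h3 : ∑ z ∈ J, (ℓ z + 3 * C) = ∑ y ∈ J, ℓ y + J.card * (3 * C) := by
        rw [Finset.sum_add_distrib, Finset.sum_const, smul_eq_mul]
      have h4 : J.card ≤ Fintype.card (Wd X N) := Finset.card_le_univ J
      have h5 : C₃ * ∑ y ∈ J, ℓ y ≤ k * m / 2 + C₀ + 1 := by
        by_contra hcon
        push Not at hcon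
        have h6 : k * m < 2 * (k * m / 2) + 2 := by omega
        have h7 : ι * (k * m) + C₀ < ι * (2 * (C₃ * ∑ y ∈ J, ℓ y)) := by
          have h8 : ι * (k * m + 2 * C₀) ≤ ι * (2 * (k * m / 2 + C₀ + 1)) :=
            Nat.mul_le_mul_left _ (by omega)
          have h9 : ι * (2 * (k * m / 2 + C₀ + 1)) < ι * (2 * (C₃ * ∑ y ∈ J, ℓ y)) :=
            Nat.mul_lt_mul_of_pos_left (by omega) (by omega)
          have h10 : ι * (k * m + 2 * C₀) = ι * (k * m) + ι * (2 * C₀) := by ring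
          have h11 : C₀ ≤ ι * (2 * C₀) := by
            calc C₀ ≤ 2 * C₀ := by omega
              _ = 1 * (2 * C₀) := (one_mul _).symm
              _ ≤ ι * (2 * C₀) := Nat.mul_le_mul_right _ hι0
          omega
        omega
      rw [h3]
      have h12 : J.card * (3 * C) ≤ Fintype.card (Wd X N) * (3 * C) :=
        Nat.mul_le_mul_right _ h4
      calc C₃ * (∑ y ∈ J, ℓ y + J.card * (3 * C) + 1)
          ≤ C₃ * (∑ y ∈ J, ℓ y + (Fintype.card (Wd X N) * (3 * C) + 1)) :=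
            Nat.mul_le_mul_left _ (by omega)
        _ = C₃ * ∑ y ∈ J, ℓ y + C₃ * (Fintype.card (Wd X N) * (3 * C) + 1) := Nat.mul_add _ _ _
        _ ≤ k * m / 2 + (C₀ + 1 + C₃ * (Fintype.card (Wd X N) * (3 * C) + 1)) := by omega)
  refine ⟨B, fun ω g hg => ?_⟩
  obtain ⟨m, hm⟩ := Len.exists_of_mem_closure hTs (g := g) (by rw [hT]; trivial)
  exact hB m ω g hg hm

private theorem main_bound' {F X S : Type} [Group F] [Group.FG F] [Finite X] [Nonempty X]
    [Finite S] (ψ : S → F →* Wr F X) (K : Subgroup F) [K.Normal] [K.FiniteIndex]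
    (hbr : ∀ s, ∀ κ : X → F, (∀ x, κ x ∈ K) → ∃ f ∈ K, (ψ s f).perm = 1 ∧ ∀ x, (ψ s f).sec x = κ x)
    (htr : ∀ (ω : ℕ → S) (n : ℕ) (v w : Wd X n), ∃ f, (iter ψ n ω f).perm v = w)
    (hcase : Contracting ψ ∨ ∃ T, Automaton ψ T ∧ ReachesOne ψ T) :
    ∃ B, ∀ ω, ∀ g ∈ ⁅K, K⁆, CM (NN ψ ω) K B g := by
  rcases hcase with hψ | ⟨T, hT, h⟩
  · obtain ⟨T, hTf, hTs, hT⟩ := exists_symm_gen (F := F)
    exact bounded_of_shrinks' ψ K hbr htr hTf hTs hT
      (shrinks_of_contracting ψ hψ hTf hTs hT)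
  · obtain ⟨T', hT', hTs, hR⟩ := automaton_symm ψ hT
    exact bounded_of_shrinks' ψ K hbr htr hT'.1 hTs hT'.2.1
      (shrinks_of_reachesOne ψ hT' (hR h))

/-- elements acting trivially on a level, with sections in `L` -/
private def lev {F Y : Type} [Group F] (Ψ : F →* Wr F Y) (L : Subgroup F) : Subgroup F where
  carrier := {g | (Ψ g).perm = 1 ∧ ∀ y, (Ψ g).sec y ∈ L}
  one_mem' := by
    refine ⟨?_, fun y => ?_⟩
    · rw [map_one, Wr.one_perm]
    · rw [map_one, Wr.one_sec]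
      exact L.one_mem
  mul_mem' := by
    rintro a b ⟨ha, ha'⟩ ⟨hb, hb'⟩
    refine ⟨?_, fun y => ?_⟩
    · rw [map_mul, Wr.mul_perm, ha, hb, mul_one]
    · rw [map_mul, Wr.mul_sec]
      exact L.mul_mem (ha' _) (hb' _)
  inv_mem' := by
    rintro a ⟨ha, ha'⟩
    refine ⟨?_, fun y => ?_⟩
    · rw [map_inv, Wr.inv_perm, ha, inv_one]
    · rw [map_inv, Wr.inv_sec]
      exact L.inv_mem (ha' _)

private theorem lev_normal {F Y : Type} [Group F] (Ψ : F →* Wr F Y) (L : Subgroup F) [L.Normal] :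
    (lev Ψ L).Normal := by
  constructor
  rintro a ⟨ha, ha'⟩ g
  have h1 : Ψ a = base (Ψ a).sec := eq_base _ ha
  refine ⟨?_, fun y => ?_⟩
  · rw [map_mul, map_mul, map_inv, Wr.mul_perm, Wr.mul_perm, Wr.inv_perm, ha, mul_one,
      mul_inv_cancel]
  · rw [map_mul, map_mul, map_inv, Wr.mul_sec, Wr.mul_sec, Wr.inv_sec, Wr.inv_perm, ha]
    exact Subgroup.Normal.conj_mem inferInstance _ (ha' _) _

private theorem lev_comm {F Y : Type} [Group F] (Ψ : F →* Wr F Y) (K : Subgroup F) :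
    ⁅lev Ψ K, lev Ψ K⁆ ≤ lev Ψ ⁅K, K⁆ := by
  rw [Subgroup.commutator_le]
  rintro a ⟨ha, ha'⟩ b ⟨hb, hb'⟩
  have h : Ψ ⁅a, b⁆ = base (fun y => ⁅(Ψ a).sec y, (Ψ b).sec y⁆) := by
    rw [map_commutatorElement, eq_base _ ha, eq_base _ hb, base_comm]
    rfl
  refine ⟨?_, fun y => ?_⟩
  · rw [h, base_perm]
  · rw [h, base_sec]
    exact Subgroup.commutator_mem_commutator (ha' y) (hb' y)

private theorem lev_finiteIndex {F Y : Type} [Group F] [Finite Y] (Ψ : F →* Wr F Y)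
    (K : Subgroup F) [K.Normal] [K.FiniteIndex] : (lev Ψ K).FiniteIndex := by
  have hQ : Finite (F ⧸ K) := Subgroup.finite_quotient_of_finiteIndex
  let Φ : F →* Wr (F ⧸ K) Y := (Wr.map (QuotientGroup.mk' K)).comp Ψ
  have h1 : Finite Φ.range := inferInstance
  have h2 : Φ.ker.FiniteIndex := inferInstance
  refine Subgroup.finiteIndex_of_le (H := Φ.ker) ?_
  intro g hg
  rw [MonoidHom.mem_ker] at hg
  refine ⟨congrArg Wr.perm hg, fun y => ?_⟩
  have h3 := congrFun (congrArg Wr.sec hg) y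
  exact (QuotientGroup.eq_one_iff _).1 h3

private theorem fg_of_sub {E : Type} [Group E] (H : Subgroup E) [H.FiniteIndex]
    (hH : Group.FG H) : Group.FG E := by
  have hfin : Finite (E ⧸ H) := Subgroup.finite_quotient_of_finiteIndex
  obtain ⟨S, hS⟩ := (Group.fg_iff_subgroup_fg H).1 hH
  rw [Group.fg_iff]
  refine ⟨(S : Set E) ∪ Set.range (Quotient.out : E ⧸ H → E), ?_,
    S.finite_toSet.union (Set.finite_range _)⟩
  rw [eq_top_iff]
  intro x _
  have h1 : (Quotient.out (x : E ⧸ H))⁻¹ * x ∈ H := QuotientGroup.eq.1 (Quotient.out_eq _)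
  have h2 : x = Quotient.out (x : E ⧸ H) * ((Quotient.out (x : E ⧸ H))⁻¹ * x) := by group
  rw [h2]
  refine Subgroup.mul_mem _ (Subgroup.subset_closure (Or.inr ⟨_, rfl⟩)) ?_
  have h3 : (Quotient.out (x : E ⧸ H))⁻¹ * x ∈ Subgroup.closure (S : Set E) := by
    rw [hS]
    exact h1
  exact Subgroup.closure_mono Set.subset_union_left h3

/-- The theorem: regular branch groups which are contracting, or generated by an automaton in which the
trivial state is reachable from every state, and all groups containing them as subgroups of finite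
index, are verbally elliptic. -/
theorem verbal_main {F X S : Type} [Group F] [Group.FG F] [Finite X] [Nonempty X] [Finite S]
    (ψ : S → F →* Wr F X) (K : Subgroup F) [K.Normal] [K.FiniteIndex]
    (hbr : ∀ s, ∀ κ : X → F, (∀ x, κ x ∈ K) → ∃ f ∈ K, (ψ s f).perm = 1 ∧ ∀ x, (ψ s f).sec x = κ x)
    (htr : ∀ (ω : ℕ → S) (n : ℕ) (v w : Wd X n), ∃ f, (iter ψ n ω f).perm v = w)
    (hcase : Contracting ψ ∨ ∃ T, Automaton ψ T ∧ ReachesOne ψ T) (ω : ℕ → S)
    {E : Type} [Group E] (H : Subgroup E) [H.FiniteIndex] (e : H ≃* F ⧸ NN ψ ω) :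
    VerballyElliptic E := by
  classical
  obtain ⟨B, hB⟩ := main_bound' ψ K hbr htr hcase
  have hHfg : Group.FG H := by
    have h1 : Group.FG (F ⧸ NN ψ ω) := inferInstance
    exact Group.fg_of_surjective (f := e.symm.toMonoidHom) e.symm.surjective
  have hEfg : Group.FG E := fg_of_sub H hHfg
  let φ : F →* E := H.subtype.comp (e.symm.toMonoidHom.comp (QuotientGroup.mk' (NN ψ ω)))
  have hφ : ∀ f, φ f = ((e.symm (QuotientGroup.mk f) : H) : E) := fun _ => rfl
  have hφH : ∀ f, φ f ∈ H := fun f => (e.symm (QuotientGroup.mk f)).2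
  have hφs : ∀ h ∈ H, ∃ f, φ f = h := by
    intro h hh
    obtain ⟨f, hf⟩ := QuotientGroup.mk_surjective (e ⟨h, hh⟩)
    refine ⟨f, ?_⟩
    rw [hφ, hf, MulEquiv.symm_apply_apply]
  have hφ1 : ∀ f, φ f = 1 → f ∈ NN ψ ω := by
    intro f hf
    rw [hφ] at hf
    have h1 : e.symm (QuotientGroup.mk f) = 1 := Subtype.ext hf
    rw [MulEquiv.map_eq_one_iff] at h1
    exact (QuotientGroup.eq_one_iff f).1 h1
  have hφfin : ∀ L : Subgroup F, L.FiniteIndex → (L.map φ).FiniteIndex := by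
    intro L hL
    have h1 : φ.range = H := by
      ext x
      constructor
      · rintro ⟨f, rfl⟩
        exact hφH f
      · intro hx
        exact hφs x hx
    constructor
    rw [Subgroup.index_map, h1]
    have h2 : (L ⊔ φ.ker).FiniteIndex := Subgroup.finiteIndex_of_le le_sup_left
    exact Nat.mul_ne_zero h2.index_ne_zero Subgroup.FiniteIndex.index_ne_zero
  refine over_elliptic H ?_ ?_
  · intro W hWH hWs hWc hW1
    obtain ⟨n, m, hnm⟩ := disp ψ K hbr htr hB ω {x | ((e.symm x : H) : E) ∈ W}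
      (fun x hx => by
        change ((e.symm x⁻¹ : H) : E) ∈ W
        rw [map_inv, Subgroup.coe_inv]
        exact hWs _ hx)
      (fun x hx g => by
        change ((e.symm (g * x * g⁻¹) : H) : E) ∈ W
        rw [map_mul, map_mul, map_inv, Subgroup.coe_mul, Subgroup.coe_mul, Subgroup.coe_inv]
        exact hWc _ hx _ (e.symm g).2)
      (by
        obtain ⟨w, hw, hw1⟩ := hW1
        refine ⟨e ⟨w, hWH hw⟩, ?_, ?_⟩
        · change ((e.symm (e ⟨w, hWH hw⟩) : H) : E) ∈ W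
          rw [MulEquiv.symm_apply_apply]
          exact hw
        · intro h
          rw [MulEquiv.map_eq_one_iff] at h
          exact hw1 (congrArg Subtype.val h))
    refine ⟨(lev (iter ψ n ω) K).map φ, (lev (iter ψ n ω) ⁅K, K⁆).map φ, m, ?_,
      hφfin _ (lev_finiteIndex _ K), ?_, ?_, ?_⟩
    · rintro _ ⟨f, -, rfl⟩
      exact hφH f
    · rw [← Subgroup.map_commutator]
      exact Subgroup.map_mono (lev_comm _ K)
    · rintro h hh _ ⟨f, hf, rfl⟩
      obtain ⟨g, rfl⟩ := hφs h hh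
      have := lev_normal (iter ψ n ω) ⁅K, K⁆
      refine ⟨g * f * g⁻¹, Subgroup.Normal.conj_mem this f hf g, ?_⟩
      rw [map_mul, map_mul, map_inv]
    · rintro _ ⟨f, hf, rfl⟩
      obtain ⟨l, hl, hlW, hlp⟩ := hnm f hf.1 hf.2
      refine ⟨l.map (fun x => ((e.symm x : H) : E)), by rwa [List.length_map], ?_, ?_⟩
      · intro x hx
        obtain ⟨y, hy, rfl⟩ := List.mem_map.1 hx
        exact hlW y hy
      · rw [hφ, ← hlp]
        exact (map_list_prod (H.subtype.comp e.symm.toMonoidHom) l).symm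
  · intro P hPH hPf z hz hzP
    obtain ⟨f, rfl⟩ := hφs z hz
    have hf : f ∈ NN ψ ω := by
      by_cases hX : Subsingleton X
      · rw [NN_eq_top]
        trivial
      have hXn : Nontrivial X := not_subsingleton_iff_nontrivial.1 hX
      have hP' : (P.comap φ).FiniteIndex := by
        constructor
        rw [Subgroup.index_comap]
        intro h0
        have h1 := Subgroup.relIndex_eq_zero_of_le_right (le_top : φ.range ≤ ⊤) h0
        rw [Subgroup.relIndex_top_right] at h1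
        exact hPf.index_ne_zero h1
      refine cen_trivial ψ K hbr htr ω (P.comap φ) f ?_
      intro p hp
      apply hφ1
      rw [map_commutatorElement, commutatorElement_eq_one_iff_mul_comm]
      exact hzP _ hp
    rw [hφ, (QuotientGroup.eq_one_iff f).2 hf, map_one]
    rfl

end Pool.Agent.VY
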