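import Pool.Agent.VX.Step
import Pool.Agent.VX.Defs

set_option autoImplicit false

/-! Project VY (MP_bcef47_al): verbal widths of regular branch groups without finiteness of the index of
`[K,K]`. Definitions. -/

namespace Pool.Agent.VY

open Pool.Agent.VW Pool.Agent.VX
open scoped commutatorElement

/-- the group of all sections at `y` of the elements of `K` fixing `y` -/
def Sg {F Y : Type} [Group F] (Ψ : F →* Wr F Y) (K : Subgroup F) (y : Y) : Subgroup F where
  carrier := {x | ∃ a ∈ K, (Ψ a).perm y = y ∧ (Ψ a).sec y = x}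
  one_mem' := ⟨1, K.one_mem, by simp, by simp⟩
  mul_mem' := by
    rintro _ _ ⟨a, ha, ha1, rfl⟩ ⟨b, hb, hb1, rfl⟩
    refine ⟨a * b, K.mul_mem ha hb, ?_, ?_⟩
    · rw [map_mul, Wr.mul_perm, Equiv.Perm.mul_apply, hb1, ha1]
    · rw [map_mul, Wr.mul_sec, hb1]
  inv_mem' := by
    rintro _ ⟨a, ha, ha1, rfl⟩
    have h : (Ψ a).perm⁻¹ y = y := by
      rw [Equiv.Perm.inv_eq_iff_eq, ha1]
    refine ⟨a⁻¹, K.inv_mem ha, ?_, ?_⟩
    · rw [map_inv, Wr.inv_perm, h]
    · rw [map_inv, Wr.inv_sec, h]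

theorem mem_Sg {F Y : Type} [Group F] {Ψ : F →* Wr F Y} {K : Subgroup F} {y : Y} {x : F} :
    x ∈ Sg Ψ K y ↔ ∃ a ∈ K, (Ψ a).perm y = y ∧ (Ψ a).sec y = x := Iff.rfl

/-- the product of the commutators `⁅a, b⁆`, `(a, b)` in the list -/
def cprod {F : Type} [Group F] (l : List (F × F)) : F := (l.map (fun p => ⁅p.1, p.2⁆)).prod

@[simp] theorem cprod_nil {F : Type} [Group F] : cprod ([] : List (F × F)) = 1 := rfl

@[simp] theorem cprod_cons {F : Type} [Group F] (p : F × F) (l : List (F × F)) :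
    cprod (p :: l) = ⁅p.1, p.2⁆ * cprod l := by
  unfold cprod
  rw [List.map_cons, List.prod_cons]

end Pool.Agent.VY
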