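import Pool.Agent.VY.Lin

set_option autoImplicit false

/-! Job VY-LinG. Linear lifts in commutative groups. -/

namespace Pool.Agent.VY

section

variable {A ι : Type} [CommGroup A] [Fintype ι] (q : ι → A)

private theorem linG_add (x y : ι → ℤ) : ∏ i, q i ^ (x + y) i = (∏ i, q i ^ x i) * ∏ i, q i ^ y i := by
  rw [← Finset.prod_mul_distrib]
  exact Finset.prod_congr rfl fun i _ => zpow_add _ _ _

private theorem linG_smul (n : ℤ) (x : ι → ℤ) : ∏ i, q i ^ (n • x) i = (∏ i, q i ^ x i) ^ n := by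
  rw [← Finset.prod_zpow]
  refine Finset.prod_congr rfl fun i _ => ?_
  rw [Pi.smul_apply, smul_eq_mul, mul_comm, zpow_mul]

private theorem linG_zero : ∏ i, q i ^ (0 : ι → ℤ) i = 1 :=
  Finset.prod_eq_one fun _ _ => zpow_zero _

private theorem linG_sum {κ : Type} (s : Finset κ) (n : κ → ℤ) (M : κ → ι → ℤ) :
    ∏ i, q i ^ (∑ j ∈ s, n j • M j) i = ∏ j ∈ s, (∏ i, q i ^ M j i) ^ n j := by
  classical
  induction s using Finset.induction_on with
  | empty => exact linG_zero q
  | insert a s ha ih =>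
    rw [Finset.sum_insert ha, Finset.prod_insert ha, linG_add, linG_smul, ih]

private theorem linG_ex (g : A) (hg : g ∈ Subgroup.closure (Set.range q)) :
    ∃ x : ι → ℤ, ∏ i, q i ^ x i = g := by
  classical
  induction hg using Subgroup.closure_induction with
  | mem g hg =>
    obtain ⟨i, rfl⟩ := hg
    refine ⟨Pi.single i 1, ?_⟩
    rw [Finset.prod_eq_single i]
    · rw [Pi.single_eq_same, zpow_one]
    · intro j _ hj
      rw [Pi.single_eq_of_ne hj, zpow_zero]
    · intro h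
      exact absurd (Finset.mem_univ _) h
  | one => exact ⟨0, linG_zero q⟩
  | mul x y _ _ hx hy =>
    obtain ⟨a, rfl⟩ := hx
    obtain ⟨b, rfl⟩ := hy
    exact ⟨a + b, linG_add q a b⟩
  | inv x _ hx =>
    obtain ⟨a, rfl⟩ := hx
    refine ⟨(-1 : ℤ) • a, ?_⟩
    rw [linG_smul, zpow_neg_one]

/-- the relations -/
private def linGK : AddSubgroup (ι → ℤ) where
  carrier := {x | ∏ i, q i ^ x i = 1}
  zero_mem' := linG_zero q
  add_mem' := fun {x y} hx hy => by
    show ∏ i, q i ^ (x + y) i = 1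
    rw [linG_add, show ∏ i, q i ^ x i = 1 from hx, show ∏ i, q i ^ y i = 1 from hy, mul_one]
  neg_mem' := fun {x} hx => by
    show ∏ i, q i ^ (-x) i = 1
    have h1 : -x = (-1 : ℤ) • x := by simp
    rw [h1, linG_smul, show ∏ i, q i ^ x i = 1 from hx, one_zpow]

private theorem linG_fg : ∃ (m : ℕ) (M' : Fin m → ι → ℤ),
    AddSubgroup.closure (Set.range M') = linGK q := by
  have h1 : (AddSubgroup.toIntSubmodule (linGK q)).FG := IsNoetherian.noetherian _
  obtain ⟨m, M', h2⟩ := Submodule.fg_iff_exists_fin_generating_family.1 h1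
  refine ⟨m, M', ?_⟩
  rw [← Submodule.span_int_eq_addSubgroupClosure, h2]
  rfl

end

theorem lin_group {A ι κ : Type} [CommGroup A] [Fintype ι] [Fintype κ] (q : ι → A) (b : κ → A)
    (hb : ∀ j, b j ∈ Subgroup.closure (Set.range q)) :
    ∃ C : ℕ, ∀ x : ι → ℤ, ∏ i, q i ^ x i ∈ Subgroup.closure (Set.range b) →
      ∃ n : κ → ℤ, ∏ i, q i ^ x i = ∏ j, b j ^ n j ∧
        ∑ j, (n j).natAbs ≤ C * ∑ i, (x i).natAbs := by
  classical
  choose M hM using fun j => linG_ex q (b j) (hb j)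
  obtain ⟨m, M', hM'⟩ := linG_fg q
  obtain ⟨C, hC⟩ := lin (Sum.elim M M')
  refine ⟨C, fun x hx => ?_⟩
  have hker : ∀ j, ∏ i, q i ^ M' j i = 1 := by
    intro j
    have h1 : M' j ∈ linGK q := by
      rw [← hM']
      exact AddSubgroup.subset_closure ⟨j, rfl⟩
    exact h1
  obtain ⟨n0, hn0⟩ := linG_ex b _ hx
  have hy : ∏ i, q i ^ (∑ j, n0 j • M j) i = ∏ i, q i ^ x i := by
    rw [linG_sum, ← hn0]
    exact Finset.prod_congr rfl fun j _ => by rw [hM j]
  have hmem : x ∈ AddSubgroup.closure (Set.range (Sum.elim M M')) := by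
    have h1 : x - ∑ j, n0 j • M j ∈ linGK q := by
      show ∏ i, q i ^ (x - ∑ j, n0 j • M j) i = 1
      have h2 : x - ∑ j, n0 j • M j = x + (-1 : ℤ) • ∑ j, n0 j • M j := by
        rw [neg_one_smul, sub_eq_add_neg]
      rw [h2, linG_add, linG_smul, hy, zpow_neg_one, mul_inv_cancel]
    rw [← hM'] at h1
    have h3 : AddSubgroup.closure (Set.range M') ≤ AddSubgroup.closure (Set.range (Sum.elim M M')) := by
      apply AddSubgroup.closure_mono
      rintro _ ⟨j, rfl⟩
      exact ⟨Sum.inr j, rfl⟩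
    have h4 : ∑ j, n0 j • M j ∈ AddSubgroup.closure (Set.range (Sum.elim M M')) :=
      AddSubgroup.sum_mem _ fun j _ => AddSubgroup.zsmul_mem _
        (AddSubgroup.subset_closure (Set.mem_range.2 ⟨Sum.inl j, rfl⟩)) _
    have h5 := AddSubgroup.add_mem _ (h3 h1) h4
    rwa [sub_add_cancel] at h5
  obtain ⟨n, hn, hle⟩ := hC x hmem
  refine ⟨fun j => n (Sum.inl j), ?_, ?_⟩
  · conv_lhs => rw [hn]
    rw [linG_sum, Fintype.prod_sum_type]
    simp only [Sum.elim_inl, Sum.elim_inr, hker, one_zpow, Finset.prod_const_one, mul_one, hM]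
  · rw [Fintype.sum_sum_type] at hle
    exact (Nat.le_add_right _ _).trans hle

end Pool.Agent.VY
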