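import Pool.Agent.VY.Defs
import Pool.Agent.VY.LinG
import Pool.Agent.VX.Schreier

set_option autoImplicit false

/-! Job VY-Lift. Elements of `[S,K]` modulo `[K,K]`: boundedly many commutators with linear control of the
lengths. -/

namespace Pool.Agent.VY

open Pool.Agent.VW Pool.Agent.VX
open scoped commutatorElement

/-- the class in an abelian quotient of a word in a finite set -/
private theorem word_exp {F : Type} [Group F] {K : Subgroup F} {Q : Set F} (hQ : Q ⊆ K) [Fintype Q] {m : ℕ}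
    {g : F} (hg : g ∈ K) (h : Len Q m g) : ∃ x : Q → ℤ, (∑ i, (x i).natAbs ≤ m) ∧
      ∀ (A : Type) [CommGroup A] (φ : K →* A), φ ⟨g, hg⟩ = ∏ i : Q, φ ⟨i, hQ i.2⟩ ^ x i := by
  classical
  obtain ⟨l, hlm, hlQ, rfl⟩ := h
  have key : ∀ l : List F, (∀ x ∈ l, x ∈ Q) → ∃ x : Q → ℤ, (∑ i, (x i).natAbs ≤ l.length) ∧
      ∃ h : l.prod ∈ K, ∀ (A : Type) [CommGroup A] (φ : K →* A),
        φ ⟨l.prod, h⟩ = ∏ i : Q, φ ⟨i, hQ i.2⟩ ^ x i := by
    intro l
    induction l with
    | nil =>
      intro _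
      refine ⟨fun _ => 0, by simp, by simp, ?_⟩
      intro A _ φ
      have : (⟨([] : List F).prod, by simp⟩ : K) = 1 := Subtype.ext (by simp)
      rw [this]
      simp
    | cons t l ih =>
      intro hx
      obtain ⟨x, h1, h2, h3⟩ := ih (fun y hy => hx y (List.mem_cons_of_mem t hy))
      have ht : t ∈ Q := hx t List.mem_cons_self
      refine ⟨fun i => x i + if i = ⟨t, ht⟩ then 1 else 0, ?_, ?_, ?_⟩
      · calc ∑ i : Q, (x i + if i = ⟨t, ht⟩ then 1 else 0).natAbs
            ≤ ∑ i : Q, ((x i).natAbs + if i = ⟨t, ht⟩ then 1 else 0) := by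
              refine Finset.sum_le_sum (fun i _ => ?_)
              split_ifs with h
              · exact (Int.natAbs_add_le _ _).trans (by simp)
              · simp
          _ = ∑ i : Q, (x i).natAbs + 1 := by
              rw [Finset.sum_add_distrib]
              congr 1
              simp
          _ ≤ (t :: l).length := by
              rw [List.length_cons]
              exact Nat.add_le_add_right h1 1
      · rw [List.prod_cons]
        exact K.mul_mem (hQ ht) h2
      · intro A _ φ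
        have h4 : (⟨(t :: l).prod, by rw [List.prod_cons]; exact K.mul_mem (hQ ht) h2⟩ : K) =
            ⟨t, hQ ht⟩ * ⟨l.prod, h2⟩ := Subtype.ext (by simp)
        rw [h4, map_mul, h3 A φ]
        have h5 : ∀ i : Q, φ ⟨i, hQ i.2⟩ ^ (x i + if i = ⟨t, ht⟩ then 1 else 0) =
            φ ⟨i, hQ i.2⟩ ^ x i * (if i = ⟨t, ht⟩ then φ ⟨i, hQ i.2⟩ else 1) := by
          intro i
          split_ifs with h
          · rw [zpow_add, zpow_one]
          · simp
        simp only [h5]
        rw [Finset.prod_mul_distrib, Finset.prod_ite_eq' Finset.univ (⟨t, ht⟩ : Q)]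
        simp [mul_comm]
  obtain ⟨x, h1, h2, h3⟩ := key l hlQ
  exact ⟨x, h1.trans hlm, fun A _ φ => h3 A φ⟩

private theorem len_pow {F : Type} [Group F] {T : Set F} {M : ℕ} {g : F} (h : Len T M g) :
    ∀ n : ℕ, Len T (M * n) (g ^ n)
  | 0 => by
      rw [pow_zero]
      exact Len.one _
  | n + 1 => by
      rw [pow_succ, Nat.mul_succ]
      exact (len_pow h n).mul h

private theorem len_zpow {F : Type} [Group F] {T : Set F} (hTs : ∀ t ∈ T, t⁻¹ ∈ T) {M : ℕ} {g : F}
    (h : Len T M g) (n : ℤ) : Len T (M * n.natAbs) (g ^ n) := by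
  rcases Int.natAbs_eq n with h1 | h1
  · have h2 : g ^ n = g ^ n.natAbs := by
      conv_lhs => rw [h1]
      rw [zpow_natCast]
    rw [h2]
    exact len_pow h _
  · have h2 : g ^ n = (g ^ n.natAbs)⁻¹ := by
      conv_lhs => rw [h1]
      rw [zpow_neg, zpow_natCast]
    rw [h2]
    exact (len_pow h _).inv hTs

private theorem len_list {F ι : Type} [Group F] {T : Set F} (f : ι → F) (ℓ : ι → ℕ)
    (h : ∀ i, Len T (ℓ i) (f i)) (L : List ι) : Len T (L.map ℓ).sum (L.map f).prod := by
  induction L with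
  | nil =>
    simp only [List.map_nil, List.prod_nil]
    exact Len.one _
  | cons a L ih =>
    simp only [List.map_cons, List.prod_cons, List.sum_cons]
    exact (h a).mul ih

theorem lift_comm {F : Type} [Group F] (K : Subgroup F) [K.Normal] [K.FiniteIndex] {T : Set F}
    (hTf : T.Finite) (hTs : ∀ t ∈ T, t⁻¹ ∈ T) (hT : Subgroup.closure T = ⊤) (S : Subgroup F)
    (hS : K ≤ S) :
    ∃ C : ℕ, ∀ m, ∀ ν ∈ ⁅S, K⁆, Len T m ν → ∃ (l : List (F × F)) (d : F), l.length ≤ C ∧
      (∀ p ∈ l, p.1 ∈ S ∧ p.2 ∈ K) ∧ d ∈ ⁅K, K⁆ ∧ Len T (C * (m + 1)) d ∧ ν = d * cprod l := by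
  classical
  obtain ⟨Q, hQf, hQK, hQ⟩ := schreier K hTf
  have : Fintype Q := hQf.fintype
  have : Finite (F ⧸ K) := Subgroup.finite_quotient_of_finiteIndex
  have : Fintype (F ⧸ K) := Fintype.ofFinite _
  -- lengths
  have hlen : ∀ g : F, ∃ m, Len T m g := fun g =>
    Len.exists_of_mem_closure hTs (by rw [hT]; exact Subgroup.mem_top g)
  -- representatives
  have hrep : ∀ j : F ⧸ K, ∃ α ∈ S, ∀ x ∈ S, (QuotientGroup.mk x : F ⧸ K) = j → α⁻¹ * x ∈ K := by
    intro j
    by_cases h : ∃ x ∈ S, (QuotientGroup.mk x : F ⧸ K) = j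
    · obtain ⟨a, ha, hj⟩ := h
      exact ⟨a, ha, fun x hx hxj => QuotientGroup.eq.1 (hj.trans hxj.symm)⟩
    · exact ⟨1, S.one_mem, fun x hx hxj => absurd ⟨x, hx, hxj⟩ h⟩
  choose α hαS hα using hrep
  obtain ⟨M, hM⟩ : ∃ M, ∀ i : Q, Len T M (i : F) := by
    choose f hf using hlen
    refine ⟨∑ i : Q, f (i : F), fun i => (hf i).mono ?_⟩
    exact Finset.single_le_sum (f := fun i : Q => f (i : F)) (fun _ _ => Nat.zero_le _) (Finset.mem_univ i)
  obtain ⟨A₀, hA₀⟩ : ∃ A₀, ∀ j, Len T A₀ (α j) := by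
    choose f hf using hlen
    refine ⟨∑ j, f (α j), fun j => (hf _).mono ?_⟩
    exact Finset.single_le_sum (f := fun j => f (α j)) (fun _ _ => Nat.zero_le _) (Finset.mem_univ j)
  -- the commutator homomorphisms
  set of : K →* Abelianization K := Abelianization.of with hof
  set c : F → (K →* Abelianization K) := fun a =>
    (of.comp (MulAut.conjNormal a : MulAut K).toMonoidHom) / of with hc
  have c_apply : ∀ (a : F) (y : K), c a y = of (MulAut.conjNormal a y) / of y := fun a y => rfl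
  have comm_mem : ∀ (a : F) (y : K), ⁅a, (y : F)⁆ ∈ K := by
    intro a y
    rw [commutatorElement_def]
    exact K.mul_mem (Subgroup.Normal.conj_mem inferInstance _ y.2 a) (K.inv_mem y.2)
  have comm_class : ∀ (a : F) (y : K) (h : ⁅a, (y : F)⁆ ∈ K), of ⟨⁅a, (y : F)⁆, h⟩ = c a y := by
    intro a y h
    have h1 : (⟨⁅a, (y : F)⁆, h⟩ : K) = MulAut.conjNormal a y * y⁻¹ := by
      refine Subtype.ext ?_
      simp [commutatorElement_def]
    rw [h1, map_mul, map_inv, c_apply, div_eq_mul_inv]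
  have c_mul : ∀ (a k : F), k ∈ K → c (a * k) = c a := by
    intro a k hk
    refine MonoidHom.ext (fun y => ?_)
    rw [c_apply, c_apply]
    congr 1
    have h1 : (MulAut.conjNormal (a * k) y : K) =
        MulAut.conjNormal a ⟨k, hk⟩ * MulAut.conjNormal a y * (MulAut.conjNormal a ⟨k, hk⟩)⁻¹ := by
      refine Subtype.ext ?_
      simp only [Subgroup.coe_mul, Subgroup.coe_inv, MulAut.conjNormal_apply]
      group
    rw [h1, map_mul, map_mul, map_inv, mul_comm (of _) (of _), mul_inv_cancel_right]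
  have ker_of : ∀ y : K, of y = 1 → (y : F) ∈ ⁅K, K⁆ := by
    intro y hy
    have h1 : y ∈ (Abelianization.of : K →* Abelianization K).ker := hy
    rw [Abelianization.ker_of] at h1
    rw [← Subgroup.map_subtype_commutator]
    exact ⟨y, h1, rfl⟩
  -- the families
  set q : Q → Abelianization K := fun i => of ⟨i, hQK i.2⟩ with hq
  set b : (F ⧸ K) × Q → Abelianization K := fun p => c (α p.1) ⟨p.2, hQK p.2.2⟩ with hb
  have hKQ : ∀ y : K, ∃ m, Len Q m (y : F) := by
    intro y
    obtain ⟨m, hm⟩ := hlen y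
    exact ⟨m, hQ m y y.2 hm⟩
  have hbq : ∀ p, b p ∈ Subgroup.closure (Set.range q) := by
    intro p
    obtain ⟨y, hy⟩ := (QuotientGroup.mk'_surjective (commutator K)) (b p)
    obtain ⟨m, hm⟩ := hKQ y
    obtain ⟨x, -, h2⟩ := word_exp hQK y.2 hm
    have h3 := h2 _ of
    have h4 : of ⟨(y : F), y.2⟩ = b p := hy
    rw [← h4, h3]
    refine Subgroup.prod_mem _ (fun i _ => Subgroup.zpow_mem _ ?_ _)
    exact Subgroup.subset_closure (Set.mem_range_self (f := q) i)
  obtain ⟨C, hC⟩ := lin_group q b hbq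
  -- claim 1
  have claim1 : ∀ ν ∈ ⁅S, K⁆, ∃ z : K, (z : F) = ν ∧ of z ∈ Subgroup.closure (Set.range b) := by
    have h1 : ⁅S, K⁆ ≤ ((Subgroup.closure (Set.range b)).comap of).map K.subtype := by
      rw [Subgroup.commutator_le]
      intro x hx y hy
      refine ⟨⟨⁅x, y⁆, comm_mem x ⟨y, hy⟩⟩, ?_, rfl⟩
      change of ⟨⁅x, y⁆, comm_mem x ⟨y, hy⟩⟩ ∈ Subgroup.closure (Set.range b)
      rw [comm_class x ⟨y, hy⟩]
      have h2 : x = α (QuotientGroup.mk x) * ((α (QuotientGroup.mk x))⁻¹ * x) := by group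
      have h3 := hα (QuotientGroup.mk x) x hx rfl
      have h4 : c x = c (α (QuotientGroup.mk x)) := by
        conv_lhs => rw [h2]
        exact c_mul _ _ h3
      rw [h4]
      obtain ⟨m, hm⟩ := hKQ ⟨y, hy⟩
      obtain ⟨e, -, h5⟩ := word_exp hQK hy hm
      rw [h5 _ (c (α (QuotientGroup.mk x)))]
      refine Subgroup.prod_mem _ (fun i _ => Subgroup.zpow_mem _ ?_ _)
      exact Subgroup.subset_closure (Set.mem_range_self (f := b) (QuotientGroup.mk x, i))
    intro ν hν
    obtain ⟨z, hz1, hz2⟩ := h1 hν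
    exact ⟨z, hz2, hz1⟩
  refine ⟨Fintype.card (F ⧸ K) * (2 * A₀ + 2 * (M * C)) + Fintype.card (F ⧸ K) + 1, ?_⟩
  intro m ν hν hm
  obtain ⟨z, rfl, hz⟩ := claim1 ν hν
  obtain ⟨x, hx1, hx2⟩ := word_exp hQK z.2 (hQ m z z.2 hm)
  have hx3 : of z = ∏ i, q i ^ x i := hx2 _ of
  rw [hx3] at hz
  obtain ⟨n, hn1, hn2⟩ := hC x hz
  rw [← hx3] at hn1
  set β : F ⧸ K → K := fun j =>
    ((Finset.univ : Finset Q).toList.map (fun i : Q => (⟨i, hQK i.2⟩ : K) ^ n (j, i))).prod with hβ
  have hcβ : ∀ j, c (α j) (β j) = ∏ i, b (j, i) ^ n (j, i) := by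
    intro j
    rw [hβ]
    simp only [map_list_prod, List.map_map]
    rw [← Finset.prod_map_toList]
    congr 1
    refine List.map_congr_left (fun i _ => ?_)
    simp [hb]
  have hβlen : ∀ j, Len T (M * (C * m)) (β j : F) := by
    intro j
    have h1 : (β j : F) = ((Finset.univ : Finset Q).toList.map (fun i : Q => (i : F) ^ n (j, i))).prod := by
      rw [hβ]
      simp only [Subgroup.val_list_prod, List.map_map]
      congr 1
    rw [h1]
    refine (len_list (fun i : Q => (i : F) ^ n (j, i)) (fun i => M * (n (j, i)).natAbs)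
      (fun i => len_zpow hTs (hM i) _) _).mono ?_
    rw [Finset.sum_map_toList, ← Finset.mul_sum]
    refine Nat.mul_le_mul_left _ ?_
    calc ∑ i, (n (j, i)).natAbs ≤ ∑ p, (n p).natAbs := by
          rw [Fintype.sum_prod_type]
          exact Finset.single_le_sum (f := fun j => ∑ i, (n (j, i)).natAbs) (fun _ _ => Nat.zero_le _)
            (Finset.mem_univ j)
      _ ≤ C * ∑ i, (x i).natAbs := hn2
      _ ≤ C * m := Nat.mul_le_mul_left _ hx1
  -- the list
  have hcp : ∀ L : List (F ⧸ K), ∃ h : cprod (L.map (fun j => (α j, (β j : F)))) ∈ K,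
      of ⟨cprod (L.map (fun j => (α j, (β j : F)))), h⟩ = (L.map (fun j => c (α j) (β j))).prod := by
    intro L
    induction L with
    | nil =>
      refine ⟨by simp, ?_⟩
      have : (⟨cprod (([] : List (F ⧸ K)).map (fun j => (α j, (β j : F)))), by simp⟩ : K) = 1 :=
        Subtype.ext (by simp)
      rw [this]
      simp
    | cons j L ih =>
      obtain ⟨h1, h2⟩ := ih
      have h3 : cprod ((j :: L).map (fun j => (α j, (β j : F)))) ∈ K := by
        rw [List.map_cons, cprod_cons]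
        exact K.mul_mem (comm_mem _ _) h1
      refine ⟨h3, ?_⟩
      have h4 : (⟨cprod ((j :: L).map (fun j => (α j, (β j : F)))), h3⟩ : K) =
          ⟨⁅α j, (β j : F)⁆, comm_mem _ _⟩ * ⟨cprod (L.map (fun j => (α j, (β j : F)))), h1⟩ := by
        refine Subtype.ext ?_
        simp only [List.map_cons, cprod_cons, Subgroup.coe_mul]
      rw [h4, map_mul, h2, comm_class, List.map_cons, List.prod_cons]
  obtain ⟨hcp1, hcp2⟩ := hcp (Finset.univ : Finset (F ⧸ K)).toList
  set l : List (F × F) := (Finset.univ : Finset (F ⧸ K)).toList.map (fun j => (α j, (β j : F))) with hl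
  have hlK : of ⟨cprod l, hcp1⟩ = of z := by
    rw [hcp2, Finset.prod_map_toList, hn1, Fintype.prod_prod_type]
    exact Finset.prod_congr rfl (fun j _ => hcβ j)
  have hllen : l.length = Fintype.card (F ⧸ K) := by
    rw [hl, List.length_map, Finset.length_toList, Finset.card_univ]
  have hcl : Len T (Fintype.card (F ⧸ K) * (2 * A₀ + 2 * (M * (C * m)))) (cprod l) := by
    have h1 : cprod l = ((Finset.univ : Finset (F ⧸ K)).toList.map (fun j => ⁅α j, (β j : F)⁆)).prod := by
      rw [hl]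
      unfold cprod
      rw [List.map_map]
      rfl
    rw [h1]
    refine (len_list (fun j => ⁅α j, (β j : F)⁆) (fun _ => 2 * A₀ + 2 * (M * (C * m))) (fun j => ?_) _).mono ?_
    · rw [commutatorElement_def]
      have h2 := (((hA₀ j).mul (hβlen j)).mul ((hA₀ j).inv hTs)).mul ((hβlen j).inv hTs)
      exact h2.mono (by omega)
    · rw [Finset.sum_map_toList, Finset.sum_const, Finset.card_univ, smul_eq_mul]
  refine ⟨l, (z : F) * (cprod l)⁻¹, ?_, ?_, ?_, ?_, ?_⟩
  · rw [hllen]; omega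
  · intro p hp
    rw [hl, List.mem_map] at hp
    obtain ⟨j, -, rfl⟩ := hp
    exact ⟨hαS j, (β j).2⟩
  · have h1 := ker_of (z * (⟨cprod l, hcp1⟩ : K)⁻¹) (by rw [map_mul, map_inv, hlK, mul_inv_cancel])
    exact h1
  · refine (hm.mul (hcl.inv hTs)).mono ?_
    generalize Fintype.card (F ⧸ K) = n0
    nlinarith [Nat.zero_le (n0 * A₀ * m), Nat.zero_le (n0 * m), Nat.zero_le (n0 * (M * C)), Nat.zero_le n0]
  · group

end Pool.Agent.VY
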