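import Mathlib

set_option autoImplicit false

/-! Job VY-Lin. Subgroups of `ℤ^ι` are undistorted (Smith normal form). -/

namespace Pool.Agent.VY

private theorem func_bound {ι : Type} [Fintype ι] (φ : (ι → ℤ) →ₗ[ℤ] ℤ) :
    ∃ C : ℕ, ∀ x : ι → ℤ, (φ x).natAbs ≤ C * ∑ i, (x i).natAbs := by
  classical
  refine ⟨∑ i, (φ (Pi.single i 1)).natAbs, fun x => ?_⟩
  have h1 : φ x = ∑ i, x i * φ (Pi.single i 1) := by
    conv_lhs => rw [pi_eq_sum_univ' x]
    rw [map_sum]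
    refine Finset.sum_congr rfl fun i _ => ?_
    rw [map_smul, smul_eq_mul]
  rw [h1]
  have h2 : (∑ i, x i * φ (Pi.single i 1)).natAbs ≤ ∑ i, (x i * φ (Pi.single i 1)).natAbs :=
    Int.natAbs_sum_le _ _
  refine h2.trans ?_
  have h3 : ∀ i ∈ (Finset.univ : Finset ι), (x i * φ (Pi.single i 1)).natAbs ≤
      (∑ k, (φ (Pi.single k 1)).natAbs) * (x i).natAbs := by
    intro i _
    rw [Int.natAbs_mul, mul_comm]
    exact Nat.mul_le_mul_right _ (Finset.single_le_sum (f := fun k => (φ (Pi.single k 1)).natAbs)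
      (fun _ _ => Nat.zero_le _) (Finset.mem_univ i))
  refine (Finset.sum_le_sum h3).trans ?_
  rw [Finset.mul_sum]

theorem lin {ι κ : Type} [Fintype ι] [Fintype κ] (M : κ → ι → ℤ) :
    ∃ C : ℕ, ∀ x : ι → ℤ, x ∈ AddSubgroup.closure (Set.range M) →
      ∃ n : κ → ℤ, x = ∑ j, n j • M j ∧ ∑ j, (n j).natAbs ≤ C * ∑ i, (x i).natAbs := by
  classical
  obtain ⟨m, S⟩ := Submodule.smithNormalForm (Pi.basisFun ℤ ι) (Submodule.span ℤ (Set.range M))
  have ha : ∀ i, S.a i ≠ 0 := by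
    intro i h
    have h1 := S.snf i
    rw [h, zero_smul] at h1
    exact S.bN.ne_zero i (Subtype.ext h1)
  have hφ : ∀ i : Fin m, ∃ C : ℕ, ∀ x : ι → ℤ,
      (S.bM.repr x (S.f i)).natAbs ≤ C * ∑ k, (x k).natAbs := by
    intro i
    exact func_bound (S.bM.coord (S.f i))
  choose C1 hC1 using hφ
  have hn : ∀ i : Fin m, ∃ n : κ → ℤ, ∑ j, n j • M j = (S.bN i : ι → ℤ) := by
    intro i
    exact (Submodule.mem_span_range_iff_exists_fun ℤ).1 (S.bN i).2
  choose n hn using hn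
  refine ⟨∑ j, ∑ i, C1 i * (n i j).natAbs, fun x hx => ?_⟩
  have hx' : x ∈ Submodule.span ℤ (Set.range M) := by
    have h1 : x ∈ (Submodule.span ℤ (Set.range M)).toAddSubgroup := by
      rw [Submodule.span_int_eq_addSubgroupClosure]
      exact hx
    exact h1
  have hc : ∀ i, (S.bN.repr ⟨x, hx'⟩ i).natAbs ≤ C1 i * ∑ k, (x k).natAbs := by
    intro i
    have h1 : S.bM.repr x (S.f i) = S.bN.repr (S.a i • ⟨x, hx'⟩) i :=
      S.repr_apply_embedding_eq_repr_smul (m := ⟨x, hx'⟩)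
    rw [map_smul, Finsupp.smul_apply, smul_eq_mul] at h1
    have h2 := hC1 i x
    rw [h1, Int.natAbs_mul] at h2
    refine le_trans ?_ h2
    exact Nat.le_mul_of_pos_left _ (Int.natAbs_pos.2 (ha i))
  refine ⟨fun j => ∑ i, S.bN.repr ⟨x, hx'⟩ i * n i j, ?_, ?_⟩
  · have h1 := S.bN.sum_repr ⟨x, hx'⟩
    have h2 := congrArg (Subtype.val) h1
    rw [Submodule.coe_sum] at h2
    have h3 : ∑ i, S.bN.repr ⟨x, hx'⟩ i • (S.bN i : ι → ℤ) = x := h2
    refine h3.symm.trans ?_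
    simp only [Finset.sum_smul]
    rw [Finset.sum_comm]
    refine Finset.sum_congr rfl fun i _ => ?_
    rw [← hn i, Finset.smul_sum]
    refine Finset.sum_congr rfl fun j _ => ?_
    rw [mul_smul]
  · rw [Finset.sum_mul]
    refine Finset.sum_le_sum fun j _ => ?_
    refine (Int.natAbs_sum_le _ _).trans ?_
    rw [Finset.sum_mul]
    refine Finset.sum_le_sum fun i _ => ?_
    rw [Int.natAbs_mul]
    calc (S.bN.repr ⟨x, hx'⟩ i).natAbs * (n i j).natAbs
        ≤ (C1 i * ∑ k, (x k).natAbs) * (n i j).natAbs := Nat.mul_le_mul_right _ (hc i)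
      _ = C1 i * (n i j).natAbs * ∑ k, (x k).natAbs := by ring

end Pool.Agent.VY
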