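import Mathlib

set_option autoImplicit false

/-! Job VY-Noe. In a finitely generated commutative group every join of subgroups is the join of finitely
many of them.

`Subgroup A ≃o AddSubgroup (Additive A) ≃o Submodule ℤ (Additive A)` (`Subgroup.toAddSubgroup`,
`AddSubgroup.toIntSubmodule`), and `Submodule ℤ (Additive A)` satisfies `WellFoundedGT` (noetherian:
`Module.Finite ℤ (Additive A)`), so there is a finite set `s` of indices with `⨆ i, P i = ⨆ i ∈ s, P i`
(`CompleteLattice.WellFoundedGT.isSupFiniteCompact` or similar). Then elements of a finite join of subgroups of a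
commutative group are products (`Subgroup.mem_sup`, induction on `s`; `j` enumerates `s`). -/

namespace Pool.Agent.VY

private theorem finite_join_finset {A I : Type} [CommGroup A] (P : I → Subgroup A)
    (t : Finset (Subgroup A)) (ht : (t : Set (Subgroup A)) ⊆ Set.range P) :
    ∃ (n : ℕ) (j : Fin n → I), ∀ x ∈ t.sup id, ∃ y : Fin n → A, (∀ k, y k ∈ P (j k)) ∧
      x = ∏ k, y k := by
  classical
  induction t using Finset.induction_on with
  | empty =>
    refine ⟨0, Fin.elim0, ?_⟩
    intro x hx
    rw [Finset.sup_empty, Subgroup.mem_bot] at hx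
    exact ⟨Fin.elim0, fun k => k.elim0, by rw [hx]; simp⟩
  | insert a t hat ih =>
    obtain ⟨n, j, hj⟩ := ih (fun z hz => ht (by
      rw [Finset.coe_insert]
      exact Set.mem_insert_of_mem _ hz))
    obtain ⟨i, hi⟩ := ht (show a ∈ ((insert a t : Finset (Subgroup A)) : Set (Subgroup A)) by
      rw [Finset.coe_insert]
      exact Set.mem_insert _ _)
    refine ⟨n + 1, Fin.cons i j, ?_⟩
    intro x hx
    rw [Finset.sup_insert, id, Subgroup.mem_sup] at hx
    obtain ⟨u, hu, v, hv, rfl⟩ := hx
    obtain ⟨y, hy, hvy⟩ := hj v hv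
    refine ⟨Fin.cons u y, ?_, ?_⟩
    · intro k
      refine Fin.cases ?_ (fun k => ?_) k
      · rw [Fin.cons_zero, Fin.cons_zero, hi]
        exact hu
      · rw [Fin.cons_succ, Fin.cons_succ]
        exact hy k
    · rw [Fin.prod_univ_succ, Fin.cons_zero, hvy]
      simp only [Fin.cons_succ]

theorem finite_join {A I : Type} [CommGroup A] [Group.FG A] (P : I → Subgroup A) :
    ∃ (n : ℕ) (j : Fin n → I), ∀ x ∈ ⨆ i, P i, ∃ y : Fin n → A, (∀ k, y k ∈ P (j k)) ∧
      x = ∏ k, y k := by
  have h0 : Module.Finite ℤ (Additive A) := by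
    rw [Module.Finite.iff_addGroup_fg]
    infer_instance
  have h1 : IsNoetherian ℤ (Additive A) := inferInstance
  have h2 : WellFoundedGT (Submodule ℤ (Additive A)) := inferInstance
  have h3 : WellFoundedGT (Subgroup A) :=
    ((Subgroup.toAddSubgroup (G := A)).trans AddSubgroup.toIntSubmodule).toOrderEmbedding.wellFoundedGT
  obtain ⟨t, ht, hs⟩ := CompleteLattice.WellFoundedGT.isSupFiniteCompact (Subgroup A) (Set.range P)
  obtain ⟨n, j, hj⟩ := finite_join_finset P t ht
  refine ⟨n, j, ?_⟩
  intro x hx
  apply hj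
  rw [← hs]
  exact hx

end Pool.Agent.VY
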