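import Pool.Agent.VX.Orb

set_option autoImplicit false

/-! Job VY-Orb. `exists_orbits` with the additional conclusion that `r` is constant on the orbits of `K`.
-/

namespace Pool.Agent.VY

open Pool.Agent.VW Pool.Agent.VX

private theorem orb_ia {Y : Type} (e : Equiv.Perm Y) (y : Y) : e⁻¹ (e y) = y := e.symm_apply_apply y

private theorem orb_ai {Y : Type} (e : Equiv.Perm Y) (y : Y) : e (e⁻¹ y) = y := e.apply_symm_apply y

private theorem orb_refl {F Y : Type} [Group F] (Ψ : F →* Wr F Y) (K : Subgroup F) (y : Y) :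
    ∃ κ ∈ K, (Ψ κ).perm y = y := ⟨1, K.one_mem, by simp⟩

private theorem orb_symm {F Y : Type} [Group F] (Ψ : F →* Wr F Y) (K : Subgroup F) {y y' : Y}
    (h : ∃ κ ∈ K, (Ψ κ).perm y = y') : ∃ κ ∈ K, (Ψ κ).perm y' = y := by
  obtain ⟨κ, hκ, rfl⟩ := h
  refine ⟨κ⁻¹, K.inv_mem hκ, ?_⟩
  rw [map_inv, Wr.inv_perm, orb_ia]

private theorem orb_trans {F Y : Type} [Group F] (Ψ : F →* Wr F Y) (K : Subgroup F) {y y' y'' : Y}
    (h : ∃ κ ∈ K, (Ψ κ).perm y = y') (h' : ∃ κ ∈ K, (Ψ κ).perm y' = y'') : ∃ κ ∈ K, (Ψ κ).perm y = y'' := by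
  obtain ⟨κ, hκ, rfl⟩ := h
  obtain ⟨κ', hκ', rfl⟩ := h'
  refine ⟨κ' * κ, K.mul_mem hκ' hκ, ?_⟩
  rw [map_mul, Wr.mul_perm, Equiv.Perm.mul_apply]

private theorem orb_tr {F Y : Type} [Group F] (Ψ : F →* Wr F Y) (K : Subgroup F) [K.Normal] (f : F) {y y' : Y}
    (h : ∃ κ ∈ K, (Ψ κ).perm y = y') : ∃ κ ∈ K, (Ψ κ).perm ((Ψ f).perm y) = (Ψ f).perm y' := by
  obtain ⟨κ, hκ, rfl⟩ := h
  refine ⟨f * κ * f⁻¹, Subgroup.Normal.conj_mem inferInstance κ hκ f, ?_⟩
  rw [map_mul, map_mul, map_inv, Wr.mul_perm, Wr.mul_perm, Wr.inv_perm, Equiv.Perm.mul_apply, Equiv.Perm.mul_apply,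
    orb_ia]

theorem exists_orbits' {F Y : Type} [Group F] [Fintype Y] [DecidableEq Y] (Ψ : F →* Wr F Y)
    (K : Subgroup F) [K.Normal] [K.FiniteIndex] (htr : ∀ y y', ∃ f, (Ψ f).perm y = y') :
    ∃ (r : Y → Y) (s : Y → F) (k : ℕ), (∀ y, r (r y) = r y) ∧ (∀ y, s y ∈ K) ∧
    (∀ y, (Ψ (s y)).perm y = r y) ∧ (∀ f ∈ K, ∀ y, r ((Ψ f).perm y) = r y) ∧
    (∀ y, (Finset.univ.filter (fun z => r z = r y)).card = k) ∧
    Fintype.card Y ≤ K.index * k := by
  classical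
  let S : Setoid Y := ⟨fun y y' => ∃ κ ∈ K, (Ψ κ).perm y = y', ⟨orb_refl Ψ K, orb_symm Ψ K, orb_trans Ψ K⟩⟩
  let r : Y → Y := fun y => (Quotient.mk S y).out
  have hr : ∀ y, ∃ κ ∈ K, (Ψ κ).perm y = r y := fun y =>
    orb_symm Ψ K (Quotient.exact (s := S) (Quotient.out_eq (Quotient.mk S y)))
  have hrr : ∀ y y', (∃ κ ∈ K, (Ψ κ).perm y = y') → r y = r y' := by
    intro y y' h
    have h1 : Quotient.mk S y = Quotient.mk S y' := Quotient.sound h
    show (Quotient.mk S y).out = (Quotient.mk S y').out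
    rw [h1]
  have hri : ∀ y y', r y = r y' ↔ ∃ κ ∈ K, (Ψ κ).perm y = y' := by
    intro y y'
    refine ⟨fun h => ?_, hrr y y'⟩
    have h1 := hr y
    rw [h] at h1
    exact orb_trans Ψ K h1 (orb_symm Ψ K (hr y'))
  choose s hs1 hs2 using hr
  rcases isEmpty_or_nonempty Y with hY | ⟨⟨y0⟩⟩
  · refine ⟨r, s, 0, fun y => hY.elim y, hs1, hs2, fun _ _ y => hY.elim y, fun y => hY.elim y, ?_⟩
    rw [Fintype.card_eq_zero]
    exact Nat.zero_le _
  have hk : ∀ y, (Finset.univ.filter (fun z => r z = r y)).card = (Finset.univ.filter (fun z => r z = r y0)).card := by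
    intro y
    obtain ⟨f, rfl⟩ := htr y0 y
    symm
    refine Finset.card_bij (fun z _ => (Ψ f).perm z) ?_ ?_ ?_
    · intro z hz
      rw [Finset.mem_filter] at hz ⊢
      exact ⟨Finset.mem_univ _, (hri _ _).2 (orb_tr Ψ K f ((hri _ _).1 hz.2))⟩
    · intro z _ z' _ h
      exact (Ψ f).perm.injective h
    · intro z hz
      rw [Finset.mem_filter] at hz
      refine ⟨(Ψ f⁻¹).perm z, ?_, ?_⟩
      · rw [Finset.mem_filter]
        refine ⟨Finset.mem_univ _, (hri _ _).2 ?_⟩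
        have h1 := orb_tr Ψ K f⁻¹ ((hri _ _).1 hz.2)
        have h2 : (Ψ f⁻¹).perm ((Ψ f).perm y0) = y0 := by
          rw [map_inv, Wr.inv_perm, orb_ia]
        rwa [h2] at h1
      · rw [map_inv, Wr.inv_perm, orb_ai]
  refine ⟨r, s, (Finset.univ.filter (fun z => r z = r y0)).card, fun y => hrr _ _ (orb_symm Ψ K ⟨s y, hs1 y, hs2 y⟩),
    hs1, hs2, fun f hf y => (hrr _ _ ⟨f, hf, rfl⟩).symm, hk, ?_⟩
  have h1 : (Finset.univ.image r).card ≤ K.index := by
    have : Fintype (F ⧸ K) := K.fintypeQuotientOfFiniteIndex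
    have h2 : Finset.univ.image r ⊆ (Finset.univ : Finset (F ⧸ K)).image (fun q => r ((Ψ q.out).perm y0)) := by
      intro b hb
      rw [Finset.mem_image] at hb ⊢
      obtain ⟨y, -, rfl⟩ := hb
      obtain ⟨f, rfl⟩ := htr y0 y
      refine ⟨(f : F ⧸ K), Finset.mem_univ _, ?_⟩
      obtain ⟨κ, hκ⟩ := QuotientGroup.mk_out_eq_mul K f
      rw [hκ]
      refine hrr _ _ ?_
      rw [map_mul, Wr.mul_perm, Equiv.Perm.mul_apply]
      exact orb_tr Ψ K f (orb_symm Ψ K ⟨κ.1, κ.2, rfl⟩)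
    refine (Finset.card_le_card h2).trans (Finset.card_image_le.trans ?_)
    rw [Finset.card_univ, ← Nat.card_eq_fintype_card]
    exact le_of_eq rfl
  rw [← Finset.card_univ, Finset.card_eq_sum_card_image r Finset.univ]
  calc ∑ b ∈ Finset.univ.image r, (Finset.univ.filter (fun z => r z = b)).card
      ≤ ∑ _b ∈ Finset.univ.image r, (Finset.univ.filter (fun z => r z = r y0)).card := by
        refine Finset.sum_le_sum fun b hb => ?_
        rw [Finset.mem_image] at hb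
        obtain ⟨y, -, rfl⟩ := hb
        exact le_of_eq (hk y)
    _ = (Finset.univ.image r).card * (Finset.univ.filter (fun z => r z = r y0)).card := by
        rw [Finset.sum_const, smul_eq_mul]
    _ ≤ K.index * (Finset.univ.filter (fun z => r z = r y0)).card := Nat.mul_le_mul_right _ h1

end Pool.Agent.VY
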