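import Pool.Agent.VY.Defs

set_option autoImplicit false

/-! VY-Trf. Transfer: the product over the `K`-orbit of `y₀` of the classes in the abelianization of `Sg Ψ K y₀` of the
sections at `y₀` of `s (f z) * f * (s z)⁻¹` is a homomorphism on `K`. -/

namespace Pool.Agent.VY

open Pool.Agent.VW Pool.Agent.VX
open scoped commutatorElement

section

variable {F Y : Type} [Group F] (Ψ : F →* Wr F Y) (K : Subgroup F) (r : Y → Y) (s : Y → F)

private theorem mem_of_comm {G : Type} [Group G] {H : Subgroup G} {h : G} (hh : h ∈ ⁅H, H⁆) :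
    ∃ h' ∈ commutator H, (h' : G) = h := by
  have h1 : ⁅H, H⁆ = (commutator H).map H.subtype := by
    rw [commutator_def, Subgroup.map_commutator, ← MonoidHom.range_eq_map, Subgroup.range_subtype]
  rw [h1] at hh
  obtain ⟨h', hm, he⟩ := Subgroup.mem_map.1 hh
  exact ⟨h', hm, he⟩

private theorem comm_mem {G : Type} [Group G] {H : Subgroup G} {h : H} (hh : h ∈ commutator H) : (h : G) ∈ ⁅H, H⁆ := by
  have h1 : ⁅H, H⁆ = (commutator H).map H.subtype := by
    rw [commutator_def, Subgroup.map_commutator, ← MonoidHom.range_eq_map, Subgroup.range_subtype]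
  rw [h1]
  exact Subgroup.mem_map_of_mem _ hh

private theorem tr_mem (hs : ∀ y, s y ∈ K) (hsr : ∀ y, (Ψ (s y)).perm y = r y)
    (hrK : ∀ f ∈ K, ∀ y, r ((Ψ f).perm y) = r y) {y₀ : Y} {f : F} (hf : f ∈ K) {z : Y} (hz : r z = y₀) :
    s ((Ψ f).perm z) * f * (s z)⁻¹ ∈ K ∧ (Ψ (s ((Ψ f).perm z) * f * (s z)⁻¹)).perm y₀ = y₀ := by
  refine ⟨K.mul_mem (K.mul_mem (hs _) hf) (K.inv_mem (hs _)), ?_⟩
  have h1 : (Ψ (s z)).perm⁻¹ y₀ = z := by
    rw [Equiv.Perm.inv_eq_iff_eq, hsr, hz]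
  rw [map_mul, map_mul, map_inv, Wr.mul_perm, Wr.mul_perm, Wr.inv_perm, Equiv.Perm.mul_apply, Equiv.Perm.mul_apply, h1,
    hsr, hrK f hf, hz]

/-- the factor of the transfer at `z` -/
private noncomputable def tc (y₀ : Y) (z : Y) (f : F)
    (h : r z = y₀ → (Ψ (s ((Ψ f).perm z) * f * (s z)⁻¹)).sec y₀ ∈ Sg Ψ K y₀) : Abelianization (Sg Ψ K y₀) :=
  open Classical in if hz : r z = y₀ then Abelianization.of ⟨_, h hz⟩ else 1

end

theorem transfer {F Y : Type} [Group F] [Fintype Y] [DecidableEq Y] (Ψ : F →* Wr F Y)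
    (K : Subgroup F) (r : Y → Y) (s : Y → F)
    (hs : ∀ y, s y ∈ K) (hsr : ∀ y, (Ψ (s y)).perm y = r y)
    (hrK : ∀ f ∈ K, ∀ y, r ((Ψ f).perm y) = r y) {h : F} (hh : h ∈ ⁅K, K⁆) (μ : Y → F)
    (hμ : ∀ y, r y ≠ y → μ y = 1) (hb : Ψ h = base μ) (y₀ : Y) (hy : r y₀ = y₀) :
    μ y₀ ∈ ⁅Sg Ψ K y₀, Sg Ψ K y₀⁆ := by
  classical
  have hmem : ∀ (f : F), f ∈ K → ∀ z, r z = y₀ → (Ψ (s ((Ψ f).perm z) * f * (s z)⁻¹)).sec y₀ ∈ Sg Ψ K y₀ := by
    intro f hf z hz
    obtain ⟨h1, h2⟩ := tr_mem Ψ K r s hs hsr hrK hf hz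
    exact ⟨_, h1, h2, rfl⟩
  -- the transfer
  let T : K →* Abelianization (Sg Ψ K y₀) :=
    { toFun := fun f => ∏ z, tc Ψ K r s y₀ z f.1 (hmem f.1 f.2 z)
      map_one' := by
        refine Finset.prod_eq_one fun z _ => ?_
        unfold tc
        split_ifs with hz
        · have h1 : (⟨_, hmem 1 K.one_mem z hz⟩ : Sg Ψ K y₀) = 1 := by
            apply Subtype.ext
            show (Ψ (s ((Ψ 1).perm z) * 1 * (s z)⁻¹)).sec y₀ = 1
            have h2 : (Ψ 1).perm z = z := by rw [map_one]; rfl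
            rw [h2, mul_one, mul_inv_cancel, map_one]
            rfl
          exact (congrArg Abelianization.of h1).trans (map_one _)
        · rfl
      map_mul' := by
        intro f g
        have h1 : ∏ z, tc Ψ K r s y₀ z f.1 (hmem f.1 f.2 z) =
            ∏ z, tc Ψ K r s y₀ ((Ψ g.1).perm z) f.1 (hmem f.1 f.2 _) :=
          (Equiv.prod_comp (Ψ g.1).perm fun z => tc Ψ K r s y₀ z f.1 (hmem f.1 f.2 z)).symm
        rw [h1, ← Finset.prod_mul_distrib]
        refine Finset.prod_congr rfl fun z _ => ?_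
        unfold tc
        by_cases hz : r z = y₀
        · have hz1 : r ((Ψ g.1).perm z) = y₀ := by rw [hrK g.1 g.2, hz]
          rw [dif_pos hz, dif_pos hz, dif_pos hz1, ← map_mul]
          congr 1
          apply Subtype.ext
          show (Ψ (s ((Ψ (f.1 * g.1)).perm z) * (f.1 * g.1) * (s z)⁻¹)).sec y₀ =
            (Ψ (s ((Ψ f.1).perm ((Ψ g.1).perm z)) * f.1 * (s ((Ψ g.1).perm z))⁻¹)).sec y₀ *
              (Ψ (s ((Ψ g.1).perm z) * g.1 * (s z)⁻¹)).sec y₀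
          have h2 := (tr_mem Ψ K r s hs hsr hrK g.2 hz).2
          have h3 : s ((Ψ (f.1 * g.1)).perm z) * (f.1 * g.1) * (s z)⁻¹ =
              (s ((Ψ f.1).perm ((Ψ g.1).perm z)) * f.1 * (s ((Ψ g.1).perm z))⁻¹) *
                (s ((Ψ g.1).perm z) * g.1 * (s z)⁻¹) := by
            have h4 : (Ψ (f.1 * g.1)).perm z = (Ψ f.1).perm ((Ψ g.1).perm z) := by rw [map_mul]; rfl
            rw [h4]
            group
          rw [h3, map_mul, Wr.mul_sec, h2]
        · have hz1 : ¬ r ((Ψ g.1).perm z) = y₀ := by rw [hrK g.1 g.2]; exact hz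
          rw [dif_neg hz, dif_neg hz, dif_neg hz1, mul_one] }
  have hhK : h ∈ K := Subgroup.commutator_le_self K hh
  have hT : T ⟨h, hhK⟩ = 1 := by
    obtain ⟨h', hm, he⟩ := mem_of_comm hh
    have h1 : (⟨h, hhK⟩ : K) = h' := Subtype.ext he.symm
    rw [h1]
    exact Abelianization.commutator_subset_ker T hm
  have hpe : ∀ z, (Ψ h).perm z = z := by
    intro z
    rw [hb, base_perm]
    rfl
  have hsec : ∀ z, r z = y₀ → (Ψ (s ((Ψ h).perm z) * h * (s z)⁻¹)).sec y₀ =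
      (Ψ (s z)).sec z * μ z * ((Ψ (s z)).sec z)⁻¹ := by
    intro z hz
    have h1 : (Ψ (s z)).perm⁻¹ y₀ = z := by
      rw [Equiv.Perm.inv_eq_iff_eq, hsr, hz]
    rw [hpe, map_mul, map_mul, map_inv, hb, conj_base, base_sec]
    simp only [h1]
  have hσ : (Ψ (s y₀)).sec y₀ ∈ Sg Ψ K y₀ := ⟨s y₀, hs y₀, by rw [hsr, hy], rfl⟩
  have hμS : μ y₀ ∈ Sg Ψ K y₀ := ⟨h, hhK, hpe y₀, by rw [hb, base_sec]⟩
  have hT2 : T ⟨h, hhK⟩ = Abelianization.of (⟨μ y₀, hμS⟩ : Sg Ψ K y₀) := by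
    have h1 : T ⟨h, hhK⟩ = ∏ z, tc Ψ K r s y₀ z h (hmem h hhK z) := rfl
    rw [h1, Finset.prod_eq_single y₀]
    · unfold tc
      rw [dif_pos hy]
      have h2 : (⟨_, hmem h hhK y₀ hy⟩ : Sg Ψ K y₀) = ⟨_, hσ⟩ * ⟨_, hμS⟩ * (⟨_, hσ⟩)⁻¹ := by
        apply Subtype.ext
        exact hsec y₀ hy
      rw [h2, map_mul, map_mul, map_inv, mul_comm, inv_mul_cancel_left]
    · intro z _ hz
      unfold tc
      split_ifs with hz1
      · have h2 : (⟨_, hmem h hhK z hz1⟩ : Sg Ψ K y₀) = 1 := by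
          apply Subtype.ext
          have h3 := hsec z hz1
          rw [hμ z (by rw [hz1]; exact hz.symm), mul_one, mul_inv_cancel] at h3
          exact h3
        rw [h2, map_one]
      · rfl
    · intro hz
      exact absurd (Finset.mem_univ _) hz
  rw [hT2] at hT
  have h3 : (⟨μ y₀, hμS⟩ : Sg Ψ K y₀) ∈ commutator (Sg Ψ K y₀) := by
    rw [← Abelianization.ker_of]
    exact hT
  exact comm_mem h3

end Pool.Agent.VY
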