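import Pool.Agent.VW.Over

set_option autoImplicit false

/-! Values of words. -/

namespace Pool.Agent.VY

open Pool.Agent.VW

/-- the set of values in `G` of the words of `V` and of their inverses -/
def Val (V : Set (FreeGroup ℕ)) (G : Type) [Group G] : Set G :=
  {x | (∃ w ∈ V, ∃ f : ℕ → G, FreeGroup.lift f w = x) ∨
    ∃ w ∈ V, ∃ f : ℕ → G, FreeGroup.lift f w = x⁻¹}

theorem Val.inv {V : Set (FreeGroup ℕ)} {G : Type} [Group G] : ∀ x ∈ Val V G, x⁻¹ ∈ Val V G := by
  rintro x (h | h)
  · exact Or.inr (by rwa [inv_inv])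
  · exact Or.inl h

theorem Val.conj {V : Set (FreeGroup ℕ)} {G : Type} [Group G] :
    ∀ x ∈ Val V G, ∀ g : G, g * x * g⁻¹ ∈ Val V G := by
  have key : ∀ (g : G) (f : ℕ → G) (w : FreeGroup ℕ),
      FreeGroup.lift (fun i => g * f i * g⁻¹) w = g * FreeGroup.lift f w * g⁻¹ := by
    intro g f w
    have h : FreeGroup.lift (fun i => g * f i * g⁻¹) =
        (MulAut.conj g).toMonoidHom.comp (FreeGroup.lift f) := by
      ext i
      simp
    rw [h]
    simp
  rintro x (⟨w, hw, f, rfl⟩ | ⟨w, hw, f, hf⟩) g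
  · exact Or.inl ⟨w, hw, fun i => g * f i * g⁻¹, key g f w⟩
  · refine Or.inr ⟨w, hw, fun i => g * f i * g⁻¹, ?_⟩
    rw [key, hf]
    group

theorem Val.closure (V : Set (FreeGroup ℕ)) (G : Type) [Group G] :
    Subgroup.closure {h : G | ∃ w ∈ V, ∃ f : ℕ → G, FreeGroup.lift f w = h} =
      Subgroup.closure (Val V G) := by
  apply le_antisymm
  · exact Subgroup.closure_mono fun x hx => Or.inl hx
  · rw [Subgroup.closure_le]
    rintro x (hx | hx)
    · exact Subgroup.subset_closure hx
    · rw [← inv_inv x]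
      exact Subgroup.inv_mem _ (Subgroup.subset_closure hx)

/-- the definition of `VerballyElliptic` in terms of `Val` -/
theorem elliptic_iff (G : Type) [Group G] : VerballyElliptic G ↔
    ∀ V : Set (FreeGroup ℕ), ∃ m : ℕ, ∀ g ∈ Subgroup.closure (Val V G), Len (Val V G) m g := by
  unfold VerballyElliptic
  refine forall_congr' fun V => ?_
  rw [Val.closure]
  rfl

end Pool.Agent.VY
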